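import Pool.Agent.DBX.SUR.Stmts

set_option autoImplicit false

namespace Pool.Agent.DBX.SUR

open MvPolynomial

noncomputable section

universe u

namespace CM_

section general

variable {K L : Type u} [Field K] [Field L] [Algebra K L]

/-- the elements that come into `B` after multiplication with a power of `η` -/
def locSub (B : Subalgebra K L) (η : L) (hη : η ∈ B) : Subalgebra K L where
  carrier := {z | ∃ e : ℕ, η ^ e * z ∈ B}
  mul_mem' := by
    rintro x y ⟨e, he⟩ ⟨f, hf⟩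
    refine ⟨e + f, ?_⟩
    have h : η ^ (e + f) * (x * y) = (η ^ e * x) * (η ^ f * y) := by ring
    rw [h]
    exact mul_mem he hf
  add_mem' := by
    rintro x y ⟨e, he⟩ ⟨f, hf⟩
    refine ⟨e + f, ?_⟩
    have h : η ^ (e + f) * (x + y) = η ^ f * (η ^ e * x) + η ^ e * (η ^ f * y) := by ring
    rw [h]
    exact add_mem (mul_mem (pow_mem hη _) he) (mul_mem (pow_mem hη _) hf)
  algebraMap_mem' := fun r => ⟨0, by rw [pow_zero, one_mul]; exact B.algebraMap_mem r⟩

theorem mem_locSub {B : Subalgebra K L} {η : L} {hη : η ∈ B} {z : L} :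
    z ∈ locSub B η hη ↔ ∃ e : ℕ, η ^ e * z ∈ B := Iff.rfl

theorem le_locSub (B : Subalgebra K L) (η : L) (hη : η ∈ B) : B ≤ locSub B η hη :=
  fun z hz => ⟨0, by rwa [pow_zero, one_mul]⟩

end general

variable {k : Type u} [Field k] {n : ℕ}

theorem P0_mono (D : Dat k n) (σ : Finset (Fin D.p)) {τ τ' : Finset (Fin D.M)} (h : τ ⊆ τ') :
    P0 D σ τ ≤ P0 D σ τ' := by
  apply Algebra.adjoin_mono
  apply Set.union_subset_union_right
  rintro z ⟨b, hb, hz⟩
  exact ⟨b, h hb, hz⟩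

theorem Rg_single {D : Dat k n} {m : ℕ} (C : Cov D m) (σ : Finset (Fin D.p))
    (τ : Finset (Fin D.M)) (v : Fin m) : C.Rg σ τ (insert v ∅) = P0 D σ τ ⊔ C.A v := by
  simp [Cov.Rg]

theorem ch_le (D : Dat k n) (σ : Finset (Fin D.p)) (τ : Finset (Fin D.M)) (a : Fin D.p)
    (b : Fin D.M) (ha : a ∈ σ) (hb : b ∈ τ) : D.ch a b ≤ P0 D σ τ := by
  apply Algebra.adjoin_mono
  apply Set.union_subset_union
  · rintro z ⟨i, hz⟩
    exact ⟨a, ha, i, hz⟩
  · rintro z ⟨j, hz⟩
    exact ⟨b, hb, j, hz⟩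

/-- the localising element -/
def eta (D : Dat k n) (τ' : Finset (Fin D.M)) (b : Fin D.M) : Fr k n :=
  ∏ b' ∈ τ', inc k n (D.f b') / inc k n (D.f b)

theorem quo_mem (D : Dat k n) (σ : Finset (Fin D.p)) (τ : Finset (Fin D.M)) (b : Fin D.M)
    (hb : b ∈ τ) (j : Fin D.M) : inc k n (D.f j) / inc k n (D.f b) ∈ P0 D σ τ :=
  Algebra.subset_adjoin (Or.inr ⟨b, hb, j, rfl⟩)

theorem eta_mem (D : Dat k n) (σ : Finset (Fin D.p)) (τ τ' : Finset (Fin D.M)) (b : Fin D.M)
    (hb : b ∈ τ) : eta D τ' b ∈ P0 D σ τ :=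
  prod_mem (fun j _ => quo_mem D σ τ b hb j)

theorem eta_inv_mem (D : Dat k n) (σ : Finset (Fin D.p)) (τ' : Finset (Fin D.M)) (b : Fin D.M) :
    (eta D τ' b)⁻¹ ∈ P0 D σ τ' := by
  unfold eta
  rw [← Finset.prod_inv_distrib]
  refine prod_mem (fun j hj => ?_)
  rw [inv_div]
  exact quo_mem D σ τ' j hj b

theorem eta_ne (D : Dat k n) (hD : D.Good) (τ' : Finset (Fin D.M)) (b : Fin D.M) :
    eta D τ' b ≠ 0 :=
  Finset.prod_ne_zero_iff.2 (fun j _ => div_ne_zero (inc_ne (hD.f_ne j)) (inc_ne (hD.f_ne b)))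

theorem loc_le (D : Dat k n) (hD : D.Good) (σ : Finset (Fin D.p)) (τ τ' : Finset (Fin D.M))
    (b : Fin D.M) (hb : b ∈ τ) (A : Subalgebra k (Fr k n))
    (hm : eta D τ' b ∈ P0 D σ τ ⊔ A) :
    P0 D σ τ' ⊔ A ≤ locSub (P0 D σ τ ⊔ A) (eta D τ' b) hm := by
  apply sup_le
  · apply Algebra.adjoin_le
    rintro z (⟨a, ha, i, rfl⟩ | ⟨b', hb', j, rfl⟩)
    · exact le_locSub _ _ _ (le_sup_left (a := P0 D σ τ) (b := A)
        (Algebra.subset_adjoin (Or.inl ⟨a, ha, i, rfl⟩)))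
    · refine ⟨1, ?_⟩
      rw [pow_one]
      have h1 : inc k n (D.f b') ≠ 0 := inc_ne (hD.f_ne b')
      have h2 : inc k n (D.f b) ≠ 0 := inc_ne (hD.f_ne b)
      have h3 : eta D τ' b * (inc k n (D.f j) / inc k n (D.f b')) =
          (∏ c ∈ τ'.erase b', inc k n (D.f c) / inc k n (D.f b)) *
            (inc k n (D.f j) / inc k n (D.f b)) := by
        unfold eta
        rw [← Finset.mul_prod_erase τ' _ hb']
        field_simp
      rw [h3]
      exact le_sup_left (a := P0 D σ τ) (b := A)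
        (mul_mem (prod_mem (fun c _ => quo_mem D σ τ b hb c)) (quo_mem D σ τ b hb j))
  · exact le_sup_right.trans (le_locSub _ _ _)

theorem mon_mem {D : Dat k n} {m : ℕ} (C : Cov D m) {l : Pol k n} {ε : ℕ} (hC : C.Good l ε)
    (c : Fin m → Fin (n - 1) → ℕ) (v : Fin m) : C.mon c v ∈ C.A v :=
  prod_mem (fun i _ => pow_mem (hC.t_mem v i) _)

theorem mon_ne {D : Dat k n} {m : ℕ} (C : Cov D m) {l : Pol k n} {ε : ℕ} (hC : C.Good l ε)
    (c : Fin m → Fin (n - 1) → ℕ) (v : Fin m) : C.mon c v ≠ 0 :=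
  Finset.prod_ne_zero_iff.2 (fun i _ => pow_ne_zero _ (hC.t_ne v i))

theorem mem_GM {D : Dat k n} {m : ℕ} (C : Cov D m) (c : Fin m → Fin (n - 1) → ℕ)
    (σ : Finset (Fin D.p)) (τ : Finset (Fin D.M)) (z : Fr k n) :
    z ∈ GM C c σ τ ↔ ∀ v, z / C.mon c v ∈ P0 D σ τ ⊔ C.A v := by
  constructor
  · intro h v
    have h1 := h v
    rwa [Rg_single] at h1
  · intro h v
    rw [Rg_single]
    exact h v

end CM_

open CM_ in
theorem cm_proof (hPP : Stmt_PP.{u}) (hLT : Stmt_LT.{u}) (hPU : Stmt_PU.{u}) : Stmt_CM.{u} := by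
  intro k _ n D l ε m C N h hD hC hE N0 σ a ha
  obtain ⟨hP, hN⟩ := hPP k n D hD σ a ha
  constructor
  · -- smul
    intro τ hτ r hr x hx
    have hr' : r ∈ P0 D σ τ := (hP τ hτ r).1 hr
    rw [mem_GM] at hx ⊢
    intro v
    rw [smul_eq_mul, mul_div_assoc]
    exact mul_mem (le_sup_left (a := P0 D σ τ) (b := C.A v) hr') (hx v)
  · -- mono
    intro τ τ' _ hs x hx
    rw [mem_GM] at hx ⊢
    intro v
    exact sup_le_sup_right (P0_mono D σ hs) (C.A v) (hx v)
  · -- loc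
    intro τ τ' hτ hs x hx
    obtain ⟨b, hb⟩ := hτ
    have hτ' : τ'.Nonempty := ⟨b, hs hb⟩
    rw [mem_GM] at hx
    have h1 : ∀ v, ∃ e : ℕ, eta D τ' b ^ e * (x / C.mon (N0 • C.ce) v) ∈ P0 D σ τ ⊔ C.A v := by
      intro v
      have hm : eta D τ' b ∈ P0 D σ τ ⊔ C.A v :=
        le_sup_left (a := P0 D σ τ) (b := C.A v) (eta_mem D σ τ τ' b hb)
      exact loc_le D hD σ τ τ' b hb (C.A v) hm (hx v)
    choose e he using h1
    have h2 : eta D τ' b ^ (∑ v, e v) * x ∈ GM C (N0 • C.ce) σ τ := by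
      rw [mem_GM]
      intro v
      have h3 : ∑ w, e w = e v + ∑ w ∈ Finset.univ.erase v, e w :=
        (Finset.add_sum_erase _ _ (Finset.mem_univ v)).symm
      rw [h3, mul_div_assoc, add_comm, pow_add, mul_assoc]
      exact mul_mem (pow_mem (le_sup_left (a := P0 D σ τ) (b := C.A v)
        (eta_mem D σ τ τ' b hb)) _) (he v)
    have h4 : (eta D τ' b)⁻¹ ^ (∑ v, e v) ∈ Prg (P0 D σ ∅) (hu D hD a) τ' :=
      (hP τ' hτ' _).2 (pow_mem (eta_inv_mem D σ τ' b) _)
    have h5 : x = (⟨_, h4⟩ : Prg (P0 D σ ∅) (hu D hD a) τ') •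
        (eta D τ' b ^ (∑ v, e v) * x) := by
      show x = (eta D τ' b)⁻¹ ^ (∑ v, e v) * (eta D τ' b ^ (∑ v, e v) * x)
      rw [← mul_assoc, ← mul_pow, inv_mul_cancel₀ (eta_ne D hD τ' b), one_pow, one_mul]
    rw [h5]
    exact Submodule.smul_mem _ _ (Submodule.subset_span h2)
  · -- fg
    intro b
    have hbb : b ∈ ({b} : Finset (Fin D.M)) := Finset.mem_singleton_self b
    have hch : D.ch a b ≤ P0 D σ {b} := ch_le D σ {b} a b ha hbb
    have hsub : ∀ z ∈ GM C (N0 • C.ce) σ {b}, z ∈ P0 D σ {b} := by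
      intro z hz
      rw [mem_GM] at hz
      refine hPU k n D m C N h hD hE a b (P0 D σ {b}) hch
        (P0 D σ {b}).toSubring.toAddSubgroup (fun r hr x hx => ?_) z (fun v => ?_)
      · exact (P0 D σ {b}).mul_mem hr hx
      · have h1 : z ∈ P0 D σ {b} ⊔ C.A v := by
          have h2 : z = (z / C.mon (N0 • C.ce) v) * C.mon (N0 • C.ce) v :=
            (div_mul_cancel₀ z (mon_ne C hC _ v)).symm
          rw [h2]
          exact mul_mem (hz v) (le_sup_right (a := P0 D σ {b}) (b := C.A v) (mon_mem C hC _ v))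
        exact hLT k n D m C N h hD hE a b v (P0 D σ {b}) hch z h1
    let J : Ideal (P0 D σ {b}) :=
      { carrier := {r | (r : Fr k n) ∈ GM C (N0 • C.ce) σ {b}}
        zero_mem' := (GM C (N0 • C.ce) σ {b}).zero_mem
        add_mem' := fun hx hy => (GM C (N0 • C.ce) σ {b}).add_mem hx hy
        smul_mem' := by
          intro c x hx
          have hx' : (x : Fr k n) ∈ GM C (N0 • C.ce) σ {b} := hx
          show ((c : Fr k n) * (x : Fr k n)) ∈ GM C (N0 • C.ce) σ {b}
          rw [mem_GM] at hx' ⊢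
          intro v
          rw [mul_div_assoc]
          exact mul_mem (le_sup_left (a := P0 D σ {b}) (b := C.A v) c.2) (hx' v) }
    have := hN {b}
    obtain ⟨S, hS⟩ := IsNoetherian.noetherian J
    classical
    refine ⟨S.image (fun r : P0 D σ {b} => (r : Fr k n)), ?_, ?_⟩
    · intro z hz
      rw [Finset.coe_image] at hz
      obtain ⟨r, hr, rfl⟩ := hz
      have h1 : r ∈ J := by
        rw [← hS]
        exact Submodule.subset_span hr
      exact h1
    · intro x hx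
      have hx1 : (⟨x, hsub x hx⟩ : P0 D σ {b}) ∈ J := hx
      rw [← hS] at hx1
      have key : ∀ y : P0 D σ {b}, y ∈ Submodule.span (P0 D σ {b}) (S : Set (P0 D σ {b})) →
          (y : Fr k n) ∈ Submodule.span (Prg (P0 D σ ∅) (hu D hD a) {b})
            ((S.image (fun r : P0 D σ {b} => (r : Fr k n)) : Finset (Fr k n)) :
              Set (Fr k n)) := by
        intro y hy
        induction hy using Submodule.span_induction with
        | mem y hy =>
          apply Submodule.subset_span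
          rw [Finset.coe_image]
          exact ⟨y, hy, rfl⟩
        | zero => exact zero_mem _
        | add y z _ _ h1 h2 => exact add_mem h1 h2
        | smul c y _ h1 =>
          have h2 : (c : Fr k n) ∈ Prg (P0 D σ ∅) (hu D hD a) {b} :=
            (hP {b} ⟨b, hbb⟩ _).2 c.2
          exact Submodule.smul_mem _ (⟨_, h2⟩ : Prg (P0 D σ ∅) (hu D hD a) {b}) h1
      exact key _ hx1

end

end Pool.Agent.DBX.SUR
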