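import Pool.Agent.DBX.SUR.Stmts
import Pool.Agent.DBX.Lib.Tot

set_option autoImplicit false

namespace Pool.Agent.DBX.SUR

universe u

namespace CMP_

variable {P T V : Type} [LinearOrder P] [LinearOrder T] [LinearOrder V] {𝔸 : Type u}
  [AddCommGroup 𝔸]

/-- `H` if `c` is false, `0` if `c` is true -/
def res (c : Prop) (H : AddSubgroup 𝔸) : AddSubgroup 𝔸 where
  carrier := {x | x ∈ H ∧ (c → x = 0)}
  zero_mem' := ⟨H.zero_mem, fun _ => rfl⟩
  add_mem' := by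
    rintro x y ⟨hx, hx'⟩ ⟨hy, hy'⟩
    exact ⟨H.add_mem hx hy, fun h => by rw [hx' h, hy' h, add_zero]⟩
  neg_mem' := by
    rintro x ⟨hx, hx'⟩
    exact ⟨H.neg_mem hx, fun h => by rw [hx' h, neg_zero]⟩

theorem mem_res {c : Prop} {H : AddSubgroup 𝔸} {x : 𝔸} :
    x ∈ res c H ↔ x ∈ H ∧ (c → x = 0) := Iff.rfl

theorem res_mono {c c' : Prop} {H H' : AddSubgroup 𝔸} (h : c' → c) (h' : H ≤ H') :
    res c H ≤ res c' H' := fun _ hx => ⟨h' hx.1, fun hc => hx.2 (h hc)⟩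

theorem augEx_res {c : Prop} {A : Finset V → AddSubgroup 𝔸} (h : ¬ c → AugEx A) :
    AugEx (fun ω => res c (A ω)) := by
  intro x hx hc
  by_cases hc' : c
  · refine ⟨0, fun ω => (res c (A ω)).zero_mem, fun ω => ?_⟩
    rw [cd_zero, (hx ω).2 hc']
    rfl
  · obtain ⟨y, hy, hy'⟩ := h hc' x (fun ω => (hx ω).1) hc
    exact ⟨y, fun ω => ⟨hy ω, fun h => absurd h hc'⟩, hy'⟩

theorem augEx_iff {A : Finset V → AddSubgroup 𝔸} (h : AugEx A) {x : Finset V → 𝔸}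
    (hx : ∀ ω, x ω ∈ A ω) (hc : cd x = 0) : ∃ y : Finset V → 𝔸, (∀ ω, y ω ∈ A ω) ∧ cd y = x := by
  obtain ⟨y, hy, hy'⟩ := h x hx (fun ω => congrFun hc ω)
  exact ⟨y, hy, funext hy'⟩

/-! ### the triple complex -/

/-- the differential of the triple complex -/
def D3 (P T V : Type) [LinearOrder P] [LinearOrder T] [LinearOrder V] (𝔸 : Type u)
    [AddCommGroup 𝔸] :
    (Finset V → Finset P → Finset T → 𝔸) →+ (Finset V → Finset P → Finset T → 𝔸) :=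
  tdHom V (ddHom P T 𝔸)

theorem D3_D3 (X : Finset V → Finset P → Finset T → 𝔸) : D3 P T V 𝔸 (D3 P T V 𝔸 X) = 0 :=
  td_td (ddHom P T 𝔸) (fun n => dd_dd n) X

theorem D3_apply (X : Finset V → Finset P → Finset T → 𝔸) (ω : Finset V) (σ : Finset P)
    (τ : Finset T) : D3 P T V 𝔸 X ω σ τ =
      cd (fun w => X w σ τ) ω + ((-1 : ℤ) ^ ω.card) • dd (X ω) σ τ := by
  have h1 : cd X ω σ τ = cd (fun w => X w σ τ) ω := by
    rw [cd_fun', cd_fun']
  rw [← h1]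
  rfl

theorem D3_empty (X : Finset V → Finset P → Finset T → 𝔸) (σ : Finset P)
    (τ : Finset T) : D3 P T V 𝔸 X ∅ σ τ = dd (X ∅) σ τ := by
  rw [D3_apply, cd_empty, zero_add, Finset.card_empty, pow_zero, one_smul]

theorem D3_last (X : Finset V → Finset P → Finset T → 𝔸) (ω : Finset V)
    (σ : Finset P) : D3 P T V 𝔸 X ω σ ∅ = dd (fun w s => X w s ∅) ω σ := by
  rw [D3_apply]
  unfold dd
  rw [cd_empty, smul_zero, add_zero]

theorem D3_mem {S : Finset V → Finset P → Finset T → AddSubgroup 𝔸}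
    (hS : ∀ ω ω' σ σ' τ τ', ω ⊆ ω' → σ ⊆ σ' → τ ⊆ τ' → S ω σ τ ≤ S ω' σ' τ')
    {X : Finset V → Finset P → Finset T → 𝔸} (hX : ∀ ω σ τ, X ω σ τ ∈ S ω σ τ) (ω : Finset V)
    (σ : Finset P) (τ : Finset T) : D3 P T V 𝔸 X ω σ τ ∈ S ω σ τ := by
  rw [D3_apply]
  refine (S ω σ τ).add_mem ?_ ((S ω σ τ).zsmul_mem ?_ _)
  · exact cd_mem (A := fun w => S w σ τ)
      (fun w v _ => hS _ _ _ _ _ _ (Finset.erase_subset _ _) (Finset.Subset.refl _)
        (Finset.Subset.refl _)) (fun w => hX w σ τ) ω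
  · exact dd_mem (G := fun s t => S ω s t)
      (fun s t v _ => hS _ _ _ _ _ _ (Finset.Subset.refl _) (Finset.erase_subset _ _)
        (Finset.Subset.refl _))
      (fun s t v _ => hS _ _ _ _ _ _ (Finset.Subset.refl _) (Finset.Subset.refl _)
        (Finset.erase_subset _ _)) (fun s t => hX ω s t) σ τ

/-- exactness in the direction `T` -/
theorem KT [Finite V] [Finite P] {S : Finset V → Finset P → Finset T → AddSubgroup 𝔸}
    (hS : ∀ ω ω' σ σ' τ τ', ω ⊆ ω' → σ ⊆ σ' → τ ⊆ τ' → S ω σ τ ≤ S ω' σ' τ')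
    (hex : ∀ ω σ, AugEx (fun τ => S ω σ τ))
    {X : Finset V → Finset P → Finset T → 𝔸} (hX : ∀ ω σ τ, X ω σ τ ∈ S ω σ τ)
    (h0 : D3 P T V 𝔸 X = 0) :
    ∃ Y : Finset V → Finset P → Finset T → 𝔸, (∀ ω σ τ, Y ω σ τ ∈ S ω σ τ) ∧
      D3 P T V 𝔸 Y = X := by
  let B : Finset V → AddSubgroup (Finset P → Finset T → 𝔸) := fun ω =>
    { carrier := {x | ∀ σ τ, x σ τ ∈ S ω σ τ}
      zero_mem' := fun σ τ => (S ω σ τ).zero_mem
      add_mem' := fun hx hy σ τ => (S ω σ τ).add_mem (hx σ τ) (hy σ τ)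
      neg_mem' := fun hx σ τ => (S ω σ τ).neg_mem (hx σ τ) }
  have hS1 : ∀ ω σ τ, ∀ v ∈ σ, S ω (σ.erase v) τ ≤ S ω σ τ := fun ω σ τ v _ =>
    hS _ _ _ _ _ _ (Finset.Subset.refl _) (Finset.erase_subset _ _) (Finset.Subset.refl _)
  have hS2 : ∀ ω σ τ, ∀ v ∈ τ, S ω σ (τ.erase v) ≤ S ω σ τ := fun ω σ τ v _ =>
    hS _ _ _ _ _ _ (Finset.Subset.refl _) (Finset.Subset.refl _) (Finset.erase_subset _ _)
  obtain ⟨Y, hY, hY'⟩ := td_exact_col (ddHom P T 𝔸) (fun n => dd_dd n) (B := B)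
    (fun ω v _ x hx σ τ => hS _ _ _ _ _ _ (Finset.erase_subset _ _) (Finset.Subset.refl _)
        (Finset.Subset.refl _) (hx σ τ))
    (fun ω n hn σ τ => dd_mem (G := fun s t => S ω s t) (hS1 ω) (hS2 ω) hn σ τ)
    (fun ω n hn h => by
      obtain ⟨m, hm, hm'⟩ := dd_exact_col (G := fun s t => S ω s t) (hS1 ω) (hS2 ω)
        (fun σ x hx hc => augEx_iff (hex ω σ) hx hc) (z := n) hn h
      exact ⟨m, hm, hm'⟩)
    (x := X) (fun ω => hX ω) h0
  exact ⟨Y, fun ω σ τ => hY ω σ τ, hY'⟩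

/-- exactness in the direction `V` -/
theorem KV [Fintype P] [Fintype T] {S : Finset V → Finset P → Finset T → AddSubgroup 𝔸}
    (hS : ∀ ω ω' σ σ' τ τ', ω ⊆ ω' → σ ⊆ σ' → τ ⊆ τ' → S ω σ τ ≤ S ω' σ' τ')
    (hex : ∀ σ τ, AugEx (fun ω => S ω σ τ))
    {X : Finset V → Finset P → Finset T → 𝔸} (hX : ∀ ω σ τ, X ω σ τ ∈ S ω σ τ)
    (h0 : D3 P T V 𝔸 X = 0) :
    ∃ Y : Finset V → Finset P → Finset T → 𝔸, (∀ ω σ τ, Y ω σ τ ∈ S ω σ τ) ∧
      D3 P T V 𝔸 Y = X := by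
  let D : (Finset P × Finset T → Finset V → 𝔸) →+ (Finset P × Finset T → Finset V → 𝔸) :=
    { toFun := fun x q ω => D3 P T V 𝔸 (fun w s t => x (s, t) w) ω q.1 q.2
      map_zero' := by
        funext q ω
        change D3 P T V 𝔸 0 ω q.1 q.2 = 0
        rw [map_zero]
        rfl
      map_add' := fun x y => by
        funext q ω
        change D3 P T V 𝔸 ((fun w s t => x (s, t) w) + (fun w s t => y (s, t) w)) ω q.1 q.2 = _
        rw [map_add]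
        rfl }
  let K : Finset P × Finset T → AddSubgroup (Finset V → 𝔸) := fun q =>
    { carrier := {x | ∀ ω, x ω ∈ S ω q.1 q.2}
      zero_mem' := fun ω => (S ω q.1 q.2).zero_mem
      add_mem' := fun hx hy ω => (S ω q.1 q.2).add_mem (hx ω) (hy ω)
      neg_mem' := fun hx ω => (S ω q.1 q.2).neg_mem (hx ω) }
  obtain ⟨y, hy, hy'⟩ := lead_exact (fun q : Finset P × Finset T => q.1.card + q.2.card)
    (Fintype.card P + Fintype.card T + 1)
    (fun q => by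
      have h1 := Finset.card_le_univ q.1
      have h2 := Finset.card_le_univ q.2
      omega) K D (fun _ n => cd n)
    (by
      intro x q hx
      funext ω
      change D3 P T V 𝔸 (fun w s t => x (s, t) w) ω q.1 q.2 = cd (x q) ω
      rw [D3_apply]
      have h1 : dd (fun s t => x (s, t) ω) q.1 q.2 = 0 := by
        unfold dd
        have h2 : cd (fun s => x (s, q.2) ω) q.1 = 0 := by
          rw [cd_sgn]
          refine Finset.sum_eq_zero (fun v hv => ?_)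
          rw [hx (q.1.erase v, q.2) (by
            have := Finset.card_erase_lt_of_mem hv
            change (q.1.erase v).card + q.2.card < q.1.card + q.2.card
            omega)]
          simp
        have h3 : cd (fun t => x (q.1, t) ω) q.2 = 0 := by
          rw [cd_sgn]
          refine Finset.sum_eq_zero (fun v hv => ?_)
          rw [hx (q.1, q.2.erase v) (by
            have := Finset.card_erase_lt_of_mem hv
            change q.1.card + (q.2.erase v).card < q.1.card + q.2.card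
            omega)]
          simp
        rw [h2, h3, smul_zero, add_zero]
      rw [h1, smul_zero, add_zero])
    (fun x hx q ω => D3_mem hS (fun w s t => hx (s, t) w) ω q.1 q.2)
    (fun x => by
      funext q ω
      exact congrFun (congrFun (congrFun (D3_D3 (fun w s t => x (s, t) w)) ω) q.1) q.2)
    (fun q n hn h => by
      obtain ⟨m, hm, hm'⟩ := augEx_iff (hex q.1 q.2) hn h
      exact ⟨m, hm, hm'⟩)
    (fun q ω => X ω q.1 q.2) (fun q ω => hX ω q.1 q.2)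
    (by
      funext q ω
      exact congrFun (congrFun (congrFun h0 ω) q.1) q.2)
  refine ⟨fun ω σ τ => y (σ, τ) ω, fun ω σ τ => hy (σ, τ) ω, ?_⟩
  funext ω σ τ
  exact congrFun (congrFun hy' (σ, τ)) ω

/-! ### cochains placed at an empty set -/

/-- `m ↦ atE m σ` -/
def atEHom (σ : Finset V) : 𝔸 →+ 𝔸 where
  toFun m := atE m σ
  map_zero' := by unfold atE; split_ifs <;> rfl
  map_add' x y := by
    unfold atE
    split_ifs
    · rfl
    · rw [add_zero]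

theorem cd_atE_fun {W : Type} [LinearOrder W] (y : Finset W → 𝔸) (ω : Finset W) (σ : Finset V) :
    cd (fun w => atE (y w) σ) ω = atE (cd y ω) σ :=
  congrFun (cd_map (atEHom σ) y) ω

theorem atE_empty (m : 𝔸) : atE (V := V) m ∅ = m := if_pos rfl

theorem atE_ne (m : 𝔸) {σ : Finset V} (h : σ ≠ ∅) : atE (V := V) m σ = 0 := if_neg h

theorem at1_empty (m : 𝔸) : at1 (V := V) m ∅ = 0 := if_neg (by simp)

theorem atE_zero (σ : Finset V) : atE (V := V) (0 : 𝔸) σ = 0 := by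
  unfold atE; split_ifs <;> rfl

theorem at1_zero (σ : Finset V) : at1 (V := V) (0 : 𝔸) σ = 0 := by
  unfold at1; split_ifs <;> rfl

theorem atE_mem {H : AddSubgroup 𝔸} {m : 𝔸} {σ : Finset V} (h : σ = ∅ → m ∈ H) :
    atE (V := V) m σ ∈ H := by
  unfold atE
  split_ifs with h'
  · exact h h'
  · exact H.zero_mem

theorem at1_mem {H : AddSubgroup 𝔸} {m : 𝔸} {σ : Finset V} (h : m ∈ H) :
    at1 (V := V) m σ ∈ H := by
  unfold at1
  split_ifs
  · exact h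
  · exact H.zero_mem

theorem dd_at (y : Finset V → 𝔸) (ω : Finset V) (σ : Finset P) :
    dd (fun w s => atE (y w) s) ω σ =
      atE (cd y ω) σ + ((-1 : ℤ) ^ ω.card) • at1 (y ω) σ := by
  unfold dd
  rw [cd_atE_fun]
  have h : cd (fun s : Finset P => atE (y ω) s) = at1 (y ω) := cd_atE (y ω)
  rw [h]

theorem D3_at (y : Finset V → Finset P → 𝔸) (ω : Finset V) (σ : Finset P) (τ : Finset T) :
    D3 P T V 𝔸 (fun w s t => atE (y w s) t) ω σ τ =
      atE (dd y ω σ) τ + ((-1 : ℤ) ^ ω.card * (-1 : ℤ) ^ σ.card) • at1 (y ω σ) τ := by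
  rw [D3_apply]
  have h1 : cd (fun w => atE (y w σ) τ) ω = atE (cd (fun w => y w σ) ω) τ := cd_atE_fun _ _ _
  have h2 : dd (fun s t => atE (y ω s) t) σ τ =
      atE (cd (y ω) σ) τ + ((-1 : ℤ) ^ σ.card) • at1 (y ω σ) τ := dd_at (y ω) σ τ
  rw [h1, h2, smul_add, smul_smul, ← add_assoc]
  congr 1
  unfold dd
  have h3 := (atEHom (𝔸 := 𝔸) τ).map_add (cd (fun w => y w σ) ω)
    (((-1 : ℤ) ^ ω.card) • cd (y ω) σ)
  have h4 := map_zsmul (atEHom (𝔸 := 𝔸) τ) ((-1 : ℤ) ^ ω.card) (cd (y ω) σ)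
  change atE _ τ = atE _ τ + atE _ τ at h3
  change atE _ τ = _ • atE _ τ at h4
  rw [h3, h4]

end CMP_

open CMP_ in
theorem cmp_proof : Stmt_CMP.{u} := by
  intro P T V _ _ _ _ _ _ 𝔸 _ G G' hG'G hG hG' hW1 hW1' hW2 hW3 hINJ z hz hdz
  obtain ⟨hz1, hz2, hz3⟩ := hz
  have hdz' : dd z = 0 := by
    funext σ τ
    exact hdz σ τ
  have hzG : ∀ σ τ, z σ τ ∈ G σ τ ∅ := by
    intro σ τ
    rcases σ.eq_empty_or_nonempty with h | h
    · rw [h, hz1]
      exact zero_mem _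
    · rcases τ.eq_empty_or_nonempty with h' | h'
      · rw [h', hz2]
        exact zero_mem _
      · exact hz3 σ τ h h'
  have hsub : ∀ {W : Type} (s : Finset W), s ⊆ s := fun s => Finset.Subset.refl s
  -- (a)
  have hD1 : D3 P T V 𝔸 (atE z) = at1 z := by
    have h1 : D3 P T V 𝔸 (atE z) = cd (atE z) + fun s : Finset V =>
      ((-1 : ℤ) ^ s.card) • dd (atE z s) := rfl
    rw [h1, cd_atE]
    have h2 : (fun s : Finset V => ((-1 : ℤ) ^ s.card) • dd (atE z s)) = 0 := by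
      funext s
      have h3 : dd (atE z s) = 0 := by
        unfold atE
        split_ifs
        · exact hdz'
        · exact dd_zero
      rw [h3, smul_zero]
      rfl
    rw [h2, add_zero]
  obtain ⟨u, hu, hDu⟩ := KT (P := P) (T := T) (V := V)
    (S := fun ω σ τ => res (ω = ∅ ∨ σ = ∅) (G σ τ ω))
    (fun ω ω' σ σ' τ τ' h1 h2 h3 => res_mono (by
      rintro (h | h)
      · left
        rw [h] at h1
        exact Finset.subset_empty.1 h1
      · right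
        rw [h] at h2
        exact Finset.subset_empty.1 h2) (hG _ _ _ _ _ _ h2 h3 h1))
    (fun ω σ => augEx_res (fun h => by
      rw [not_or] at h
      exact hW2 σ ω (Finset.nonempty_iff_ne_empty.2 h.2) (Finset.nonempty_iff_ne_empty.2 h.1)))
    (X := at1 z)
    (by
      intro ω σ τ
      unfold at1
      split_ifs with h
      · refine ⟨hG _ _ _ _ _ _ (hsub σ) (hsub τ) (Finset.empty_subset ω) (hzG σ τ), ?_⟩
        rintro (h' | h')
        · rw [h'] at h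
          simp at h
        · rw [h', hz1]
      · exact zero_mem _)
    (by rw [← hD1, D3_D3])
  set Z : Finset V → Finset P → Finset T → 𝔸 := atE z - u with hZ
  have hDZ : D3 P T V 𝔸 Z = 0 := by rw [hZ, map_sub, hD1, hDu, sub_self]
  have hatz : ∀ ω σ τ, (atE z : Finset V → Finset P → Finset T → 𝔸) ω σ τ = atE (z σ τ) ω := by
    intro ω σ τ
    unfold atE
    split_ifs <;> rfl
  set c : Finset V → Finset P → 𝔸 := fun ω σ => Z ω σ ∅ with hc
  have hc1 : ∀ ω σ, c ω σ = - u ω σ ∅ := by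
    intro ω σ
    change (atE z : Finset V → Finset P → Finset T → 𝔸) ω σ ∅ - u ω σ ∅ = _
    rw [hatz, hz2, atE_zero, zero_sub]
  have hdc : dd c = 0 := by
    funext ω σ
    have h1 := D3_last Z ω σ
    rw [hDZ] at h1
    exact h1.symm
  have hcS : ∀ ω σ, c ω σ ∈ res (ω = ∅ ∨ σ = ∅) (G σ ∅ ω) := by
    intro ω σ
    rw [hc1]
    exact neg_mem (hu ω σ ∅)
  -- (b)
  have hG3a : ∀ (ω : Finset V) (σ : Finset P), ∀ v ∈ ω,
      res (ω.erase v = ∅) (G σ ∅ (ω.erase v)) ≤ res (ω = ∅) (G σ ∅ ω) := by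
    intro ω σ v hv
    refine res_mono (fun h => ?_) (hG _ _ _ _ _ _ (hsub _) (hsub _) (Finset.erase_subset _ _))
    rw [h]
    rfl
  have hG3b : ∀ (ω : Finset V) (σ : Finset P), ∀ v ∈ σ,
      res (ω = ∅) (G (σ.erase v) ∅ ω) ≤ res (ω = ∅) (G σ ∅ ω) := by
    intro ω σ v hv
    exact res_mono (fun h => h) (hG _ _ _ _ _ _ (Finset.erase_subset _ _) (hsub _) (hsub _))
  obtain ⟨u3, hu3, hdu3⟩ := dd_exact_col (V := V) (U := P)
    (G := fun ω σ => res (ω = ∅) (G σ ∅ ω)) hG3a hG3b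
    (fun ω x hx hcd => augEx_iff (augEx_res (fun h =>
      hW3 ω (Finset.nonempty_iff_ne_empty.2 h))) hx hcd)
    (z := c) (fun ω σ => ⟨(hcS ω σ).1, fun h => (hcS ω σ).2 (Or.inl h)⟩) hdc
  have hcdzh : ∀ ω, cd (fun w => u3 w ∅) ω = 0 := by
    intro ω
    have h1 : dd u3 ω ∅ = c ω ∅ := by rw [hdu3]
    rw [(hcS ω ∅).2 (Or.inr rfl)] at h1
    unfold dd at h1
    rw [cd_empty, smul_zero, add_zero] at h1
    exact h1
  obtain ⟨zh', yh, hzh', hcdzh', hyh, hzhe⟩ := hINJ (fun ω => u3 ω ∅)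
    ⟨(hu3 ∅ ∅).2 rfl, fun ω _ => (hu3 ω ∅).1⟩ hcdzh
  have hzhG' : ∀ ω, zh' ω ∈ G' ∅ ∅ ω := by
    intro ω
    rcases ω.eq_empty_or_nonempty with h | h
    · rw [h, hzh'.1]
      exact zero_mem _
    · exact hzh'.2 ω h
  have hyhG : ∀ ω, yh ω ∈ G ∅ ∅ ω := by
    intro ω
    rcases ω.eq_empty_or_nonempty with h | h
    · rw [h, hyh.1]
      exact zero_mem _
    · exact hyh.2 ω h
  set ez : Finset V → Finset P → 𝔸 := fun w s => atE (zh' w) s with hez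
  set ey : Finset V → Finset P → 𝔸 := fun w s => atE (yh w) s with hey
  set c' : Finset V → Finset P → 𝔸 := dd ez with hc'
  have hc'1 : ∀ ω σ, c' ω σ = ((-1 : ℤ) ^ ω.card) • at1 (zh' ω) σ := by
    intro ω σ
    rw [hc', hez, dd_at, hcdzh' ω, atE_zero, zero_add]
  have hc'S : ∀ ω σ, c' ω σ ∈ res (ω = ∅ ∨ σ = ∅) (G' σ ∅ ω) := by
    intro ω σ
    rw [hc'1]
    apply zsmul_mem
    refine ⟨at1_mem (hG' _ _ _ _ _ _ (Finset.empty_subset σ) (hsub _) (hsub _) (hzhG' ω)), ?_⟩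
    rintro (h | h)
    · rw [h, hzh'.1, at1_zero]
    · rw [h, at1_empty]
  have hdc' : dd c' = 0 := by rw [hc', dd_dd]
  have hez3 : ∀ ω σ, ez ω σ ∈ res (ω = ∅) (G σ ∅ ω) := by
    intro ω σ
    have h1 : ez ω σ ∈ G σ ∅ ω := by
      change atE (zh' ω) σ ∈ G σ ∅ ω
      apply atE_mem
      intro h
      rw [h]
      exact hG'G _ _ _ (hzhG' ω)
    refine ⟨h1, fun h => ?_⟩
    change atE (zh' ω) σ = 0
    rw [h, hzh'.1, atE_zero]
  have hey3 : ∀ ω σ, ey ω σ ∈ res (ω = ∅) (G σ ∅ ω) := by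
    intro ω σ
    have h1 : ey ω σ ∈ G σ ∅ ω := by
      change atE (yh ω) σ ∈ G σ ∅ ω
      apply atE_mem
      intro h
      rw [h]
      exact hyhG ω
    refine ⟨h1, fun h => ?_⟩
    change atE (yh ω) σ = 0
    rw [h, hyh.1, atE_zero]
  have hdey3 : ∀ ω σ, dd ey ω σ ∈ res (ω = ∅) (G σ ∅ ω) := fun ω σ =>
    dd_mem (G := fun ω σ => res (ω = ∅) (G σ ∅ ω)) hG3a hG3b hey3 ω σ
  set y2 : Finset V → Finset P → 𝔸 := u3 - ez - dd ey with hy2
  have hy2S : ∀ ω σ, y2 ω σ ∈ res (ω = ∅) (G σ ∅ ω) := fun ω σ =>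
    sub_mem (sub_mem (hu3 ω σ) (hez3 ω σ)) (hdey3 ω σ)
  have hdy2 : dd y2 = c - c' := by
    rw [hy2, dd_sub, dd_sub, dd_dd, sub_zero, hdu3]
  have hy20 : ∀ ω, y2 ω ∅ = 0 := by
    intro ω
    change u3 ω ∅ - atE (zh' ω) ∅ - dd ey ω ∅ = 0
    rw [hey, dd_at, atE_empty, atE_empty, at1_empty, smul_zero, add_zero]
    have h1 := hzhe ω
    change u3 ω ∅ = zh' ω + cd yh ω at h1
    rw [h1]
    abel
  -- (c)
  set c2 : Finset V → Finset P → Finset T → 𝔸 := fun w s t => atE (c' w s) t with hc2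
  have hDc2 : ∀ ω σ τ, D3 P T V 𝔸 c2 ω σ τ =
      ((-1 : ℤ) ^ ω.card * (-1 : ℤ) ^ σ.card) • at1 (c' ω σ) τ := by
    intro ω σ τ
    rw [hc2, D3_at, hdc']
    change atE (0 : 𝔸) τ + _ = _
    rw [atE_zero, zero_add]
  have hbad : ∀ {σ σ' : Finset P} {τ τ' : Finset T}, σ ⊆ σ' → τ ⊆ τ' →
      (σ' = ∅ ∨ τ' = ∅) → (σ = ∅ ∨ τ = ∅) := by
    intro σ σ' τ τ' h1 h2 h
    rcases h with h | h
    · left
      rw [h] at h1
      exact Finset.subset_empty.1 h1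
    · right
      rw [h] at h2
      exact Finset.subset_empty.1 h2
  obtain ⟨u', hu', hDu'⟩ := KV (P := P) (T := T) (V := V)
    (S := fun ω σ τ => res (σ = ∅ ∨ τ = ∅) (G' σ τ ω))
    (fun ω ω' σ σ' τ τ' h1 h2 h3 => res_mono (hbad h2 h3) (hG' _ _ _ _ _ _ h2 h3 h1))
    (fun σ τ => augEx_res (fun h => by
      rw [not_or] at h
      exact hW1' σ τ (Finset.nonempty_iff_ne_empty.2 h.1) (Finset.nonempty_iff_ne_empty.2 h.2)))
    (X := D3 P T V 𝔸 c2)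
    (by
      intro ω σ τ
      rw [hDc2]
      apply zsmul_mem
      refine ⟨at1_mem (hG' _ _ _ _ _ _ (hsub σ) (Finset.empty_subset τ) (hsub ω)
        (hc'S ω σ).1), ?_⟩
      rintro (h | h)
      · rw [(hc'S ω σ).2 (Or.inr h), at1_zero]
      · rw [h, at1_empty])
    (D3_D3 c2)
  set Z' : Finset V → Finset P → Finset T → 𝔸 := c2 - u' with hZ'
  have hDZ' : D3 P T V 𝔸 Z' = 0 := by rw [hZ', map_sub, hDu', sub_self]
  set Y2 : Finset V → Finset P → Finset T → 𝔸 := fun w s t => atE (y2 w s) t with hY2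
  have hDY2 : ∀ ω σ τ, D3 P T V 𝔸 Y2 ω σ τ = atE (c ω σ - c' ω σ) τ +
      ((-1 : ℤ) ^ ω.card * (-1 : ℤ) ^ σ.card) • at1 (y2 ω σ) τ := by
    intro ω σ τ
    rw [hY2, D3_at, hdy2]
    rfl
  have hDW : D3 P T V 𝔸 (Z - Z' - D3 P T V 𝔸 Y2) = 0 := by
    rw [map_sub, map_sub, hDZ, hDZ', D3_D3, sub_zero, sub_zero]
  have hWS : ∀ ω σ τ, (Z - Z' - D3 P T V 𝔸 Y2) ω σ τ ∈ res (σ = ∅ ∨ τ = ∅) (G σ τ ω) := by
    intro ω σ τ
    have e1 : (Z - Z' - D3 P T V 𝔸 Y2) ω σ τ =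
        (atE (z σ τ) ω - u ω σ τ) - (atE (c' ω σ) τ - u' ω σ τ) - D3 P T V 𝔸 Y2 ω σ τ := by
      rw [← hatz]
      rfl
    rw [e1]
    refine ⟨?_, ?_⟩
    · refine sub_mem (sub_mem (sub_mem ?_ (hu ω σ τ).1) (sub_mem ?_ ?_)) ?_
      · exact atE_mem (fun h => by rw [h]; exact hzG σ τ)
      · exact atE_mem (fun h => by rw [h]; exact hG'G _ _ _ (hc'S ω σ).1)
      · exact hG'G _ _ _ (hu' ω σ τ).1
      · refine D3_mem (S := fun ω σ τ => G σ τ ω)
          (fun ω ω' σ σ' τ τ' h1 h2 h3 => hG _ _ _ _ _ _ h2 h3 h1) (X := Y2) ?_ ω σ τ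
        intro ω σ τ
        exact atE_mem (fun h => by rw [h]; exact (hy2S ω σ).1)
    · rintro (h | h)
      · rw [h, hz1, atE_zero, (hu ω ∅ τ).2 (Or.inr rfl), (hc'S ω ∅).2 (Or.inr rfl), atE_zero,
          (hu' ω ∅ τ).2 (Or.inl rfl), hDY2, hy20, at1_zero, (hcS ω ∅).2 (Or.inr rfl),
          (hc'S ω ∅).2 (Or.inr rfl)]
        simp [atE_zero]
      · rw [h, hz2, atE_zero, atE_empty, (hu' ω σ ∅).2 (Or.inr rfl), hDY2, at1_empty, atE_empty,
          hc1]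
        simp
  obtain ⟨u2, hu2, hDu2⟩ := KV (P := P) (T := T) (V := V)
    (S := fun ω σ τ => res (σ = ∅ ∨ τ = ∅) (G σ τ ω))
    (fun ω ω' σ σ' τ τ' h1 h2 h3 => res_mono (hbad h2 h3) (hG _ _ _ _ _ _ h2 h3 h1))
    (fun σ τ => augEx_res (fun h => by
      rw [not_or] at h
      exact hW1 σ τ (Finset.nonempty_iff_ne_empty.2 h.1) (Finset.nonempty_iff_ne_empty.2 h.2)))
    (X := Z - Z' - D3 P T V 𝔸 Y2) hWS hDW
  have hZ'0 : ∀ σ τ, Z' ∅ σ τ = - u' ∅ σ τ := by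
    intro σ τ
    change atE (c' ∅ σ) τ - u' ∅ σ τ = _
    rw [(hc'S ∅ σ).2 (Or.inl rfl), atE_zero, zero_sub]
  refine ⟨fun σ τ => Z' ∅ σ τ, fun σ τ => u2 ∅ σ τ, ⟨?_, ?_, ?_⟩, ?_, ⟨?_, ?_, ?_⟩, ?_⟩
  · intro τ
    change Z' ∅ ∅ τ = 0
    rw [hZ'0, (hu' ∅ ∅ τ).2 (Or.inl rfl), neg_zero]
  · intro σ
    change Z' ∅ σ ∅ = 0
    rw [hZ'0, (hu' ∅ σ ∅).2 (Or.inr rfl), neg_zero]
  · intro σ τ _ _
    change Z' ∅ σ τ ∈ G' σ τ ∅
    rw [hZ'0]
    exact neg_mem (hu' ∅ σ τ).1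
  · intro σ τ
    have h1 := D3_empty Z' σ τ
    rw [hDZ'] at h1
    exact h1.symm
  · intro τ
    exact (hu2 ∅ ∅ τ).2 (Or.inl rfl)
  · intro σ
    exact (hu2 ∅ σ ∅).2 (Or.inr rfl)
  · intro σ τ _ _
    exact (hu2 ∅ σ τ).1
  · intro σ τ
    have h1 := D3_empty u2 σ τ
    rw [hDu2] at h1
    change z σ τ = Z' ∅ σ τ + dd (u2 ∅) σ τ
    rw [← h1]
    change z σ τ = Z' ∅ σ τ + (Z ∅ σ τ - Z' ∅ σ τ - D3 P T V 𝔸 Y2 ∅ σ τ)
    have h2 : Z ∅ σ τ = z σ τ := by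
      change (atE z : Finset V → Finset P → Finset T → 𝔸) ∅ σ τ - u ∅ σ τ = _
      rw [hatz, atE_empty, (hu ∅ σ τ).2 (Or.inl rfl), sub_zero]
    have h3 : D3 P T V 𝔸 Y2 ∅ σ τ = 0 := by
      rw [hDY2, (hcS ∅ σ).2 (Or.inl rfl), (hc'S ∅ σ).2 (Or.inl rfl), (hy2S ∅ σ).2 rfl, at1_zero,
        sub_zero, atE_zero, smul_zero, add_zero]
    rw [h2, h3]
    abel

end Pool.Agent.DBX.SUR
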