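import Pool.Agent.DBX.SUR.Stmts
import Pool.Agent.DBX.Lib.Tot

set_option autoImplicit false

namespace Pool.Agent.DBX.SUR

universe u

theorem col_proof : Stmt_COL.{u} := by
  intro P T _ _ _ _ A _ G hG hex z hz0 hz hc
  obtain ⟨y, hy0, hy, h⟩ := dd_exact_col' (G := G)
    (fun σ τ hσ σ' hs => hG σ σ' τ τ hσ hs (Finset.Subset.refl _))
    (fun σ hσ τ τ' ht => hG σ σ τ τ' hσ (Finset.Subset.refl _) ht)
    (fun σ hσ x hx hx0 => by
      obtain ⟨y, hy, hy'⟩ := hex σ hσ x hx (fun τ => congrFun hx0 τ)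
      exact ⟨y, hy, funext hy'⟩)
    hz0 hz (funext (fun σ => funext (fun τ => hc σ τ)))
  exact ⟨y, hy0, hy, fun σ τ => congrFun (congrFun h σ) τ⟩

end Pool.Agent.DBX.SUR
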