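import Pool.Agent.DBX.SUR.Stmts

set_option autoImplicit false

/-! # MP_2c751f_ag, squad DBX, area SUR, module COV: existence of good coverings -/

namespace Pool.Agent.DBX.SUR

open MvPolynomial

noncomputable section

universe u

namespace COV_

section gen
variable {K L : Type*} [Field K] [Field L] [Algebra K L]

theorem le_adj (B : Subalgebra K L) (x : L) : B ≤ Algebra.adjoin K ((B : Set L) ∪ {x}) :=
  fun _ hz => Algebra.subset_adjoin (Or.inl hz)

theorem mem_adj (B : Subalgebra K L) (x : L) : x ∈ Algebra.adjoin K ((B : Set L) ∪ {x}) :=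
  Algebra.subset_adjoin (Or.inr rfl)

theorem adj_loc (B : Subalgebra K L) {x : L} (hx : x ∈ B) (hx0 : x ≠ 0) {z : L}
    (hz : z ∈ Algebra.adjoin K ((B : Set L) ∪ {x⁻¹})) : ∃ E : ℕ, x ^ E * z ∈ B := by
  induction hz using Algebra.adjoin_induction with
  | mem z hz =>
    rcases hz with hz | hz
    · exact ⟨0, by rw [pow_zero, one_mul]; exact hz⟩
    · refine ⟨1, ?_⟩
      rw [Set.mem_singleton_iff.mp hz, pow_one, mul_inv_cancel₀ hx0]
      exact one_mem B
  | algebraMap r => exact ⟨0, by rw [pow_zero, one_mul]; exact B.algebraMap_mem r⟩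
  | add y z _ _ hy hz =>
    obtain ⟨E, hE⟩ := hy
    obtain ⟨F, hF⟩ := hz
    refine ⟨E + F, ?_⟩
    have h1 : x ^ (E + F) * (y + z) = x ^ F * (x ^ E * y) + x ^ E * (x ^ F * z) := by
      rw [pow_add]; ring
    rw [h1]
    exact add_mem (mul_mem (pow_mem hx F) hE) (mul_mem (pow_mem hx E) hF)
  | mul y z _ _ hy hz =>
    obtain ⟨E, hE⟩ := hy
    obtain ⟨F, hF⟩ := hz
    refine ⟨E + F, ?_⟩
    have h1 : x ^ (E + F) * (y * z) = (x ^ E * y) * (x ^ F * z) := by
      rw [pow_add]; ring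
    rw [h1]
    exact mul_mem hE hF

theorem genIn_single (A : Subalgebra K L) {F : L} (hF : F ∈ A) :
    genIn A {F} = Ideal.span {(⟨F, hF⟩ : A)} := by
  unfold genIn
  congr 1
  ext z
  simp only [Set.mem_singleton_iff, Set.mem_ofPred_eq]
  constructor
  · intro h; exact Subtype.ext h
  · intro h; rw [h]

theorem span_div (A : Subalgebra K L) {x y : A} (hx : (x : L) ≠ 0) (hy : (y : L) ≠ 0)
    (h : Ideal.span {x} = Ideal.span {y}) : (x : L) / y ∈ A ∧ (y : L) / x ∈ A := by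
  have h1 : x ∈ Ideal.span {y} := h ▸ Ideal.mem_span_singleton_self x
  have h2 : y ∈ Ideal.span {x} := h.symm ▸ Ideal.mem_span_singleton_self y
  obtain ⟨r, hr⟩ := Ideal.mem_span_singleton'.mp h1
  obtain ⟨r', hr'⟩ := Ideal.mem_span_singleton'.mp h2
  have e1 : (r : L) * y = x := congrArg Subtype.val hr
  have e2 : (r' : L) * x = y := congrArg Subtype.val hr'
  constructor
  · rw [← e1, mul_div_cancel_right₀ _ hy]; exact r.2
  · rw [← e2, mul_div_cancel_right₀ _ hx]; exact r'.2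

theorem mem_toF_span (A : Subalgebra K L) (P : A) (w : L) :
    w ∈ toF A (Ideal.span {P}) ↔ ∃ y ∈ A, w = (P : L) * y := by
  constructor
  · rintro ⟨z, hz, rfl⟩
    have hz' : z ∈ Ideal.span {P} := hz
    obtain ⟨r, hr⟩ := Ideal.mem_span_singleton'.mp hz'
    refine ⟨r, r.2, ?_⟩
    rw [← hr]
    show (r : L) * P = P * r
    ring
  · rintro ⟨y, hy, rfl⟩
    refine ⟨⟨y, hy⟩ * P, Ideal.mul_mem_left _ _ (Ideal.mem_span_singleton_self P), ?_⟩
    show y * (P : L) = P * y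
    ring

end gen

variable {k : Type u} [Field k] {n : ℕ}

/-- one chart of the covering -/
structure Loc (D : Dat k n) (l : Pol k n) (ε : ℕ) (a : Fin D.p) (b : Fin D.M) where
  s : Fr k n
  t : Fin (n - 1) → Fr k n
  ce : Fin (n - 1) → ℕ
  cf : Fin (n - 1) → ℕ
  cl : Fin (n - 1) → ℕ
  s_mem : s ∈ D.ch a b
  s_ne : s ≠ 0
  t_ne : ∀ i, t i ≠ 0
  t_mem : ∀ i, t i ∈ Algebra.adjoin k ((D.ch a b : Set (Fr k n)) ∪ {s⁻¹})
  etale : (MvPolynomial.aeval (R := k) (fun i => (⟨t i, t_mem i⟩ :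
    Algebra.adjoin k ((D.ch a b : Set (Fr k n)) ∪ {s⁻¹})))).toRingHom.Etale
  ce_le : ∀ i, ce i + cl i ≤ 1
  cf_supp : ∀ i, ce i = 0 → cf i = 0
  t_inv : ∀ i, ce i + cl i = 0 → (t i)⁻¹ ∈ Algebra.adjoin k ((D.ch a b : Set (Fr k n)) ∪ {s⁻¹})
  radE : ∀ z, z ∈ toF (Algebra.adjoin k ((D.ch a b : Set (Fr k n)) ∪ {s⁻¹}))
      (genIn (Algebra.adjoin k ((D.ch a b : Set (Fr k n)) ∪ {s⁻¹})) (D.I0 a)).radical ↔
    z / (∏ i, t i ^ ce i) ∈ Algebra.adjoin k ((D.ch a b : Set (Fr k n)) ∪ {s⁻¹})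
  idF : (inc k n (D.f b) / inc k n (D.g a) ^ D.δ) / (∏ i, t i ^ cf i) ∈
      Algebra.adjoin k ((D.ch a b : Set (Fr k n)) ∪ {s⁻¹}) ∧
    (∏ i, t i ^ cf i) / (inc k n (D.f b) / inc k n (D.g a) ^ D.δ) ∈
      Algebra.adjoin k ((D.ch a b : Set (Fr k n)) ∪ {s⁻¹})
  idL : (inc k n l / inc k n (D.g a) ^ ε) / (∏ i, t i ^ cl i) ∈
      Algebra.adjoin k ((D.ch a b : Set (Fr k n)) ∪ {s⁻¹}) ∧
    (∏ i, t i ^ cl i) / (inc k n l / inc k n (D.g a) ^ ε) ∈
      Algebra.adjoin k ((D.ch a b : Set (Fr k n)) ∪ {s⁻¹})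

/-- the local construction, in abstract form -/
theorem loc_core (hETL : Stmt_ETL.{u}) (hRL : Stmt_RL.{u}) {K L : Type u} [Field K] [Field L]
    [Algebra K L] (B A : Subalgebra K L) (q : Ideal B) (hq : q.IsPrime) (s : B) (hs : s ∉ q)
    (hBA : B ≤ A) (hsinv : ((s : L))⁻¹ ∈ A) (hAloc : ∀ z ∈ A, ∃ E : ℕ, (s : L) ^ E * z ∈ B)
    (N : ℕ) (t : Fin N → A) (e : ℕ) (het : (MvPolynomial.aeval (R := K) t).toRingHom.Etale)
    (J : Set L) (hI0 : J ⊆ (A : Set L))
    (hrad : (genIn A J).radical = Ideal.span {∏ i : Fin N, if (i : ℕ) < e then t i else 1})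
    (F : L) (hF : F ∈ A) (hF0 : F ≠ 0) (cf : Fin N → ℕ) (hcf0 : ∀ i : Fin N, e ≤ (i : ℕ) → cf i = 0)
    (hcF : genIn A {F} = Ideal.span {∏ i, t i ^ cf i})
    (G : L) (hL : G ∈ A) (hL0 : G ≠ 0)
    (hlc : genIn A {G} = ⊤ ∨ ∃ i : Fin N, e ≤ (i : ℕ) ∧ genIn A {G} = Ideal.span {t i}) :
    ∃ (s2 : B) (t2 : Fin N → L) (ce cl : Fin N → ℕ), s2 ∉ q ∧ (s2 : L) ≠ 0 ∧ (∀ i, t2 i ≠ 0) ∧
      (∃ t_mem : ∀ i, t2 i ∈ Algebra.adjoin K ((B : Set L) ∪ {((s2 : L))⁻¹}),
        (MvPolynomial.aeval (R := K) (fun i => (⟨t2 i, t_mem i⟩ :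
          Algebra.adjoin K ((B : Set L) ∪ {((s2 : L))⁻¹})))).toRingHom.Etale) ∧
      (∀ i, ce i + cl i ≤ 1) ∧ (∀ i, ce i = 0 → cf i = 0) ∧
      (∀ i, ce i + cl i = 0 → (t2 i)⁻¹ ∈ Algebra.adjoin K ((B : Set L) ∪ {((s2 : L))⁻¹})) ∧
      (∀ z, z ∈ toF (Algebra.adjoin K ((B : Set L) ∪ {((s2 : L))⁻¹}))
          (genIn (Algebra.adjoin K ((B : Set L) ∪ {((s2 : L))⁻¹})) J).radical ↔
        z / (∏ i, t2 i ^ ce i) ∈ Algebra.adjoin K ((B : Set L) ∪ {((s2 : L))⁻¹})) ∧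
      (F / (∏ i, t2 i ^ cf i) ∈ Algebra.adjoin K ((B : Set L) ∪ {((s2 : L))⁻¹}) ∧
        (∏ i, t2 i ^ cf i) / F ∈ Algebra.adjoin K ((B : Set L) ∪ {((s2 : L))⁻¹})) ∧
      (G / (∏ i, t2 i ^ cl i) ∈ Algebra.adjoin K ((B : Set L) ∪ {((s2 : L))⁻¹}) ∧
        (∏ i, t2 i ^ cl i) / G ∈ Algebra.adjoin K ((B : Set L) ∪ {((s2 : L))⁻¹})) := by
  classical
  have hs0 : (s : L) ≠ 0 := by
    intro h0
    apply hs
    have : s = 0 := Subtype.ext h0
    rw [this]; exact q.zero_mem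
  -- the multiplicities of `G`
  obtain ⟨cl, hcl1, hcle, hclL⟩ : ∃ cl : Fin N → ℕ, (∀ i, cl i ≤ 1) ∧
      (∀ i, cl i ≠ 0 → e ≤ (i : ℕ)) ∧ genIn A {G} = Ideal.span {∏ i, t i ^ cl i} := by
    rcases hlc with h1 | ⟨i0, hi0, h1⟩
    · refine ⟨fun _ => 0, fun _ => Nat.zero_le 1, fun i h => absurd rfl h, ?_⟩
      rw [h1]
      simp
    · refine ⟨fun i => if i = i0 then 1 else 0, ?_, ?_, ?_⟩
      · intro i
        by_cases hi : i = i0
        · simp [hi]
        · simp [hi]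
      · intro i h
        by_cases hi : i = i0
        · rw [hi]; exact hi0
        · simp only [if_neg hi] at h
          exact absurd rfl h
      · rw [h1]
        congr 2
        rw [Finset.prod_eq_single i0]
        · simp
        · intro i _ hi
          show t i ^ (if i = i0 then 1 else 0) = 1
          rw [if_neg hi, pow_zero]
        · intro h; exact absurd (Finset.mem_univ _) h
  let ce : Fin N → ℕ := fun i => if (i : ℕ) < e then 1 else 0
  have hrad' : (genIn A J).radical = Ideal.span {∏ i, t i ^ ce i} := by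
    rw [hrad]
    congr 2
    refine Finset.prod_congr rfl (fun i _ => ?_)
    simp only [ce]
    split_ifs
    · rw [pow_one]
    · rw [pow_zero]
  -- shifts
  have hsh : ∀ i, ∃ (sh : K) (c : B) (E : ℕ), c ∉ q ∧ (ce i + cl i ≠ 0 → sh = 0) ∧
      (ce i + cl i = 0 → (c : L) = (s : L) ^ E * ((t i : L) + algebraMap K L sh)) := by
    intro i
    by_cases hi : ce i + cl i = 0
    · obtain ⟨E, hE⟩ := hAloc _ (t i).2
      by_cases h1 : (⟨(s : L) ^ E * (t i : L), hE⟩ : B) ∈ q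
      · refine ⟨1, ⟨(s : L) ^ E * (t i : L), hE⟩ + s ^ E, E, ?_,
          fun h => absurd hi h, fun _ => ?_⟩
        · intro h2
          have h3 : s ^ E ∈ q := by
            have := q.sub_mem h2 h1
            rwa [add_sub_cancel_left] at this
          exact hs (hq.mem_of_pow_mem E h3)
        · show (s : L) ^ E * (t i : L) + (s : L) ^ E = _
          rw [map_one]; ring
      · refine ⟨0, ⟨(s : L) ^ E * (t i : L), hE⟩, E, h1, fun _ => rfl, fun _ => ?_⟩
        rw [map_zero, add_zero]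
    · refine ⟨0, 1, 0, fun h1 => hq.ne_top ((Ideal.eq_top_iff_one q).mpr h1), fun _ => rfl,
        fun h => absurd h hi⟩
  choose sh cc E hcc hsh0 hcce using hsh
  let uB : B := ∏ i, cc i
  have huq : uB ∉ q := by
    intro h1
    obtain ⟨i, _, hi⟩ := (hq.prod_mem_iff (s := Finset.univ)).mp h1
    exact hcc i hi
  have hu0 : (uB : L) ≠ 0 := by
    intro h0
    apply huq
    have : uB = 0 := Subtype.ext h0
    rw [this]; exact q.zero_mem
  have hs2 : (s * uB : B) ∉ q := fun h1 => (hq.mem_or_mem h1).elim hs huq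
  have hs20 : ((s * uB : B) : L) ≠ 0 := mul_ne_zero hs0 hu0
  obtain ⟨A2, hA2⟩ : ∃ A2, A2 = Algebra.adjoin K ((B : Set L) ∪ {(((s * uB : B) : L))⁻¹}) :=
    ⟨_, rfl⟩
  have hBA2 : B ≤ A2 := by rw [hA2]; exact le_adj B _
  have hs2inv : (((s * uB : B) : L))⁻¹ ∈ A2 := by rw [hA2]; exact mem_adj B _
  have hcoe : ((s * uB : B) : L) = (s : L) * (uB : L) := rfl
  have hsinv2 : ((s : L))⁻¹ ∈ A2 := by
    have h1 : ((s : L))⁻¹ = (uB : L) * (((s * uB : B) : L))⁻¹ := by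
      rw [hcoe]; field_simp
    rw [h1]
    exact mul_mem (hBA2 uB.2) hs2inv
  have huinv : ((uB : L))⁻¹ ∈ A2 := by
    have h1 : ((uB : L))⁻¹ = (s : L) * (((s * uB : B) : L))⁻¹ := by
      rw [hcoe]; field_simp
    rw [h1]
    exact mul_mem (hBA2 s.2) hs2inv
  have hAA2 : A ≤ A2 := by
    intro z hz
    obtain ⟨E, hE⟩ := hAloc z hz
    have h1 : z = ((s : L))⁻¹ ^ E * ((s : L) ^ E * z) := by
      rw [inv_pow, inv_mul_cancel_left₀ (pow_ne_zero E hs0)]
    rw [h1]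
    exact mul_mem (pow_mem hsinv2 E) (hBA2 hE)
  have hA2eq : A2 = Algebra.adjoin K ((A : Set L) ∪ {((uB : L))⁻¹}) := by
    apply le_antisymm
    · rw [hA2]
      apply Algebra.adjoin_le
      rintro z (hz | hz)
      · exact le_adj A _ (hBA hz)
      · rw [Set.mem_singleton_iff.mp hz, hcoe, mul_inv]
        exact mul_mem (le_adj A _ hsinv) (mem_adj A _)
    · apply Algebra.adjoin_le
      rintro z (hz | hz)
      · exact hAA2 hz
      · rw [Set.mem_singleton_iff.mp hz]; exact huinv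
  have huA : (uB : L) ∈ A := hBA uB.2
  have hloc : ∀ z ∈ A2, ∃ e : ℕ, (uB : L) ^ e * z ∈ A := by
    intro z hz
    rw [hA2] at hz
    obtain ⟨E, hE⟩ := adj_loc B (s * uB : B).2 hs20 hz
    refine ⟨E, ?_⟩
    have h1 : (uB : L) ^ E * z = ((s : L))⁻¹ ^ E * (((s * uB : B) : L) ^ E * z) := by
      rw [hcoe, mul_pow, inv_pow]
      have := pow_ne_zero E hs0
      field_simp
    rw [h1]
    exact mul_mem (pow_mem hsinv E) (hBA hE)
  obtain ⟨ht0, hetale⟩ := hETL K L N A A2 (fun i => (t i : L))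
    (fun i => (t i).2) sh (uB : L) huA hu0 hA2eq het
  have ht2 : ∀ i, (t i : L) + algebraMap K L (sh i) ∈ A2 := fun i =>
    add_mem (hAA2 (t i).2) (A2.algebraMap_mem _)
  have hetale2 := hetale ht2
  -- values of the new coordinates
  let t2 : Fin N → L := fun i => (t i : L) + algebraMap K L (sh i)
  have ht2eq : ∀ i, ce i + cl i ≠ 0 → t2 i = t i := by
    intro i hi
    simp only [t2]
    rw [hsh0 i hi, map_zero, add_zero]
  have hprod : ∀ c : Fin N → ℕ, (∀ i, c i ≠ 0 → ce i + cl i ≠ 0) →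
      ∏ i, t2 i ^ c i = ((∏ i, t i ^ c i : A) : L) := by
    intro c hc
    have h1 : ((∏ i, t i ^ c i : A) : L) = ∏ i, (t i : L) ^ c i := by
      have h0 := map_prod A.val (fun i => t i ^ c i) Finset.univ
      rw [Subalgebra.coe_val] at h0
      rw [h0]
      exact Finset.prod_congr rfl (fun i _ => by rw [SubmonoidClass.coe_pow])
    rw [h1]
    refine Finset.prod_congr rfl (fun i _ => ?_)
    by_cases h2 : c i = 0
    · rw [h2, pow_zero, pow_zero]
    · rw [ht2eq i (hc i h2)]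
  have hprod0 : ∀ c : Fin N → ℕ, ((∏ i, t i ^ c i : A) : L) ≠ 0 := by
    intro c
    have h1 : ((∏ i, t i ^ c i : A) : L) = ∏ i, (t i : L) ^ c i := by
      have h0 := map_prod A.val (fun i => t i ^ c i) Finset.univ
      rw [Subalgebra.coe_val] at h0
      rw [h0]
      exact Finset.prod_congr rfl (fun i _ => by rw [SubmonoidClass.coe_pow])
    rw [h1]
    exact Finset.prod_ne_zero_iff.mpr (fun i _ => pow_ne_zero _ (ht0 i))
  have hcce' : ∀ i, ce i ≠ 0 → ce i + cl i ≠ 0 := fun i h => by omega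
  have hccl' : ∀ i, cl i ≠ 0 → ce i + cl i ≠ 0 := fun i h => by omega
  have hcf' : ∀ i, ce i = 0 → cf i = 0 := by
    intro i hi
    apply hcf0
    simp only [ce] at hi
    by_contra h1
    rw [if_pos (by omega)] at hi
    omega
  have hccf' : ∀ i, cf i ≠ 0 → ce i + cl i ≠ 0 := by
    intro i h1 h2
    exact h1 (hcf' i (by omega))
  have hccne : ∀ i, ((cc i : B) : L) ≠ 0 := by
    intro i h0
    apply hcc i
    have : cc i = 0 := Subtype.ext h0
    rw [this]; exact q.zero_mem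
  have hccinv : ∀ i, (((cc i : B) : L))⁻¹ ∈ A2 := by
    intro i
    have h1 : uB = cc i * ∏ j ∈ Finset.univ.erase i, cc j :=
      (Finset.mul_prod_erase Finset.univ cc (Finset.mem_univ i)).symm
    have h2 : (((cc i : B) : L))⁻¹ =
        ((∏ j ∈ Finset.univ.erase i, cc j : B) : L) * ((uB : L))⁻¹ := by
      have h3 : (uB : L) = (cc i : L) * ((∏ j ∈ Finset.univ.erase i, cc j : B) : L) := by
        conv_lhs => rw [h1]
        rfl
      have h4 : ((∏ j ∈ Finset.univ.erase i, cc j : B) : L) ≠ 0 := by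
        intro h0
        apply hu0
        rw [h3, h0, mul_zero]
      rw [h3, mul_inv, mul_comm ((cc i : L))⁻¹, mul_inv_cancel_left₀ h4]
    rw [h2]
    exact mul_mem (hBA2 (Subtype.property _)) huinv
  refine ⟨s * uB, t2, ce, cl, hs2, hs20, ?_, ?_⟩
  · -- t_ne
    intro i
    by_cases hi : ce i + cl i = 0
    · intro h0
      apply hccne i
      rw [hcce i hi]
      have h1 : (t i : L) + algebraMap K L (sh i) = 0 := h0
      rw [h1, mul_zero]
    · rw [ht2eq i hi]; exact ht0 i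
  rw [← hA2]
  refine ⟨⟨ht2, hetale2⟩, ?_, hcf', ?_, ?_, ?_, ?_⟩
  · -- ce_le
    intro i
    have h1 := hcl1 i
    by_cases h2 : cl i = 0
    · rw [h2]; simp only [ce]; split_ifs <;> omega
    · have h3 := hcle i h2
      simp only [ce]
      rw [if_neg (by omega)]
      omega
  · -- t_inv
    intro i hi
    have h1 : ((cc i : B) : L) = (s : L) ^ E i * t2 i := hcce i hi
    have h2 : (t2 i)⁻¹ = (s : L) ^ E i * (((cc i : B) : L))⁻¹ := by
      rw [h1, mul_inv, mul_inv_cancel_left₀ (pow_ne_zero _ hs0)]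
    rw [h2]
    exact mul_mem (pow_mem (hBA2 s.2) _) (hccinv i)
  · -- radE
    intro z
    have h1 := (hRL K L A A2 (uB : L) J hAA2 huA huinv hu0 hloc hI0 z).2
    rw [hprod ce hcce']
    refine h1.trans ?_
    rw [hrad']
    constructor
    · rintro ⟨E, hE⟩
      obtain ⟨y, hy, hyE⟩ := (mem_toF_span A _ _).mp hE
      have h2 : z / ((∏ i, t i ^ ce i : A) : L) = ((uB : L))⁻¹ ^ E * y := by
        rw [div_eq_iff (hprod0 ce), inv_pow, mul_assoc, mul_comm y, ← hyE,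
          inv_mul_cancel_left₀ (pow_ne_zero _ hu0)]
      rw [h2]
      exact mul_mem (pow_mem huinv E) (hAA2 hy)
    · intro h2
      obtain ⟨E, hE⟩ := hloc _ h2
      refine ⟨E, (mem_toF_span A _ _).mpr ⟨_, hE, ?_⟩⟩
      have h3 := hprod0 ce
      field_simp
  · -- idF
    rw [hprod cf hccf']
    rw [genIn_single A hF] at hcF
    have h1 := span_div A (x := ⟨_, hF⟩) (y := ∏ i, t i ^ cf i) hF0 (hprod0 cf) hcF
    exact ⟨hAA2 h1.1, hAA2 h1.2⟩
  · -- idL
    rw [hprod cl hccl']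
    rw [genIn_single A hL] at hclL
    have h1 := span_div A (x := ⟨_, hL⟩) (y := ∏ i, t i ^ cl i) hL0 (hprod0 cl) hclL
    exact ⟨hAA2 h1.1, hAA2 h1.2⟩

theorem loc_exists (hETL : Stmt_ETL.{u}) (hRL : Stmt_RL.{u}) (hIJ : Stmt_IJ.{u})
    (D : Dat k n) (l : Pol k n) (ε : ℕ) (hD : D.Good) (hl : l.IsHomogeneous ε) (hl0 : l ≠ 0)
    (h : LSE D l ε) (a : Fin D.p) (b : Fin D.M) (q : Ideal (D.ch a b)) (hq : q.IsPrime) :
    ∃ X : Loc D l ε a b, (⟨X.s, X.s_mem⟩ : D.ch a b) ∉ q := by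
  classical
  obtain ⟨s, hs, t, e, ⟨het, hrad, cf, hcf0, hcF⟩, hlc⟩ := h a b q hq
  have hs0 : (s : Fr k n) ≠ 0 := by
    intro h0
    apply hs
    have : s = 0 := Subtype.ext h0
    rw [this]; exact q.zero_mem
  have hg0 : inc k n (D.g a) ≠ 0 := inc_ne (hD.g_ne a)
  have hX : ∀ i, inc k n (X i) / inc k n (D.g a) ∈ D.ch a b := fun i =>
    Algebra.subset_adjoin (Or.inl ⟨i, rfl⟩)
  have hBA := le_adj (D.ch a b) ((s : Fr k n))⁻¹
  obtain ⟨s2, t2, ce, cl, h1, h2, h3, ⟨h4, h5⟩, h6, h7, h8, h9, h10, h11⟩ :=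
    loc_core hETL hRL (D.ch a b) _ q hq s hs hBA (mem_adj (D.ch a b) _)
      (fun z hz => adj_loc (D.ch a b) s.2 hs0 hz) (n - 1) t e het (D.I0 a)
      (fun z hz => hBA ((hIJ k n D hD a _).1 hX hz)) hrad
      (inc k n (D.f b) / inc k n (D.g a) ^ D.δ)
      (hBA ((hIJ k n D hD a _).2.1 hX _ _ (hD.f_hom b)))
      (div_ne_zero (inc_ne (hD.f_ne b)) (pow_ne_zero _ hg0)) cf hcf0 hcF
      (inc k n l / inc k n (D.g a) ^ ε)
      (hBA ((hIJ k n D hD a _).2.1 hX _ _ hl))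
      (div_ne_zero (inc_ne hl0) (pow_ne_zero _ hg0)) hlc
  exact ⟨⟨s2, t2, ce, cf, cl, s2.2, h2, h3, h4, h5, h6, h7, h8, h9, h10, h11⟩, h1⟩

/-- finitely many charts suffice -/
theorem fin_exists (D : Dat k n) (l : Pol k n) (ε : ℕ) (a : Fin D.p) (b : Fin D.M)
    (h : ∀ q : Ideal (D.ch a b), q.IsPrime → ∃ X : Loc D l ε a b,
      (⟨X.s, X.s_mem⟩ : D.ch a b) ∉ q) :
    ∃ (r : ℕ) (X : Fin r → Loc D l ε a b) (c : Fin r → Fr k n), (∀ i, c i ∈ D.ch a b) ∧
      ∑ i, c i * (X i).s = 1 := by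
  classical
  let S : Set (D.ch a b) := {x | ∃ X : Loc D l ε a b, x = ⟨X.s, X.s_mem⟩}
  have hS : Ideal.span S = ⊤ := by
    by_contra h1
    obtain ⟨M, hM, hSM⟩ := Ideal.exists_le_maximal _ h1
    obtain ⟨X, hX⟩ := h M hM.isPrime
    exact hX (hSM (Ideal.subset_span ⟨X, rfl⟩))
  have h1 : (1 : D.ch a b) ∈ Submodule.span (D.ch a b) S := by
    have : (1 : D.ch a b) ∈ Ideal.span S := by rw [hS]; exact Submodule.mem_top
    exact this
  obtain ⟨r, f, g, hfg⟩ := Submodule.mem_span_set'.mp h1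
  choose X hX using fun i => (g i).2
  refine ⟨r, X, fun i => (f i : Fr k n), fun i => (f i).2, ?_⟩
  have h2 := congrArg (fun z : D.ch a b => (z : Fr k n)) hfg
  simp only [smul_eq_mul] at h2
  rw [AddSubmonoidClass.coe_finsetSum] at h2
  rw [show ((1 : D.ch a b) : Fr k n) = 1 from rfl] at h2
  rw [← h2]
  refine Finset.sum_congr rfl (fun i _ => ?_)
  rw [hX i]
  rfl

end COV_

open COV_ in
theorem cov_proof.{v} (hETL : Stmt_ETL.{v}) (hRL : Stmt_RL.{v}) (hIJ : Stmt_IJ.{v}) :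
    Stmt_COV.{v} := by
  classical
  intro k _ _ n D l ε hD hl hl0 h
  have hfin : ∀ ab : Fin D.p × Fin D.M, ∃ (r : ℕ) (X : Fin r → Loc D l ε ab.1 ab.2)
      (c : Fin r → Fr k n), (∀ i, c i ∈ D.ch ab.1 ab.2) ∧ ∑ i, c i * (X i).s = 1 := fun ab =>
    fin_exists D l ε ab.1 ab.2
      (fun q hq => loc_exists hETL hRL hIJ D l ε hD hl hl0 h ab.1 ab.2 q hq)
  choose r X c hc hsum using hfin
  let J : Type := Σ ab : Fin D.p × Fin D.M, Fin (r ab)
  let e : Fin (Fintype.card J) ≃ J := (Fintype.equivFin J).symm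
  let C : Cov D (Fintype.card J) :=
    { a := fun v => (e v).1.1
      b := fun v => (e v).1.2
      s := fun v => (X (e v).1 (e v).2).s
      t := fun v => (X (e v).1 (e v).2).t
      ce := fun v => (X (e v).1 (e v).2).ce
      cf := fun v => (X (e v).1 (e v).2).cf
      cl := fun v => (X (e v).1 (e v).2).cl }
  refine ⟨Fintype.card J, C, ?_⟩
  refine
    { l_ne := hl0
      s_mem := fun v => (X (e v).1 (e v).2).s_mem
      s_ne := fun v => (X (e v).1 (e v).2).s_ne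
      cover := ?_
      t_ne := fun v => (X (e v).1 (e v).2).t_ne
      t_mem := fun v => (X (e v).1 (e v).2).t_mem
      etale := fun v => (X (e v).1 (e v).2).etale
      ce_le := fun v => (X (e v).1 (e v).2).ce_le
      cf_supp := fun v => (X (e v).1 (e v).2).cf_supp
      t_inv := fun v => (X (e v).1 (e v).2).t_inv
      radE := fun v => (X (e v).1 (e v).2).radE
      idF := fun v => (X (e v).1 (e v).2).idF
      idL := fun v => (X (e v).1 (e v).2).idL }
  intro a b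
  let d : J → Fr k n := fun x => if x.1 = (a, b) then c x.1 x.2 else 0
  refine ⟨fun v => d (e v), ?_, ?_, ?_⟩
  · intro v
    simp only [d]
    split_ifs with h1
    · have h2 := hc (e v).1 (e v).2
      have h3 : D.ch (e v).1.1 (e v).1.2 = D.ch a b := by rw [h1]
      exact h3 ▸ h2
    · exact zero_mem _
  · intro v hv
    simp only [d]
    rw [if_neg]
    intro h1
    apply hv
    exact ⟨congrArg Prod.fst h1, congrArg Prod.snd h1⟩
  · have h1 : ∑ v, d (e v) * C.s v = ∑ x : J, d x * (X x.1 x.2).s :=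
      Equiv.sum_comp e (fun x : J => d x * (X x.1 x.2).s)
    rw [h1]
    have h2 : ∑ x : J, d x * (X x.1 x.2).s =
        ∑ ab : Fin D.p × Fin D.M, ∑ i : Fin (r ab), d ⟨ab, i⟩ * (X ab i).s :=
      Fintype.sum_sigma _
    rw [h2, Finset.sum_eq_single (a, b)]
    · rw [← hsum (a, b)]
      refine Finset.sum_congr rfl (fun i _ => ?_)
      show (if (a, b) = (a, b) then c (a, b) i else 0) * (X (a, b) i).s = _
      rw [if_pos rfl]
    · intro ab _ hab
      refine Finset.sum_eq_zero (fun i _ => ?_)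
      simp only [d]
      rw [if_neg hab, zero_mul]
    · intro h3; exact absurd (Finset.mem_univ _) h3

end

end Pool.Agent.DBX.SUR
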