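import Pool.Agent.DBX.SUR.Stmts

set_option autoImplicit false

/-! # MP_2c751f_ag, squad DBX, area SUR: module EG0 -/

namespace Pool.Agent.DBX.SUR

open MvPolynomial

noncomputable section

universe u

namespace EG0_

variable {k : Type u} [Field k] {n : ℕ}

/-! ## Homogeneous fractions -/

theorem HF_mul {m m' : ℤ} {z z' : Fr k n} (hz : z ∈ HF k n m) (hz' : z' ∈ HF k n m') :
    z * z' ∈ HF k n (m + m') := by
  obtain ⟨a, b, i, j, ha, hb, hb0, hm, rfl⟩ := hz
  obtain ⟨a', b', i', j', ha', hb', hb0', hm', rfl⟩ := hz'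
  refine ⟨a * a', b * b', i + i', j + j', ha.mul ha', hb.mul hb', mul_ne_zero hb0 hb0', ?_, ?_⟩
  · intro h
    have h1 := hm (left_ne_zero_of_mul h)
    have h2 := hm' (right_ne_zero_of_mul h)
    push_cast
    omega
  · rw [map_mul, map_mul, div_mul_div_comm]

theorem HF_one : (1 : Fr k n) ∈ HF k n 0 :=
  ⟨1, 1, 0, 0, isHomogeneous_one _ _, isHomogeneous_one _ _, one_ne_zero, fun _ => by simp,
    by simp⟩

theorem HF_quot {w v : Pol k n} {d e : ℕ} (hw : w.IsHomogeneous d) (hv : v.IsHomogeneous e)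
    (hv0 : v ≠ 0) : inc k n w / inc k n v ∈ HF k n ((d : ℤ) - e) :=
  ⟨w, v, d, e, hw, hv, hv0, fun _ => rfl, rfl⟩

theorem HF_zpow {g : Pol k n} (hg : g.IsHomogeneous 1) (hg0 : g ≠ 0) (m : ℤ) :
    (inc k n g) ^ m ∈ HF k n m := by
  rcases le_total 0 m with h | h
  · obtain ⟨e, rfl⟩ := Int.eq_ofNat_of_zero_le h
    have h1 : (g ^ e).IsHomogeneous e := by
      have := hg.pow e
      rwa [one_mul] at this
    have := HF_quot (k := k) (n := n) h1 (isHomogeneous_one _ _) one_ne_zero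
    rw [map_one, div_one, map_pow] at this
    simpa using this
  · obtain ⟨e, he⟩ := Int.eq_ofNat_of_zero_le (neg_nonneg.mpr h)
    have hm : m = -(e : ℤ) := by omega
    have h1 : (g ^ e).IsHomogeneous e := by
      have := hg.pow e
      rwa [one_mul] at this
    have := HF_quot (k := k) (n := n) (isHomogeneous_one _ _) h1 (pow_ne_zero _ hg0)
    rw [map_one, map_pow, one_div] at this
    rw [hm, zpow_neg, zpow_natCast]
    simpa using this

/-- common denominator -/
theorem common_den (F : Finset ℤ) (y : ℤ → Fr k n) (hy : ∀ d ∈ F, y d ∈ HF k n d) :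
    ∃ (b : Pol k n) (j : ℕ), b.IsHomogeneous j ∧ b ≠ 0 ∧ ∀ d ∈ F, ∃ (a : Pol k n) (i : ℕ),
      a.IsHomogeneous i ∧ (a ≠ 0 → (i : ℤ) - j = d) ∧ inc k n b * y d = inc k n a := by
  classical
  induction F using Finset.induction_on with
  | empty => exact ⟨1, 0, isHomogeneous_one _ _, one_ne_zero, by simp⟩
  | insert d F hd ih =>
    obtain ⟨b, j, hb, hb0, h1⟩ := ih (fun e he => hy e (Finset.mem_insert_of_mem he))
    obtain ⟨a', b', i', j', ha', hb', hb0', hm', hz'⟩ := hy d (Finset.mem_insert_self d F)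
    refine ⟨b * b', j + j', hb.mul hb', mul_ne_zero hb0 hb0', ?_⟩
    intro e he
    rcases Finset.mem_insert.mp he with rfl | he
    · refine ⟨b * a', j + i', hb.mul ha', ?_, ?_⟩
      · intro h
        have := hm' (right_ne_zero_of_mul h)
        push_cast
        omega
      · have h2 := inc_ne hb0'
        rw [hz', map_mul, map_mul]
        field_simp
    · obtain ⟨a, i, ha, hm, hz⟩ := h1 e he
      refine ⟨a * b', i + j', ha.mul hb', ?_, ?_⟩
      · intro h
        have := hm (left_ne_zero_of_mul h)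
        push_cast
        omega
      · rw [map_mul, map_mul, ← hz]
        ring

/-- independence of the degrees -/
theorem indep (F : Finset ℤ) (y : ℤ → Fr k n) (hy : ∀ d ∈ F, y d ∈ HF k n d)
    (h0 : ∑ d ∈ F, y d = 0) : ∀ d ∈ F, y d = 0 := by
  classical
  obtain ⟨b, j, hb, hb0, h1⟩ := common_den F y hy
  choose! a i ha hm hz using h1
  have hb1 := inc_ne hb0
  have h2 : ∑ d ∈ F, a d = 0 := by
    apply IsFractionRing.injective (MvPolynomial (Fin n) k) (FractionRing (MvPolynomial (Fin n) k))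
    rw [map_sum, map_zero]
    rw [← Finset.sum_congr rfl (fun d hd => hz d hd), ← Finset.mul_sum, h0, mul_zero]
  intro d hd
  have h3 : a d = 0 := by
    by_contra h4
    have h5 := hm d hd h4
    have h6 := congrArg (homogeneousComponent (i d)) h2
    rw [map_sum, map_zero, Finset.sum_eq_single d] at h6
    · rw [homogeneousComponent_of_mem (ha d hd), if_pos rfl] at h6
      exact h4 h6
    · intro e he hed
      by_cases h7 : a e = 0
      · rw [h7, map_zero]
      · have h8 := hm e he h7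
        rw [homogeneousComponent_of_mem (ha e he), if_neg]
        intro h9
        apply hed
        omega
    · intro h; exact absurd hd h
  have h4 := hz d hd
  rw [h3, map_zero] at h4
  exact (mul_eq_zero.mp h4).resolve_left hb1

/-! ## Sums of homogeneous elements -/

/-- finite sums of elements `g^d y`, `y ∈ W` -/
def GrS (g : Fr k n) (W : Submodule k (Fr k n)) : AddSubmonoid (Fr k n) :=
  AddSubmonoid.closure {z | ∃ (d : ℤ), ∃ y ∈ W, z = g ^ d * y}

theorem GrS_basic {g : Fr k n} {W : Submodule k (Fr k n)} (d : ℤ) {y : Fr k n} (hy : y ∈ W) :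
    g ^ d * y ∈ GrS g W :=
  AddSubmonoid.subset_closure ⟨d, y, hy, rfl⟩

theorem GrS_mem {g : Fr k n} {W : Submodule k (Fr k n)} {y : Fr k n} (hy : y ∈ W) :
    y ∈ GrS g W := by
  have := GrS_basic (g := g) 0 hy
  rwa [zpow_zero, one_mul] at this

theorem GrS_mul {g : Fr k n} (hg : g ≠ 0) {W W' W'' : Submodule k (Fr k n)}
    (hW : ∀ x ∈ W, ∀ y ∈ W', x * y ∈ W'') {x y : Fr k n} (hx : x ∈ GrS g W) (hy : y ∈ GrS g W') :
    x * y ∈ GrS g W'' := by
  induction hx using AddSubmonoid.closure_induction with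
  | mem x hx =>
    obtain ⟨d, x, hx, rfl⟩ := hx
    induction hy using AddSubmonoid.closure_induction with
    | mem y hy =>
      obtain ⟨e, y, hy, rfl⟩ := hy
      have h1 : g ^ d * x * (g ^ e * y) = g ^ (d + e) * (x * y) := by
        rw [zpow_add₀ hg]; ring
      rw [h1]
      exact GrS_basic _ (hW x hx y hy)
    | zero => rw [mul_zero]; exact zero_mem _
    | add y y' _ _ h1 h2 => rw [mul_add]; exact add_mem h1 h2
  | zero => rw [zero_mul]; exact zero_mem _
  | add x x' _ _ h1 h2 => rw [add_mul]; exact add_mem h1 h2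

theorem GrS_exists {g : Fr k n} {W : Submodule k (Fr k n)} {z : Fr k n} (hz : z ∈ GrS g W) :
    ∃ (F : Finset ℤ) (y : ℤ → Fr k n), (∀ d, y d ∈ W) ∧ z = ∑ d ∈ F, g ^ d * y d := by
  classical
  have h1 : ∃ y : ℤ →₀ Fr k n, (∀ d, y d ∈ W) ∧ z = y.sum (fun d u => g ^ d * u) := by
    induction hz using AddSubmonoid.closure_induction with
    | mem z hz =>
      obtain ⟨d, y, hy, rfl⟩ := hz
      refine ⟨Finsupp.single d y, ?_, ?_⟩
      · intro e
        rw [Finsupp.single_apply]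
        split_ifs
        · exact hy
        · exact zero_mem _
      · rw [Finsupp.sum_single_index (mul_zero _)]
    | zero => exact ⟨0, fun _ => zero_mem _, by simp⟩
    | add x x' _ _ h1 h2 =>
      obtain ⟨y, hy, rfl⟩ := h1
      obtain ⟨y', hy', rfl⟩ := h2
      refine ⟨y + y', fun d => ?_, ?_⟩
      · rw [Finsupp.add_apply]
        exact add_mem (hy d) (hy' d)
      · rw [Finsupp.sum_add_index' (fun _ => mul_zero _) (fun _ _ _ => mul_add _ _ _)]
  obtain ⟨y, hy, h⟩ := h1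
  exact ⟨y.support, y, hy, h⟩

/-- extraction of the degree `m` part -/
theorem GrS_extract {g : Pol k n} (hg : g.IsHomogeneous 1) (hg0 : g ≠ 0)
    {W : Submodule k (Fr k n)} (hW : W ≤ HF k n 0) {m : ℤ} {z : Fr k n}
    (hz : z ∈ GrS (inc k n g) W) (hm : z ∈ HF k n m) : z / inc k n g ^ m ∈ W := by
  classical
  obtain ⟨F, y, hy, hz1⟩ := GrS_exists hz
  have hg1 := inc_ne hg0
  -- make `m` belong to the index set
  have h1 : ∑ d ∈ insert m F, ((if d ∈ F then inc k n g ^ d * y d else 0) -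
      (if d = m then z else 0)) = 0 := by
    rw [Finset.sum_sub_distrib, Finset.sum_ite_eq' (insert m F) m (fun _ => z),
      if_pos (Finset.mem_insert_self m F)]
    rw [← Finset.sum_filter]
    have h2 : (insert m F).filter (fun d => d ∈ F) = F := by
      ext d
      simp only [Finset.mem_filter, Finset.mem_insert]
      constructor
      · exact fun h => h.2
      · exact fun h => ⟨Or.inr h, h⟩
    rw [h2, ← hz1, sub_self]
  have h2 := indep _ _ ?_ h1 m (Finset.mem_insert_self m F)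
  · simp only [if_true] at h2
    have h3 : z = if m ∈ F then inc k n g ^ m * y m else 0 := (sub_eq_zero.mp h2).symm
    rw [h3]
    split_ifs with h4
    · rw [mul_div_cancel_left₀ _ (zpow_ne_zero _ hg1)]
      exact hy m
    · rw [zero_div]; exact zero_mem _
  · intro d _
    refine sub_mem ?_ ?_
    · split_ifs
      · have := HF_mul (HF_zpow hg hg0 d) (hW (hy d))
        rwa [add_zero] at this
      · exact zero_mem _
    · split_ifs with h
      · rw [h]; exact hm
      · exact zero_mem _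

/-! ## The rings -/

section rings

variable {D : Dat k n} {σ : Finset (Fin D.p)} {τ : Finset (Fin D.M)}

theorem P0_le_R : P0 D σ τ ≤ D.R σ τ := by
  refine Algebra.adjoin_le ?_
  rintro z (⟨a, ha, i, rfl⟩ | ⟨b, hb, j, rfl⟩)
  · rw [div_eq_mul_inv]
    refine mul_mem ?_ ?_
    · exact Algebra.subset_adjoin (Or.inl (Or.inl ⟨X i, rfl⟩))
    · exact Algebra.subset_adjoin (Or.inl (Or.inr ⟨a, ha, rfl⟩))
  · exact Algebra.subset_adjoin (Or.inr ⟨b, hb, j, rfl⟩)

theorem zpow_mem_R {a : Fin D.p} (ha : a ∈ σ) (m : ℤ) : inc k n (D.g a) ^ m ∈ D.R σ τ := by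
  rcases le_total 0 m with h | h
  · obtain ⟨e, rfl⟩ := Int.eq_ofNat_of_zero_le h
    rw [zpow_natCast]
    have h1 : inc k n (D.g a) ∈ D.R σ τ := Algebra.subset_adjoin (Or.inl (Or.inl ⟨D.g a, rfl⟩))
    exact pow_mem h1 e
  · obtain ⟨e, he⟩ := Int.eq_ofNat_of_zero_le (neg_nonneg.mpr h)
    have hm : m = -(e : ℤ) := by omega
    rw [hm, zpow_neg, zpow_natCast, ← inv_pow]
    have h1 : (inc k n (D.g a))⁻¹ ∈ D.R σ τ := Algebra.subset_adjoin (Or.inl (Or.inr ⟨a, ha, rfl⟩))
    exact pow_mem h1 e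

theorem J0_le_IR {a : Fin D.p} (ha : a ∈ σ) :
    toF (P0 D σ τ) (genIn (P0 D σ τ) (D.I0 a)) ≤
      toF (D.R σ τ) (genIn (D.R σ τ) (inc k n '' D.I)) := by
  rintro _ ⟨z, hz, rfl⟩
  change (z : Fr k n) ∈ _
  have hz' : z ∈ genIn (P0 D σ τ) (D.I0 a) := hz
  unfold genIn at hz'
  clear hz
  induction hz' using Submodule.span_induction with
  | mem z hz =>
    obtain ⟨d, w, hw, hwd, hz1⟩ := hz
    rw [hz1]
    have h1 : (inc k n (D.g a) ^ (-(d : ℤ))) ∈ D.R σ τ := zpow_mem_R ha _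
    have h2 : inc k n w ∈ D.R σ τ := Algebra.subset_adjoin (Or.inl (Or.inl ⟨w, rfl⟩))
    refine ⟨⟨_, h1⟩ * ⟨_, h2⟩, ?_, ?_⟩
    · refine Ideal.mul_mem_left _ _ (Ideal.subset_span ?_)
      exact ⟨w, hw, rfl⟩
    · change inc k n (D.g a) ^ (-(d : ℤ)) * inc k n w = _
      rw [zpow_neg, zpow_natCast, div_eq_inv_mul]
  | zero => exact zero_mem _
  | add x y _ _ hx hy => exact add_mem hx hy
  | smul r x _ hx =>
    obtain ⟨y, hy, hy1⟩ := hx
    refine ⟨⟨(r : Fr k n), P0_le_R r.2⟩ * y, Ideal.mul_mem_left _ _ hy, ?_⟩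
    change (r : Fr k n) * (y : Fr k n) = (r : Fr k n) * (x : Fr k n)
    have h3 : (y : Fr k n) = (x : Fr k n) := hy1
    rw [h3]

variable (hD : D.Good)
include hD

theorem P0_le_HF : (P0 D σ τ).toSubmodule ≤ HF k n 0 := by
  intro z hz
  change z ∈ P0 D σ τ at hz
  unfold P0 at hz
  induction hz using Algebra.adjoin_induction with
  | mem z hz =>
    rcases hz with ⟨a, _, i, rfl⟩ | ⟨b, _, j, rfl⟩
    · have := HF_quot (isHomogeneous_X k i) (hD.g_hom a) (hD.g_ne a)
      simpa using this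
    · have := HF_quot (hD.f_hom j) (hD.f_hom b) (hD.f_ne b)
      rwa [sub_self] at this
  | algebraMap c =>
    rw [Algebra.algebraMap_eq_smul_one]
    exact Submodule.smul_mem _ _ HF_one
  | add x y _ _ hx hy => exact add_mem hx hy
  | mul x y _ _ hx hy =>
    have := HF_mul hx hy
    rwa [add_zero] at this

theorem J0_le_HF {a : Fin D.p} :
    toF (P0 D σ τ) (genIn (P0 D σ τ) (D.I0 a)) ≤ HF k n 0 := by
  rintro _ ⟨z, _, rfl⟩
  exact P0_le_HF hD z.2

theorem inc_mem_GrS {a : Fin D.p} {W : Submodule k (Fr k n)} (w : Pol k n)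
    (hW : ∀ d : ℕ, inc k n (homogeneousComponent d w) / inc k n (D.g a) ^ d ∈ W) :
    inc k n w ∈ GrS (inc k n (D.g a)) W := by
  have h1 : w = ∑ d ∈ Finset.range (w.totalDegree + 1), homogeneousComponent d w :=
    (sum_homogeneousComponent w).symm
  rw [h1, map_sum]
  refine sum_mem (fun d _ => ?_)
  have h2 := GrS_basic (g := inc k n (D.g a)) (d : ℤ) (hW d)
  rwa [zpow_natCast, mul_div_cancel₀ _ (pow_ne_zero _ (inc_ne (hD.g_ne a)))] at h2

variable (hIJ : Stmt_IJ.{u})
include hIJ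

theorem inc_div_mem {a : Fin D.p} (ha : a ∈ σ) {w : Pol k n} {d : ℕ} (hw : w.IsHomogeneous d) :
    inc k n w / inc k n (D.g a) ^ d ∈ P0 D σ τ :=
  (hIJ k n D hD a (P0 D σ τ)).2.1 (fun i => Algebra.subset_adjoin (Or.inl ⟨a, ha, i, rfl⟩)) w d hw

theorem R_le_GrS {a : Fin D.p} (ha : a ∈ σ) {z : Fr k n} (hz : z ∈ D.R σ τ) :
    z ∈ GrS (inc k n (D.g a)) (P0 D σ τ).toSubmodule := by
  have hg1 := inc_ne (hD.g_ne a)
  unfold Dat.R at hz
  induction hz using Algebra.adjoin_induction with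
  | mem z hz =>
    rcases hz with (⟨w, rfl⟩ | ⟨a', ha', rfl⟩) | ⟨b, hb, j, rfl⟩
    · refine inc_mem_GrS hD w (fun d => ?_)
      exact inc_div_mem hD hIJ ha (homogeneousComponent_isHomogeneous d w)
    · have h1 : inc k n (D.g a) / inc k n (D.g a') ^ 1 ∈ P0 D σ τ :=
        inc_div_mem hD hIJ ha' (hD.g_hom a)
      have h2 := GrS_basic (g := inc k n (D.g a)) (W := (P0 D σ τ).toSubmodule) (-1) h1
      rwa [pow_one, zpow_neg_one, ← mul_div_assoc, inv_mul_cancel₀ hg1, one_div] at h2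
    · exact GrS_mem (Algebra.subset_adjoin (Or.inr ⟨b, hb, j, rfl⟩))
  | algebraMap c => exact GrS_mem (Subalgebra.algebraMap_mem _ c)
  | add x y _ _ hx hy => exact add_mem hx hy
  | mul x y _ _ hx hy => exact GrS_mul hg1 (fun x hx y hy => (P0 D σ τ).mul_mem hx hy) hx hy

theorem IR_le_GrS {a : Fin D.p} (ha : a ∈ σ) {z : Fr k n}
    (hz : z ∈ toF (D.R σ τ) (genIn (D.R σ τ) (inc k n '' D.I))) :
    z ∈ GrS (inc k n (D.g a)) (toF (P0 D σ τ) (genIn (P0 D σ τ) (D.I0 a))) := by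
  have hg1 := inc_ne (hD.g_ne a)
  obtain ⟨z, hz, rfl⟩ := hz
  change (z : Fr k n) ∈ _
  have hz' : z ∈ genIn (D.R σ τ) (inc k n '' D.I) := hz
  unfold genIn at hz'
  clear hz
  induction hz' using Submodule.span_induction with
  | mem z hz =>
    obtain ⟨w, hw, hz1⟩ := hz
    rw [← hz1]
    refine inc_mem_GrS hD w (fun d => ?_)
    have h1 : inc k n (homogeneousComponent d w) / inc k n (D.g a) ^ d ∈ P0 D σ τ :=
      inc_div_mem hD hIJ ha (homogeneousComponent_isHomogeneous d w)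
    refine ⟨⟨_, h1⟩, ?_, rfl⟩
    refine Ideal.subset_span ?_
    exact ⟨d, homogeneousComponent d w, hD.I_hom w hw d, homogeneousComponent_isHomogeneous d w,
      rfl⟩
  | zero => exact zero_mem _
  | add x y _ _ hx hy => exact add_mem hx hy
  | smul r x _ hx =>
    change ((r : Fr k n) * (x : Fr k n)) ∈ _
    refine GrS_mul hg1 (W := (P0 D σ τ).toSubmodule) ?_ (R_le_GrS hD hIJ ha r.2) hx
    rintro x hx _ ⟨y, hy, rfl⟩
    exact ⟨⟨x, hx⟩ * y, Ideal.mul_mem_left _ _ hy, rfl⟩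

/-- The degree `m` part of `I R`. -/
theorem mem_IR_iff {a : Fin D.p} (ha : a ∈ σ) (m : ℤ) (z : Fr k n) :
    z ∈ toF (D.R σ τ) (genIn (D.R σ τ) (inc k n '' D.I)) ⊓ HF k n m ↔
      z / inc k n (D.g a) ^ m ∈ toF (P0 D σ τ) (genIn (P0 D σ τ) (D.I0 a)) := by
  have hg1 := inc_ne (hD.g_ne a)
  constructor
  · rintro ⟨h1, h2⟩
    exact GrS_extract (hD.g_hom a) (hD.g_ne a) (J0_le_HF hD) (IR_le_GrS hD hIJ ha h1) h2
  · intro h
    have h1 : z = inc k n (D.g a) ^ m * (z / inc k n (D.g a) ^ m) :=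
      (mul_div_cancel₀ _ (zpow_ne_zero _ hg1)).symm
    have h2 := HF_mul (HF_zpow (hD.g_hom a) (hD.g_ne a) m) (J0_le_HF hD h)
    rw [add_zero, ← h1] at h2
    refine ⟨?_, h2⟩
    obtain ⟨y, hy, hy1⟩ := J0_le_IR ha h
    refine ⟨⟨_, zpow_mem_R ha m⟩ * y, Ideal.mul_mem_left _ _ hy, ?_⟩
    change inc k n (D.g a) ^ m * (y : Fr k n) = z
    have h3 : (y : Fr k n) = z / inc k n (D.g a) ^ m := hy1
    rw [h3, ← h1]

end rings

end EG0_

open EG0_ in
theorem eg0_proof (hIJ : Stmt_IJ.{u}) : Stmt_EG0.{u} := by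
  intro k _ n D hD σ a ha m z
  unfold Dat.Eg Dat.E
  rw [if_pos rfl]
  exact mem_IR_iff hD hIJ ha m z

end

end Pool.Agent.DBX.SUR
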