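import Pool.Agent.DBX.SUR.Stmts

set_option autoImplicit false

/-! # MP_2c751f_ag, squad DBX, area SUR, module EG1: graded parts, `τ` nonempty -/

namespace Pool.Agent.DBX.SUR

open MvPolynomial

noncomputable section

universe u

namespace EG1_

variable {k : Type u} [Field k] {n : ℕ}

/-! ## homogeneous fractions -/

theorem hf_mul {m m' : ℤ} {z z' : Fr k n} (h : z ∈ HF k n m) (h' : z' ∈ HF k n m') :
    z * z' ∈ HF k n (m + m') := by
  obtain ⟨a, b, i, j, ha, hb, hb0, hm, rfl⟩ := h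
  obtain ⟨a', b', i', j', ha', hb', hb0', hm', rfl⟩ := h'
  refine ⟨a * a', b * b', i + i', j + j', ha.mul ha', hb.mul hb', mul_ne_zero hb0 hb0', ?_, ?_⟩
  · intro h
    have h1 := hm (left_ne_zero_of_mul h)
    have h2 := hm' (right_ne_zero_of_mul h)
    push_cast; omega
  · rw [map_mul, map_mul, div_mul_div_comm]

theorem hf_one : (1 : Fr k n) ∈ HF k n 0 :=
  ⟨1, 1, 0, 0, isHomogeneous_one _ _, isHomogeneous_one _ _, one_ne_zero, fun _ => by simp,
    by simp⟩

theorem hf_div {w g : Pol k n} {i j : ℕ} (hw : w.IsHomogeneous i) (hg : g.IsHomogeneous j)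
    (hg0 : g ≠ 0) {m : ℤ} (hm : (i : ℤ) - j = m) : inc k n w / inc k n g ∈ HF k n m :=
  ⟨w, g, i, j, hw, hg, hg0, fun _ => hm, rfl⟩

theorem hf_zpow {g : Pol k n} (hg : g.IsHomogeneous 1) (hg0 : g ≠ 0) (d : ℤ) :
    inc k n g ^ d ∈ HF k n d := by
  rcases Int.eq_nat_or_neg d with ⟨e, rfl | rfl⟩
  · have h1 := hg.pow e
    rw [one_mul] at h1
    have h := hf_div (k := k) (n := n) h1 (isHomogeneous_one _ _) one_ne_zero
      (m := (e : ℤ)) (by simp)
    rwa [map_one, div_one, map_pow, ← zpow_natCast] at h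
  · have h1 := hg.pow e
    rw [one_mul] at h1
    have h := hf_div (k := k) (n := n) (isHomogeneous_one _ _) h1 (pow_ne_zero e hg0)
      (m := (-(e : ℤ))) (by simp)
    rwa [map_one, one_div, map_pow, ← zpow_natCast, ← zpow_neg] at h

theorem hf_clear (T : Finset ℤ) (x : ℤ → Fr k n) (hx : ∀ m ∈ T, x m ∈ HF k n m) :
    ∃ (Q : Pol k n) (e : ℕ) (P : ℤ → Pol k n), Q ≠ 0 ∧ Q.IsHomogeneous e ∧
      (∀ m ∈ T, x m * inc k n Q = inc k n (P m)) ∧
      ∀ m ∈ T, P m ≠ 0 → ∃ d : ℕ, (d : ℤ) = m + e ∧ (P m).IsHomogeneous d := by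
  classical
  induction T using Finset.induction_on with
  | empty =>
    exact ⟨1, 0, fun _ => 0, one_ne_zero, isHomogeneous_one _ _,
      fun m hm => absurd hm (Finset.notMem_empty m), fun m hm => absurd hm (Finset.notMem_empty m)⟩
  | insert c T hc ih =>
    obtain ⟨Q, e, P, hQ, hQe, hP, hPd⟩ := ih (fun m hm => hx m (Finset.mem_insert_of_mem hm))
    obtain ⟨a, b, i, j, ha, hb, hb0, hm, hz⟩ := hx c (Finset.mem_insert_self c T)
    refine ⟨Q * b, e + j, fun m => if m = c then a * Q else P m * b, mul_ne_zero hQ hb0,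
      hQe.mul hb, ?_, ?_⟩
    · intro m hmT
      by_cases h : m = c
      · subst h
        simp only [if_true]
        rw [hz, map_mul, map_mul]
        have := inc_ne hb0
        field_simp
      · simp only [if_neg h]
        have h1 : m ∈ T := (Finset.mem_insert.mp hmT).resolve_left h
        rw [map_mul, ← mul_assoc, hP m h1, map_mul]
    · intro m hmT
      by_cases h : m = c
      · subst h
        simp only [if_true]
        intro h0
        have h1 := hm (left_ne_zero_of_mul h0)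
        exact ⟨i + e, by push_cast; omega, ha.mul hQe⟩
      · simp only [if_neg h]
        intro h0
        have h1 : m ∈ T := (Finset.mem_insert.mp hmT).resolve_left h
        obtain ⟨d, hd, hd2⟩ := hPd m h1 (left_ne_zero_of_mul h0)
        exact ⟨d + j, by push_cast; omega, hd2.mul hb⟩

theorem hfi (T : Finset ℤ) (x : ℤ → Fr k n) (hx : ∀ m ∈ T, x m ∈ HF k n m)
    (h0 : ∑ m ∈ T, x m = 0) : ∀ m ∈ T, x m = 0 := by
  classical
  obtain ⟨Q, e, P, hQ, _, hP, hPd⟩ := hf_clear T x hx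
  have h1 : ∑ m ∈ T, P m = 0 := by
    apply IsFractionRing.injective (Pol k n) (Fr k n)
    rw [map_zero, map_sum, ← Finset.sum_congr rfl hP, ← Finset.sum_mul, h0, zero_mul]
  intro m hm
  by_contra hne
  have hPm : P m ≠ 0 := by
    intro h
    have h2 := hP m hm
    rw [h, map_zero] at h2
    exact hne ((mul_eq_zero.mp h2).resolve_right (inc_ne hQ))
  obtain ⟨d, hd, hd2⟩ := hPd m hm hPm
  have h3 := congrArg (homogeneousComponent d) h1
  rw [map_zero, map_sum, Finset.sum_eq_single m] at h3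
  · rw [homogeneousComponent_of_mem hd2, if_pos rfl] at h3
    exact hPm h3
  · intro m' hm' hmm
    by_cases h4 : P m' = 0
    · rw [h4, map_zero]
    · obtain ⟨d', hd', hd2'⟩ := hPd m' hm' h4
      rw [homogeneousComponent_of_mem hd2', if_neg]
      intro h5
      apply hmm
      omega
  · intro h; exact absurd hm h

/-! ## sums `∑ g^d y_d` -/

/-- finite sums `∑ g^d y_d` with `y_d ∈ N` -/
def Gr (g : Fr k n) (N : Submodule k (Fr k n)) : Submodule k (Fr k n) where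
  carrier := {x | ∃ (T : Finset ℤ) (y : ℤ → Fr k n), (∀ d, y d ∈ N) ∧ x = ∑ d ∈ T, g ^ d * y d}
  zero_mem' := ⟨∅, fun _ => 0, fun _ => N.zero_mem, by simp⟩
  add_mem' := by
    classical
    rintro x x' ⟨T, y, hy, rfl⟩ ⟨T', y', hy', rfl⟩
    refine ⟨T ∪ T', fun d => (if d ∈ T then y d else 0) + (if d ∈ T' then y' d else 0), ?_, ?_⟩
    · intro c
      refine N.add_mem ?_ ?_
      · split_ifs
        · exact hy c
        · exact N.zero_mem
      · split_ifs
        · exact hy' c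
        · exact N.zero_mem
    · have e1 : ∑ c ∈ T, g ^ c * y c = ∑ c ∈ T ∪ T', g ^ c * (if c ∈ T then y c else 0) := by
        rw [← Finset.sum_subset (Finset.subset_union_left (s₁ := T) (s₂ := T'))]
        · exact Finset.sum_congr rfl (fun c hc => by rw [if_pos hc])
        · intro c _ hc
          rw [if_neg hc, mul_zero]
      have e2 : ∑ c ∈ T', g ^ c * y' c = ∑ c ∈ T ∪ T', g ^ c * (if c ∈ T' then y' c else 0) := by
        rw [← Finset.sum_subset (Finset.subset_union_right (s₁ := T) (s₂ := T'))]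
        · exact Finset.sum_congr rfl (fun c hc => by rw [if_pos hc])
        · intro c _ hc
          rw [if_neg hc, mul_zero]
      rw [e1, e2, ← Finset.sum_add_distrib]
      exact Finset.sum_congr rfl (fun c _ => by rw [mul_add])
  smul_mem' := by
    rintro c x ⟨T, y, hy, rfl⟩
    refine ⟨T, fun d => c • y d, fun d => N.smul_mem c (hy d), ?_⟩
    rw [Finset.smul_sum]
    exact Finset.sum_congr rfl (fun d _ => by rw [mul_smul_comm])

theorem gr_single {g : Fr k n} {N : Submodule k (Fr k n)} (d : ℤ) {y : Fr k n} (hy : y ∈ N) :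
    g ^ d * y ∈ Gr g N :=
  ⟨{d}, fun _ => y, fun _ => hy, by simp⟩

theorem gr_of_mem {g : Fr k n} {N : Submodule k (Fr k n)} {y : Fr k n} (hy : y ∈ N) :
    y ∈ Gr g N := by
  have := gr_single (g := g) 0 hy
  rwa [zpow_zero, one_mul] at this

theorem gr_mul {g : Fr k n} (hg : g ≠ 0) {P N : Submodule k (Fr k n)}
    (hPN : ∀ r ∈ P, ∀ x ∈ N, r * x ∈ N) {x x' : Fr k n} (hx : x ∈ Gr g P) (hx' : x' ∈ Gr g N) :
    x * x' ∈ Gr g N := by
  obtain ⟨T, y, hy, rfl⟩ := hx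
  obtain ⟨T', y', hy', rfl⟩ := hx'
  rw [Finset.sum_mul_sum]
  refine Submodule.sum_mem _ (fun d _ => Submodule.sum_mem _ (fun e _ => ?_))
  have h1 : g ^ d * y d * (g ^ e * y' e) = g ^ (d + e) * (y d * y' e) := by
    rw [zpow_add₀ hg]; ring
  rw [h1]
  exact gr_single _ (hPN _ (hy d) _ (hy' e))

theorem gr_zero {g : Pol k n} (hg : g.IsHomogeneous 1) (hg0 : g ≠ 0)
    {N : Submodule k (Fr k n)} (hN : ∀ x ∈ N, x ∈ HF k n 0) {x : Fr k n}
    (hx : x ∈ Gr (inc k n g) N) (hx0 : x ∈ HF k n 0) : x ∈ N := by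
  classical
  obtain ⟨T, y, hy, hxy⟩ := hx
  let y1 : ℤ → Fr k n := fun d => if d ∈ T then y d else 0
  have hy1 : ∀ d, y1 d ∈ N := by
    intro d
    simp only [y1]
    split_ifs
    · exact hy d
    · exact N.zero_mem
  have hx1 : x = ∑ d ∈ insert 0 T, inc k n g ^ d * y1 d := by
    rw [hxy, ← Finset.sum_subset (Finset.subset_insert 0 T)]
    · exact Finset.sum_congr rfl (fun c hc => by simp only [y1]; rw [if_pos hc])
    · intro c _ hc
      simp only [y1]
      rw [if_neg hc, mul_zero]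
  have h2 : ∑ d ∈ insert 0 T, (inc k n g ^ d * y1 d - if d = 0 then x else 0) = 0 := by
    rw [Finset.sum_sub_distrib, ← hx1, Finset.sum_ite_eq', if_pos (Finset.mem_insert_self 0 T),
      sub_self]
  have h3 := hfi (insert 0 T) (fun d => inc k n g ^ d * y1 d - if d = 0 then x else 0)
    (fun d _ => by
      have h4 := hf_mul (hf_zpow hg hg0 d) (hN _ (hy1 d))
      rw [add_zero] at h4
      refine Submodule.sub_mem _ h4 ?_
      split_ifs with h5
      · rw [h5]; exact hx0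
      · exact Submodule.zero_mem _) h2 0 (Finset.mem_insert_self 0 T)
  simp only [if_true, zpow_zero, one_mul] at h3
  rw [← sub_eq_zero.mp h3]
  exact hy1 0

/-! ## the rings -/

theorem P0_le_R (D : Dat k n) (σ : Finset (Fin D.p)) (τ : Finset (Fin D.M)) :
    P0 D σ τ ≤ D.R σ τ := by
  unfold P0
  apply Algebra.adjoin_le
  rintro z (⟨a, ha, i, rfl⟩ | ⟨b, hb, j, rfl⟩)
  · show _ ∈ D.R σ τ
    rw [div_eq_mul_inv]
    refine mul_mem ?_ ?_
    · exact Algebra.subset_adjoin (Or.inl (Or.inl ⟨_, rfl⟩))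
    · exact Algebra.subset_adjoin (Or.inl (Or.inr ⟨a, ha, rfl⟩))
  · exact Algebra.subset_adjoin (Or.inr ⟨b, hb, j, rfl⟩)

theorem P0_hf (D : Dat k n) (hD : D.Good) (σ : Finset (Fin D.p)) (τ : Finset (Fin D.M)) :
    ∀ x ∈ P0 D σ τ, x ∈ HF k n 0 := by
  intro x hx
  unfold P0 at hx
  induction hx using Algebra.adjoin_induction with
  | mem x hx =>
    rcases hx with ⟨a, ha, i, rfl⟩ | ⟨b, hb, j, rfl⟩
    · exact hf_div (isHomogeneous_X k i) (hD.g_hom a) (hD.g_ne a) (by simp)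
    · exact hf_div (hD.f_hom j) (hD.f_hom b) (hD.f_ne b) (by simp)
  | algebraMap r =>
    rw [Algebra.algebraMap_eq_smul_one]
    exact Submodule.smul_mem _ _ hf_one
  | add x y _ _ hx hy => exact Submodule.add_mem _ hx hy
  | mul x y _ _ hx hy =>
    have := hf_mul hx hy
    rwa [add_zero] at this

theorem R_gr (hIJ : Stmt_IJ.{u}) (D : Dat k n) (hD : D.Good) (σ : Finset (Fin D.p))
    (τ : Finset (Fin D.M)) (a : Fin D.p) (ha : a ∈ σ) :
    ∀ x ∈ D.R σ τ, x ∈ Gr (inc k n (D.g a)) (Subalgebra.toSubmodule (P0 D σ τ)) := by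
  have hg0 : inc k n (D.g a) ≠ 0 := inc_ne (hD.g_ne a)
  have hX : ∀ a' ∈ σ, ∀ i, inc k n (X i) / inc k n (D.g a') ∈ P0 D σ τ := fun a' ha' i =>
    Algebra.subset_adjoin (Or.inl ⟨a', ha', i, rfl⟩)
  have hmul : ∀ {x y : Fr k n}, x ∈ Gr (inc k n (D.g a)) (Subalgebra.toSubmodule (P0 D σ τ)) →
      y ∈ Gr (inc k n (D.g a)) (Subalgebra.toSubmodule (P0 D σ τ)) →
      x * y ∈ Gr (inc k n (D.g a)) (Subalgebra.toSubmodule (P0 D σ τ)) := by
    intro x y hx hy
    exact gr_mul hg0 (fun r hr x hx => mul_mem (S := Subalgebra k (Fr k n)) hr hx) hx hy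
  have hpol : ∀ p : Pol k n, inc k n p ∈ Gr (inc k n (D.g a))
      (Subalgebra.toSubmodule (P0 D σ τ)) := by
    intro p
    induction p using MvPolynomial.induction_on with
    | C c =>
      apply gr_of_mem
      have h1 : inc k n (C c) = algebraMap k (Fr k n) c := rfl
      rw [h1]
      exact (P0 D σ τ).algebraMap_mem c
    | add p q hp hq => rw [map_add]; exact Submodule.add_mem _ hp hq
    | mul_X p i hp =>
      rw [map_mul]
      refine hmul hp ?_
      have h1 : inc k n (X i) = inc k n (D.g a) ^ (1 : ℤ) * (inc k n (X i) / inc k n (D.g a)) := by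
        rw [zpow_one, mul_div_cancel₀ _ hg0]
      rw [h1]
      exact gr_single 1 (hX a ha i)
  intro x hx
  unfold Dat.R at hx
  induction hx using Algebra.adjoin_induction with
  | mem x hx =>
    rcases hx with (⟨p, rfl⟩ | ⟨a', ha', rfl⟩) | ⟨b, hb, j, rfl⟩
    · exact hpol p
    · have h1 : (inc k n (D.g a'))⁻¹ =
          inc k n (D.g a) ^ (-1 : ℤ) * (inc k n (D.g a) / inc k n (D.g a')) := by
        rw [zpow_neg, zpow_one, div_eq_mul_inv, inv_mul_cancel_left₀ hg0]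
      rw [h1]
      apply gr_single
      have h2 := (hIJ k n D hD a' (P0 D σ τ)).2.1 (hX a' ha') (D.g a) 1 (hD.g_hom a)
      rwa [pow_one] at h2
    · exact gr_of_mem (Algebra.subset_adjoin (Or.inr ⟨b, hb, j, rfl⟩))
  | algebraMap r => exact gr_of_mem ((P0 D σ τ).algebraMap_mem r)
  | add x y _ _ hx hy => exact Submodule.add_mem _ hx hy
  | mul x y _ _ hx hy => exact hmul hx hy

/-- the ideal -/
theorem I_gr (hIJ : Stmt_IJ.{u}) (D : Dat k n) (hD : D.Good) (σ : Finset (Fin D.p))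
    (τ : Finset (Fin D.M)) (a : Fin D.p) (ha : a ∈ σ) :
    ∀ x ∈ toF (D.R σ τ) (genIn (D.R σ τ) (inc k n '' D.I)),
      x ∈ Gr (inc k n (D.g a)) (toF (P0 D σ τ) (genIn (P0 D σ τ) (D.I0 a))) := by
  have hg0 : inc k n (D.g a) ≠ 0 := inc_ne (hD.g_ne a)
  have hX : ∀ i, inc k n (X i) / inc k n (D.g a) ∈ P0 D σ τ := fun i =>
    Algebra.subset_adjoin (Or.inl ⟨a, ha, i, rfl⟩)
  have hsub := (hIJ k n D hD a (P0 D σ τ)).1 hX
  have hid : ∀ r ∈ Subalgebra.toSubmodule (P0 D σ τ),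
      ∀ x ∈ toF (P0 D σ τ) (genIn (P0 D σ τ) (D.I0 a)),
      r * x ∈ toF (P0 D σ τ) (genIn (P0 D σ τ) (D.I0 a)) := by
    rintro r hr x ⟨y, hy, rfl⟩
    exact ⟨⟨r, hr⟩ * y, Ideal.mul_mem_left _ _ hy, rfl⟩
  have hI : ∀ w ∈ D.I, inc k n w ∈ Gr (inc k n (D.g a))
      (toF (P0 D σ τ) (genIn (P0 D σ τ) (D.I0 a))) := by
    intro w hw
    rw [← sum_homogeneousComponent w, map_sum]
    refine Submodule.sum_mem _ (fun d _ => ?_)
    have h1 : inc k n (homogeneousComponent d w) = inc k n (D.g a) ^ (d : ℤ) *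
        (inc k n (homogeneousComponent d w) / inc k n (D.g a) ^ d) := by
      rw [zpow_natCast, mul_div_cancel₀ _ (pow_ne_zero d hg0)]
    rw [h1]
    apply gr_single
    have h2 : inc k n (homogeneousComponent d w) / inc k n (D.g a) ^ d ∈ D.I0 a :=
      ⟨d, homogeneousComponent d w, hD.I_hom w hw d, homogeneousComponent_isHomogeneous d w, rfl⟩
    exact ⟨⟨_, hsub h2⟩, Ideal.subset_span h2, rfl⟩
  have key : ∀ z : D.R σ τ, z ∈ genIn (D.R σ τ) (inc k n '' D.I) → (z : Fr k n) ∈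
      Gr (inc k n (D.g a)) (toF (P0 D σ τ) (genIn (P0 D σ τ) (D.I0 a))) := by
    intro z hz
    unfold genIn at hz
    induction hz using Submodule.span_induction with
    | mem z hz =>
      obtain ⟨w, hw, hwz⟩ := hz
      rw [← hwz]
      exact hI w hw
    | zero => exact Submodule.zero_mem _
    | add y z _ _ hy hz => exact Submodule.add_mem _ hy hz
    | smul r z _ hz =>
      have h1 : ((r • z : D.R σ τ) : Fr k n) = (r : Fr k n) * (z : Fr k n) := rfl
      rw [h1]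
      exact gr_mul hg0 hid (R_gr hIJ D hD σ τ a ha _ r.2) hz
  rintro x ⟨z, hz, rfl⟩
  exact key z hz

/-- `(I0 a) P0 ⊆ I R` -/
theorem ideal_up (_hIJ : Stmt_IJ.{u}) (D : Dat k n) (hD : D.Good) (σ : Finset (Fin D.p))
    (τ : Finset (Fin D.M)) (a : Fin D.p) (ha : a ∈ σ) :
    ∀ x ∈ toF (P0 D σ τ) (genIn (P0 D σ τ) (D.I0 a)),
      x ∈ toF (D.R σ τ) (genIn (D.R σ τ) (inc k n '' D.I)) := by
  have hg0 : inc k n (D.g a) ≠ 0 := inc_ne (hD.g_ne a)
  have hinv : (inc k n (D.g a))⁻¹ ∈ D.R σ τ := Algebra.subset_adjoin (Or.inl (Or.inr ⟨a, ha, rfl⟩))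
  have key : ∀ z : P0 D σ τ, z ∈ genIn (P0 D σ τ) (D.I0 a) → (z : Fr k n) ∈
      toF (D.R σ τ) (genIn (D.R σ τ) (inc k n '' D.I)) := by
    intro z hz
    unfold genIn at hz
    induction hz using Submodule.span_induction with
    | mem z hz =>
      obtain ⟨d, w, hw, _, hwz⟩ := hz
      rw [hwz]
      have hwR : inc k n w ∈ D.R σ τ := Algebra.subset_adjoin (Or.inl (Or.inl ⟨w, rfl⟩))
      refine ⟨⟨(inc k n (D.g a))⁻¹ ^ d, pow_mem hinv d⟩ * ⟨inc k n w, hwR⟩, ?_, ?_⟩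
      · exact Ideal.mul_mem_left _ _ (Ideal.subset_span ⟨w, hw, rfl⟩)
      · show (inc k n (D.g a))⁻¹ ^ d * inc k n w = inc k n w / inc k n (D.g a) ^ d
        rw [inv_pow, div_eq_mul_inv, mul_comm]
    | zero => exact Submodule.zero_mem _
    | add y z _ _ hy hz => exact Submodule.add_mem _ hy hz
    | smul r z _ hz =>
      obtain ⟨y, hy, hyz⟩ := hz
      refine ⟨⟨(r : Fr k n), P0_le_R D σ τ r.2⟩ * y, Ideal.mul_mem_left _ _ hy, ?_⟩
      have h1 : ((r • z : P0 D σ τ) : Fr k n) = (r : Fr k n) * (z : Fr k n) := rfl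
      rw [h1, ← hyz]
      rfl
  rintro x ⟨z, hz, rfl⟩
  exact key z hz

theorem zpow_mem_R (D : Dat k n) (σ : Finset (Fin D.p)) (τ : Finset (Fin D.M)) (a : Fin D.p)
    (ha : a ∈ σ) (m : ℤ) : inc k n (D.g a) ^ m ∈ D.R σ τ := by
  have h1 : inc k n (D.g a) ∈ D.R σ τ := Algebra.subset_adjoin (Or.inl (Or.inl ⟨_, rfl⟩))
  have h2 : (inc k n (D.g a))⁻¹ ∈ D.R σ τ := Algebra.subset_adjoin (Or.inl (Or.inr ⟨a, ha, rfl⟩))
  rcases Int.eq_nat_or_neg m with ⟨e, rfl | rfl⟩
  · rw [zpow_natCast]; exact pow_mem h1 e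
  · rw [zpow_neg, zpow_natCast, ← inv_pow]; exact pow_mem h2 e

end EG1_

open EG1_ in
theorem eg1_proof.{v} (hIJ : Stmt_IJ.{v}) : Stmt_EG1.{v} := by
  classical
  intro k _ n D hD σ τ a ha hτ m z
  have hg0 : inc k n (D.g a) ≠ 0 := inc_ne (hD.g_ne a)
  have hgm : inc k n (D.g a) ^ m ≠ 0 := zpow_ne_zero m hg0
  have hE : D.E σ τ = toF (D.R σ τ) (genIn (D.R σ τ) (inc k n '' D.I)).radical := by
    unfold Dat.E
    rw [if_neg hτ.ne_empty]
  have hNHF : ∀ x ∈ toF (P0 D σ τ) (genIn (P0 D σ τ) (D.I0 a)), x ∈ HF k n 0 := by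
    rintro x ⟨y, _, rfl⟩
    exact P0_hf D hD σ τ _ y.2
  constructor
  · rintro ⟨hz1, hz2⟩
    have hz1' : z ∈ toF (D.R σ τ) (genIn (D.R σ τ) (inc k n '' D.I)).radical := hE ▸ hz1
    obtain ⟨Z, hZ, hZz⟩ := hz1'
    have hZ' : Z ∈ (genIn (D.R σ τ) (inc k n '' D.I)).radical := hZ
    obtain ⟨K, hK⟩ := Ideal.mem_radical_iff.mp hZ'
    have hZz' : (Z : Fr k n) = z := hZz
    have hy0 : z / inc k n (D.g a) ^ m ∈ HF k n 0 := by
      have h1 := hf_mul hz2 (hf_zpow (hD.g_hom a) (hD.g_ne a) (-m))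
      rwa [add_neg_cancel, zpow_neg, ← div_eq_mul_inv] at h1
    have hyR : z / inc k n (D.g a) ^ m ∈ D.R σ τ := by
      rw [div_eq_mul_inv, ← zpow_neg, ← hZz']
      exact mul_mem Z.2 (zpow_mem_R D σ τ a ha (-m))
    have hyP : z / inc k n (D.g a) ^ m ∈ P0 D σ τ := by
      have h1 := gr_zero (hD.g_hom a) (hD.g_ne a)
        (N := Subalgebra.toSubmodule (P0 D σ τ)) (P0_hf D hD σ τ) (R_gr hIJ D hD σ τ a ha _ hyR) hy0
      exact h1
    refine ⟨⟨_, hyP⟩, ?_, rfl⟩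
    show (⟨z / inc k n (D.g a) ^ m, hyP⟩ : P0 D σ τ) ∈ (genIn (P0 D σ τ) (D.I0 a)).radical
    rw [Ideal.mem_radical_iff]
    refine ⟨K, ?_⟩
    have hyK : (z / inc k n (D.g a) ^ m) ^ K ∈
        toF (D.R σ τ) (genIn (D.R σ τ) (inc k n '' D.I)) := by
      refine ⟨⟨(inc k n (D.g a) ^ (-m)) ^ K, pow_mem (zpow_mem_R D σ τ a ha (-m)) K⟩ * Z ^ K,
        Ideal.mul_mem_left _ _ hK, ?_⟩
      show (inc k n (D.g a) ^ (-m)) ^ K * (Z : Fr k n) ^ K = _
      rw [hZz', ← mul_pow, zpow_neg, div_eq_mul_inv, mul_comm z]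
    have hyK0 : (z / inc k n (D.g a) ^ m) ^ K ∈ HF k n 0 := by
      have : ∀ K : ℕ, (z / inc k n (D.g a) ^ m) ^ K ∈ HF k n 0 := by
        intro K
        induction K with
        | zero => rw [pow_zero]; exact hf_one
        | succ K ih =>
          rw [pow_succ]
          have := hf_mul ih hy0
          rwa [add_zero] at this
      exact this K
    have h2 := gr_zero (hD.g_hom a) (hD.g_ne a) hNHF (I_gr hIJ D hD σ τ a ha _ hyK) hyK0
    obtain ⟨Y, hY, hYe⟩ := h2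
    have h3 : (⟨z / inc k n (D.g a) ^ m, hyP⟩ : P0 D σ τ) ^ K = Y := by
      apply Subtype.ext
      exact hYe.symm
    rw [h3]
    exact hY
  · rintro ⟨Y, hY, hYz⟩
    have hYz' : (Y : Fr k n) = z / inc k n (D.g a) ^ m := hYz
    have hz : z = inc k n (D.g a) ^ m * (Y : Fr k n) := by
      rw [hYz', mul_div_cancel₀ _ hgm]
    have hY' : Y ∈ (genIn (P0 D σ τ) (D.I0 a)).radical := hY
    obtain ⟨K, hK⟩ := Ideal.mem_radical_iff.mp hY'
    refine ⟨?_, ?_⟩
    · show z ∈ D.E σ τ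
      rw [hE]
      have hYR : (Y : Fr k n) ∈ D.R σ τ := P0_le_R D σ τ Y.2
      refine ⟨⟨inc k n (D.g a) ^ m, zpow_mem_R D σ τ a ha m⟩ * ⟨Y, hYR⟩, ?_, hz.symm⟩
      show _ ∈ (genIn (D.R σ τ) (inc k n '' D.I)).radical
      apply Ideal.mul_mem_left
      rw [Ideal.mem_radical_iff]
      refine ⟨K, ?_⟩
      obtain ⟨W, hW, hWe⟩ := ideal_up hIJ D hD σ τ a ha ((Y : Fr k n) ^ K) ⟨Y ^ K, hK, rfl⟩
      have h3 : (⟨(Y : Fr k n), hYR⟩ : D.R σ τ) ^ K = W := by
        apply Subtype.ext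
        exact hWe.symm
      rw [h3]
      exact hW
    · show z ∈ HF k n m
      rw [hz]
      have := hf_mul (hf_zpow (hD.g_hom a) (hD.g_ne a) m) (P0_hf D hD σ τ _ Y.2)
      rwa [add_zero] at this

end

end Pool.Agent.DBX.SUR
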