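import Pool.Agent.DBX.SUR.Stmts

set_option autoImplicit false

/-! # MP_2c751f_ag, squad DBX, area SUR: module EMB -/

namespace Pool.Agent.DBX.SUR

open MvPolynomial

noncomputable section

universe u

namespace EMB_

section abs

variable {k L : Type*} [Field k] [Field L] [Algebra k L] {ι : Type} [Fintype ι]

/-- the span of the elements `H i` -/
def T (k : Type*) {L : Type*} [Field k] [Field L] [Algebra k L] {ι : Type} (H : ι → L) :
    Submodule k L :=
  Submodule.span k (Set.range H)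

omit [Fintype ι] in
theorem H_mem (H : ι → L) (i : ι) : H i ∈ T k H := Submodule.subset_span ⟨i, rfl⟩

omit [Fintype ι] in
theorem H_pow_mem (H : ι → L) (i : ι) (e : ℕ) : H i ^ e ∈ T k H ^ e :=
  Submodule.pow_mem_pow _ (H_mem H i) e

omit [Fintype ι] in
theorem mul_mem {H : ι → L} {d e : ℕ} {x y : L} (hx : x ∈ T k H ^ d) (hy : y ∈ T k H ^ e) :
    x * y ∈ T k H ^ (d + e) := by
  rw [pow_add]
  exact Submodule.mul_mem_mul hx hy

omit [Fintype ι] in
theorem pow_mem {H : ι → L} {d : ℕ} {x : L} (hx : x ∈ T k H ^ d) (e : ℕ) :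
    x ^ e ∈ T k H ^ (d * e) := by
  rw [pow_mul]
  exact Submodule.pow_mem_pow _ hx e

/-- `T^E` is spanned by monomials. -/
theorem T_pow_le (H : ι → L) (E : ℕ) : T k H ^ E ≤
    Submodule.span k {z | ∃ α : ι → ℕ, ∑ i, α i = E ∧ z = ∏ i, H i ^ α i} := by
  classical
  induction E with
  | zero =>
    rw [pow_zero, Submodule.one_eq_span]
    refine Submodule.span_mono ?_
    rintro z hz
    rw [Set.mem_singleton_iff] at hz
    exact ⟨0, by simp, by simp [hz]⟩
  | succ E ih =>
    rw [pow_succ]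
    refine le_trans (mul_le_mul' ih le_rfl) ?_
    unfold T
    rw [Submodule.span_mul_span]
    refine Submodule.span_mono ?_
    rintro z hz
    obtain ⟨x, ⟨α, hα, rfl⟩, y, ⟨i, rfl⟩, rfl⟩ := Set.mem_mul.mp hz
    refine ⟨α + Pi.single i 1, ?_, ?_⟩
    · simp only [Pi.add_apply, Finset.sum_add_distrib, hα]
      simp
    · simp only [Pi.add_apply, pow_add, Finset.prod_mul_distrib]
      congr 1
      rw [Finset.prod_eq_single i]
      · simp
      · intro j _ hj
        rw [Pi.single_eq_of_ne hj, pow_zero]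
      · intro h; exact absurd (Finset.mem_univ i) h

omit [Fintype ι] in
theorem T_FG [Finite ι] (H : ι → L) (E : ℕ) : (T k H ^ E).FG := by
  refine Submodule.FG.pow ?_ E
  exact Submodule.fg_span (Set.finite_range H)

/-- Pigeonhole: if each `H_i^E1` lies in `∑ h_w T^(E1 - N)`, then so does `T^E` for large `E`. -/
theorem T_pow_large (H : ι → L) {m : ℕ} (h : Fin m → L) (N E1 : ℕ) (hN : N ≤ E1)
    (hyp : ∀ i, ∃ t : Fin m → L, (∀ w, t w ∈ T k H ^ (E1 - N)) ∧ H i ^ E1 = ∑ w, h w * t w)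
    (E : ℕ) (hE : Fintype.card ι * E1 + E1 + 1 ≤ E) (z : L) (hz : z ∈ T k H ^ E) :
    ∃ t : Fin m → L, (∀ w, t w ∈ T k H ^ (E - N)) ∧ z = ∑ w, h w * t w := by
  have hz2 := T_pow_le H E hz
  clear hz
  induction hz2 using Submodule.span_induction with
  | mem x hx =>
    obtain ⟨α, hα, rfl⟩ := hx
    have h1 : ∃ i, E1 ≤ α i := by
      by_contra hcon
      push Not at hcon
      have h2 : ∑ i, α i ≤ ∑ _i : ι, E1 := Finset.sum_le_sum (fun i _ => (hcon i).le)
      rw [Finset.sum_const, Finset.card_univ, smul_eq_mul] at h2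
      omega
    obtain ⟨i, hi⟩ := h1
    obtain ⟨t, ht, hte⟩ := hyp i
    classical
    have h3 : ∏ j, H j ^ α j = H i ^ E1 * ∏ j, H j ^ ((α - (Pi.single i E1 : ι → ℕ)) j) := by
      have h4 : α = Pi.single i E1 + (α - (Pi.single i E1 : ι → ℕ)) := by
        funext j
        by_cases hj : j = i
        · subst hj; simp; omega
        · simp [Pi.single_eq_of_ne hj]
      conv_lhs => rw [h4]
      simp only [Pi.add_apply, pow_add, Finset.prod_mul_distrib]
      congr 1
      rw [Finset.prod_eq_single i]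
      · simp
      · intro j _ hj
        rw [Pi.single_eq_of_ne hj, pow_zero]
      · intro h; exact absurd (Finset.mem_univ i) h
    have h5 : ∑ j, (α - (Pi.single i E1 : ι → ℕ)) j = E - E1 := by
      have h6 : ∑ j, ((α - (Pi.single i E1 : ι → ℕ)) j + (Pi.single i E1 : ι → ℕ) j) = E := by
        rw [← hα]
        refine Finset.sum_congr rfl (fun j _ => ?_)
        by_cases hj : j = i
        · subst hj; simp; omega
        · simp [Pi.single_eq_of_ne hj]
      rw [Finset.sum_add_distrib, Finset.sum_pi_single'] at h6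
      simp only [Finset.mem_univ, if_true] at h6
      omega
    have h7 : ∀ (β : ι → ℕ) (s : Finset ι), ∏ j ∈ s, H j ^ β j ∈ T k H ^ (∑ j ∈ s, β j) := by
      intro β s
      induction s using Finset.induction_on with
      | empty =>
        rw [Finset.prod_empty, Finset.sum_empty, pow_zero]
        exact Submodule.one_le.mp le_rfl
      | insert a s ha ih =>
        rw [Finset.prod_insert ha, Finset.sum_insert ha]
        exact mul_mem (H_pow_mem H a _) ih
    have h8 := h7 (α - (Pi.single i E1 : ι → ℕ)) Finset.univ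
    rw [h5] at h8
    refine ⟨fun w => t w * ∏ j, H j ^ ((α - (Pi.single i E1 : ι → ℕ)) j), fun w => ?_, ?_⟩
    · have h9 := mul_mem (ht w) h8
      have h10 : E1 - N + (E - E1) = E - N := by omega
      rwa [h10] at h9
    · rw [h3, hte, Finset.sum_mul]
      exact Finset.sum_congr rfl (fun w _ => by ring)
  | zero => exact ⟨0, fun w => Submodule.zero_mem _, by simp⟩
  | add x y _ _ hx hy =>
    obtain ⟨t, ht, hte⟩ := hx
    obtain ⟨t', ht', hte'⟩ := hy
    refine ⟨t + t', fun w => Submodule.add_mem _ (ht w) (ht' w), ?_⟩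
    rw [hte, hte', ← Finset.sum_add_distrib]
    exact Finset.sum_congr rfl (fun w _ => by simp only [Pi.add_apply]; ring)
  | smul a x _ hx =>
    obtain ⟨t, ht, hte⟩ := hx
    refine ⟨a • t, fun w => Submodule.smul_mem _ a (ht w), ?_⟩
    rw [hte, Finset.smul_sum]
    exact Finset.sum_congr rfl (fun w _ => by rw [Pi.smul_apply, mul_smul_comm])

/-- Common large exponents. -/
theorem exists_common {ι' : Type} [Fintype ι'] (P : ι' → ℕ → Prop)
    (h : ∀ i, ∃ e0 : ℕ, ∀ e, e0 ≤ e → P i e) : ∃ e0 : ℕ, ∀ e, e0 ≤ e → ∀ i, P i e := by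
  choose e0 he0 using h
  refine ⟨∑ i, e0 i, fun e he i => he0 i e (le_trans ?_ he)⟩
  exact Finset.single_le_sum (f := e0) (fun j _ => Nat.zero_le _) (Finset.mem_univ i)

section main

variable {H : ι → L} (hH : ∀ i, H i ≠ 0) {ch : ι → Subalgebra k L}
  (h1 : ∀ i e z, z ∈ T k H ^ e → z / H i ^ e ∈ ch i)
  (h2 : ∀ i, ∀ y ∈ ch i, ∃ e0 : ℕ, ∀ e, e0 ≤ e → y * H i ^ e ∈ T k H ^ e)
  {m : ℕ} {ix : Fin m → ι} {s : Fin m → L} (hs0 : ∀ v, s v ≠ 0)
  {A : Fin m → Subalgebra k L}
  (hA : ∀ v, A v = Algebra.adjoin k ((ch (ix v) : Set L) ∪ {(s v)⁻¹}))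
  {N' : ℕ} (hN' : ∀ v, s v * H (ix v) ^ N' ∈ T k H ^ N')

include hN' in
omit [Fintype ι] in
theorem h_mem_T (v : Fin m) : s v * H (ix v) ^ (N' + 1) ∈ T k H ^ (N' + 1) := by
  rw [pow_succ (H (ix v)) N', ← mul_assoc]
  have := mul_mem (hN' v) (H_pow_mem (k := k) H (ix v) 1)
  rwa [pow_one] at this

include hH h1 h2 hs0 hA hN' in
omit [Fintype ι] in
theorem mem_A (v : Fin m) (y : L) :
    y ∈ A v ↔ ∃ e : ℕ, y * (s v * H (ix v) ^ (N' + 1)) ^ e ∈ T k H ^ ((N' + 1) * e) := by
  constructor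
  · intro hy
    rw [hA v] at hy
    induction hy using Algebra.adjoin_induction with
    | mem x hx =>
      rcases hx with hx | hx
      · obtain ⟨e, he⟩ := h2 (ix v) x hx
        refine ⟨e, ?_⟩
        have h3 := mul_mem (he e le_rfl) (pow_mem (hN' v) e)
        have h4 : x * (s v * H (ix v) ^ (N' + 1)) ^ e =
            x * H (ix v) ^ e * (s v * H (ix v) ^ N') ^ e := by
          rw [mul_pow, mul_pow, ← pow_mul, ← pow_mul, add_mul, pow_add, one_mul]; ring
        rw [h4]
        have h5 : (N' + 1) * e = e + N' * e := by ring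
        rwa [h5]
      · rw [Set.mem_singleton_iff] at hx
        refine ⟨1, ?_⟩
        rw [hx, pow_one, ← mul_assoc, inv_mul_cancel₀ (hs0 v), one_mul, mul_one]
        exact H_pow_mem H _ _
    | algebraMap c =>
      refine ⟨0, ?_⟩
      rw [pow_zero, mul_one, mul_zero, pow_zero]
      exact Submodule.mem_one.mpr ⟨c, rfl⟩
    | add x y _ _ hx hy =>
      obtain ⟨d, hd⟩ := hx
      obtain ⟨e, he⟩ := hy
      refine ⟨d + e, ?_⟩
      rw [add_mul x y]
      refine Submodule.add_mem _ ?_ ?_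
      · have h3 := mul_mem hd (pow_mem (h_mem_T hN' v) e)
        rwa [mul_assoc, ← pow_add, ← mul_add] at h3
      · have h3 := mul_mem he (pow_mem (h_mem_T hN' v) d)
        rwa [mul_assoc, ← pow_add, ← mul_add, add_comm e d] at h3
    | mul x y _ _ hx hy =>
      obtain ⟨d, hd⟩ := hx
      obtain ⟨e, he⟩ := hy
      refine ⟨d + e, ?_⟩
      have h3 := mul_mem hd he
      rw [← mul_add] at h3
      convert h3 using 1
      rw [pow_add]; ring
  · rintro ⟨e, he⟩
    have h3 := h1 (ix v) _ _ he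
    have h4 : (s v)⁻¹ ∈ A v := by
      rw [hA v]; exact Algebra.subset_adjoin (Or.inr rfl)
    have h5 : ∀ z ∈ ch (ix v), z ∈ A v := by
      intro z hz
      rw [hA v]; exact Algebra.subset_adjoin (Or.inl hz)
    have h6 := Subalgebra.mul_mem _ (h5 _ h3) (Subalgebra.pow_mem _ h4 e)
    convert h6 using 1
    have h7 := hH (ix v)
    have h8 := hs0 v
    rw [mul_pow, ← pow_mul, inv_pow]
    have h9 : s v ^ e ≠ 0 := pow_ne_zero _ h8
    have h10 : H (ix v) ^ ((N' + 1) * e) ≠ 0 := pow_ne_zero _ h7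
    field_simp

include h2 in
/-- finiteness: `T^E ⊆ ∑ h_w T^(E - N)` for large `E`. -/
theorem large (cov : ∀ i, ∃ c : Fin m → L, (∀ v, c v ∈ ch i) ∧ (∀ v, ix v ≠ i → c v = 0) ∧
    ∑ v, c v * s v = 1) : ∃ E0 : ℕ, ∀ E, E0 ≤ E → ∀ z ∈ T k H ^ E,
      ∃ t : Fin m → L, (∀ w, t w ∈ T k H ^ (E - (N' + 1))) ∧
        z = ∑ w, (s w * H (ix w) ^ (N' + 1)) * t w := by
  choose c hc hc0 hc1 using cov
  obtain ⟨e1, he1⟩ := exists_common (ι' := ι × Fin m)
    (fun p e => c p.1 p.2 * H p.1 ^ e ∈ T k H ^ e) (fun p => h2 p.1 _ (hc p.1 p.2))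
  refine ⟨Fintype.card ι * (N' + 1 + e1) + (N' + 1 + e1) + 1, fun E hE z hz => ?_⟩
  refine T_pow_large H (fun w => s w * H (ix w) ^ (N' + 1)) (N' + 1) (N' + 1 + e1) (by omega)
    ?_ E hE z hz
  intro i
  refine ⟨fun w => c i w * H i ^ e1, fun w => ?_, ?_⟩
  · rw [Nat.add_sub_cancel_left]
    exact he1 e1 le_rfl (i, w)
  · calc H i ^ (N' + 1 + e1) = H i ^ (N' + 1 + e1) * ∑ v, c i v * s v := by
          rw [hc1, mul_one]
      _ = ∑ w, (s w * H (ix w) ^ (N' + 1)) * (c i w * H i ^ e1) := by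
          rw [Finset.mul_sum]
          refine Finset.sum_congr rfl (fun w _ => ?_)
          by_cases hw : ix w = i
          · rw [hw, pow_add]; ring
          · rw [hc0 i w hw]; ring

include hH h1 h2 hs0 hA hN' in
theorem fin_gen (cov : ∀ i, ∃ c : Fin m → L, (∀ v, c v ∈ ch i) ∧ (∀ v, ix v ≠ i → c v = 0) ∧
    ∑ v, c v * s v = 1) (v : Fin m) : ∃ G : Finset L, (G : Set L) ⊆ A v ∧
    ∀ x ∈ A v, x ∈ Submodule.span (Algebra.adjoin k {z | ∃ w,
      z = (s w * H (ix w) ^ (N' + 1)) / (s v * H (ix v) ^ (N' + 1))}) (G : Set L) := by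
  classical
  set h : Fin m → L := fun w => s w * H (ix w) ^ (N' + 1) with hh
  have hne : ∀ w, h w ≠ 0 := fun w => mul_ne_zero (hs0 w) (pow_ne_zero _ (hH _))
  obtain ⟨E0, hE0⟩ := large h2 (N' := N') cov
  obtain ⟨G0, hG0⟩ := T_FG (k := k) H ((N' + 1) * E0)
  set P : Subalgebra k L := Algebra.adjoin k {z | ∃ w, z = h w / h v} with hP
  refine ⟨G0.image (fun g => g / h v ^ E0), ?_, ?_⟩
  · intro g hg
    rw [Finset.mem_coe, Finset.mem_image] at hg
    obtain ⟨g0, hg0, rfl⟩ := hg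
    refine (mem_A hH h1 h2 hs0 hA hN' v _).mpr ⟨E0, ?_⟩
    change g0 / h v ^ E0 * (h v) ^ E0 ∈ _
    rw [div_mul_cancel₀ _ (pow_ne_zero _ (hne v)), ← hG0]
    exact Submodule.subset_span hg0
  · have key : ∀ e : ℕ, ∀ z ∈ T k H ^ ((N' + 1) * (E0 + e)), z / h v ^ (E0 + e) ∈
        Submodule.span P ((G0.image (fun g => g / h v ^ E0) : Finset L) : Set L) := by
      intro e
      induction e with
      | zero =>
        intro z hz
        rw [add_zero] at hz ⊢
        rw [← hG0] at hz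
        induction hz using Submodule.span_induction with
        | mem x hx =>
          apply Submodule.subset_span
          rw [Finset.mem_coe, Finset.mem_image]
          exact ⟨x, hx, rfl⟩
        | zero => rw [zero_div]; exact Submodule.zero_mem _
        | add x y _ _ hx hy => rw [add_div]; exact Submodule.add_mem _ hx hy
        | smul a x _ hx =>
          have h3 := Submodule.smul_mem _ (algebraMap k P a) hx
          convert h3 using 1
          rw [smul_div_assoc]
          rw [algebraMap_smul]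
      | succ e ih =>
        intro z hz
        obtain ⟨t, ht, hte⟩ := hE0 ((N' + 1) * (E0 + (e + 1))) (by nlinarith) z hz
        have h3 : (N' + 1) * (E0 + (e + 1)) - (N' + 1) = (N' + 1) * (E0 + e) := by
          rw [← add_assoc, mul_add _ (E0 + e) 1, mul_one, Nat.add_sub_cancel]
        rw [h3] at ht
        have h4 : z / h v ^ (E0 + (e + 1)) = ∑ w, (h w / h v) * (t w / h v ^ (E0 + e)) := by
          rw [hte, Finset.sum_div]
          refine Finset.sum_congr rfl (fun w _ => ?_)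
          change (h w * t w) / _ = _
          rw [← add_assoc, pow_succ, div_mul_div_comm, mul_comm (h v)]
        rw [h4]
        refine Submodule.sum_mem _ (fun w _ => ?_)
        have h5 : h w / h v ∈ P := Algebra.subset_adjoin ⟨w, rfl⟩
        exact Submodule.smul_mem _ (⟨_, h5⟩ : P) (ih (t w) (ht w))
    intro x hx
    obtain ⟨e, he⟩ := (mem_A hH h1 h2 hs0 hA hN' v x).mp hx
    have h3 := mul_mem he (pow_mem (h_mem_T hN' v) E0)
    rw [← mul_add, mul_assoc, ← pow_add, add_comm e E0] at h3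
    have h4 := key e _ h3
    change x * h v ^ (E0 + e) / h v ^ (E0 + e) ∈ _ at h4
    rwa [mul_div_cancel_right₀ _ (pow_ne_zero _ (hne v))] at h4

end main

end abs

section conc

variable {k : Type u} [Field k] {n : ℕ} (D : Dat k n)

/-- the functions `g_a f_b` -/
def HH (i : Fin D.p × Fin D.M) : Fr k n := inc k n (D.g i.1) * inc k n (D.f i.2)

variable {D}

theorem HH_ne (hD : D.Good) (i : Fin D.p × Fin D.M) : HH D i ≠ 0 :=
  mul_ne_zero (inc_ne (hD.g_ne _)) (inc_ne (hD.f_ne _))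

theorem lin_div0 (a : Fin D.p) (b : Fin D.M) (y : Pol k n)
    (hy : y ∈ Submodule.span k (Set.range (X : Fin n → Pol k n))) :
    inc k n y / inc k n (D.g a) ∈ D.ch a b := by
  induction hy using Submodule.span_induction with
  | mem x hx =>
    obtain ⟨i, rfl⟩ := hx
    exact Algebra.subset_adjoin (Or.inl ⟨i, rfl⟩)
  | zero => rw [map_zero, zero_div]; exact Subalgebra.zero_mem _
  | add x y _ _ hx hy => rw [map_add, add_div]; exact Subalgebra.add_mem _ hx hy
  | smul c x _ hx =>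
    have h2 : inc k n (c • x) = c • inc k n x := by
      rw [Algebra.smul_def, Algebra.smul_def, map_mul]; rfl
    rw [h2, smul_div_assoc]; exact Subalgebra.smul_mem _ hx c

/-- a linear form divided by `g a` lies in the chart -/
theorem lin_div (a : Fin D.p) (b : Fin D.M) (y : Pol k n)
    (hy : y ∈ Submodule.span k (Set.range D.g)) (hg : ∀ a', (D.g a').IsHomogeneous 1) :
    inc k n y / inc k n (D.g a) ∈ D.ch a b := by
  induction hy using Submodule.span_induction with
  | mem x hx =>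
    obtain ⟨a', rfl⟩ := hx
    have h1 : D.g a' ∈ Submodule.span k (Set.range (X : Fin n → Pol k n)) := by
      have := hg a'
      rw [← MvPolynomial.mem_homogeneousSubmodule] at this
      rwa [MvPolynomial.homogeneousSubmodule_one_eq_span_X] at this
    exact lin_div0 a b _ h1
  | zero => rw [map_zero, zero_div]; exact Subalgebra.zero_mem _
  | add x y _ _ hx hy => rw [map_add, add_div]; exact Subalgebra.add_mem _ hx hy
  | smul c x _ hx =>
    have h2 : inc k n (c • x) = c • inc k n x := by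
      rw [Algebra.smul_def, Algebra.smul_def, map_mul]; rfl
    rw [h2, smul_div_assoc]; exact Subalgebra.smul_mem _ hx c

theorem T_div (hD : D.Good) (i : Fin D.p × Fin D.M) (e : ℕ) (z : Fr k n)
    (hz : z ∈ T k (HH D) ^ e) : z / HH D i ^ e ∈ D.ch i.1 i.2 := by
  have h1 : ∀ j : Fin D.p × Fin D.M, HH D j / HH D i ∈ D.ch i.1 i.2 := by
    intro j
    have h2 := lin_div i.1 i.2 (D.g j.1) (Submodule.subset_span ⟨j.1, rfl⟩) hD.g_hom
    have h3 : inc k n (D.f j.2) / inc k n (D.f i.2) ∈ D.ch i.1 i.2 :=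
      Algebra.subset_adjoin (Or.inr ⟨j.2, rfl⟩)
    have h4 := Subalgebra.mul_mem _ h2 h3
    rwa [div_mul_div_comm] at h4
  have h5 := T_pow_le (HH D) e hz
  clear hz
  induction h5 using Submodule.span_induction with
  | mem x hx =>
    obtain ⟨α, hα, rfl⟩ := hx
    have h6 : (∏ j, HH D j ^ α j) / HH D i ^ e = ∏ j, (HH D j / HH D i) ^ α j := by
      simp only [div_pow, Finset.prod_div_distrib]
      rw [Finset.prod_pow_eq_pow_sum, hα]
    rw [h6]
    exact Subalgebra.prod_mem _ (fun j _ => Subalgebra.pow_mem _ (h1 j) _)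
  | zero => rw [zero_div]; exact Subalgebra.zero_mem _
  | add x y _ _ hx hy => rw [add_div]; exact Subalgebra.add_mem _ hx hy
  | smul c x _ hx => rw [smul_div_assoc]; exact Subalgebra.smul_mem _ hx c

/-- linear forms times `f_b` -/
theorem lin_mul_f (b : Fin D.M) (y : Pol k n) (hy : y ∈ Submodule.span k (Set.range D.g)) :
    inc k n y * inc k n (D.f b) ∈ T k (HH D) ^ 1 := by
  rw [pow_one]
  induction hy using Submodule.span_induction with
  | mem x hx =>
    obtain ⟨a', rfl⟩ := hx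
    exact H_mem (HH D) (a', b)
  | zero => rw [map_zero, zero_mul]; exact Submodule.zero_mem _
  | add x y _ _ hx hy => rw [map_add, add_mul]; exact Submodule.add_mem _ hx hy
  | smul c x _ hx =>
    have h2 : inc k n (c • x) = c • inc k n x := by
      rw [Algebra.smul_def, Algebra.smul_def, map_mul]; rfl
    rw [h2, smul_mul_assoc]; exact Submodule.smul_mem _ c hx

theorem ch_mul (hD : D.Good) (i : Fin D.p × Fin D.M) (y : Fr k n) (hy : y ∈ D.ch i.1 i.2) :
    ∃ e0 : ℕ, ∀ e, e0 ≤ e → y * HH D i ^ e ∈ T k (HH D) ^ e := by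
  have hg0 : inc k n (D.g i.1) ≠ 0 := inc_ne (hD.g_ne _)
  have hf0 : inc k n (D.f i.2) ≠ 0 := inc_ne (hD.f_ne _)
  unfold Dat.ch at hy
  induction hy using Algebra.adjoin_induction with
  | mem x hx =>
    refine ⟨1, fun e he => ?_⟩
    obtain ⟨d, rfl⟩ := Nat.exists_eq_add_of_le he
    rcases hx with ⟨j, rfl⟩ | ⟨j, rfl⟩
    · have h1 := mul_mem (lin_mul_f i.2 (X j) (hD.g_span j)) (H_pow_mem (k := k) (HH D) i d)
      convert h1 using 1
      rw [pow_add, pow_one]
      unfold HH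
      field_simp
    · have h1 := mul_mem (H_pow_mem (k := k) (HH D) (i.1, j) 1) (H_pow_mem (k := k) (HH D) i d)
      convert h1 using 1
      rw [pow_add, pow_one, pow_one]
      unfold HH
      field_simp
  | algebraMap c =>
    refine ⟨0, fun e _ => ?_⟩
    have h1 := Submodule.smul_mem _ c (H_pow_mem (k := k) (HH D) i e)
    rwa [Algebra.smul_def] at h1
  | add x y _ _ hx hy =>
    obtain ⟨d, hd⟩ := hx
    obtain ⟨e, he⟩ := hy
    refine ⟨max d e, fun c hc => ?_⟩
    rw [add_mul]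
    exact Submodule.add_mem _ (hd c (le_trans (le_max_left _ _) hc))
      (he c (le_trans (le_max_right _ _) hc))
  | mul x y _ _ hx hy =>
    obtain ⟨d, hd⟩ := hx
    obtain ⟨e, he⟩ := hy
    refine ⟨d + e, fun c hc => ?_⟩
    obtain ⟨b, rfl⟩ := Nat.exists_eq_add_of_le hc
    have h1 := mul_mem (hd d le_rfl) (he (e + b) (by omega))
    rw [← add_assoc] at h1
    convert h1 using 1
    rw [pow_add, pow_add, pow_add]; ring

end conc

end EMB_

theorem emb_proof : Stmt_EMB.{u} := by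
  intro k _ n D l ε m C hD hC
  have hH := EMB_.HH_ne hD
  set ch : Fin D.p × Fin D.M → Subalgebra k (Fr k n) := fun i => D.ch i.1 i.2 with hch
  have h1 : ∀ i e z, z ∈ EMB_.T k (EMB_.HH D) ^ e → z / EMB_.HH D i ^ e ∈ ch i :=
    fun i e z hz => EMB_.T_div hD i e z hz
  have h2 : ∀ i, ∀ y ∈ ch i, ∃ e0 : ℕ, ∀ e, e0 ≤ e →
      y * EMB_.HH D i ^ e ∈ EMB_.T k (EMB_.HH D) ^ e :=
    fun i y hy => EMB_.ch_mul hD i y hy
  set ix : Fin m → Fin D.p × Fin D.M := fun v => (C.a v, C.b v) with hix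
  obtain ⟨N', hN0⟩ := EMB_.exists_common (ι' := Fin m)
    (fun v e => C.s v * EMB_.HH D (ix v) ^ e ∈ EMB_.T k (EMB_.HH D) ^ e)
    (fun v => h2 (ix v) _ (hC.s_mem v))
  have hN' := fun v => hN0 N' le_rfl v
  have hA : ∀ v, C.A v = Algebra.adjoin k ((ch (ix v) : Set (Fr k n)) ∪ {(C.s v)⁻¹}) :=
    fun v => rfl
  have cov : ∀ i, ∃ c : Fin m → Fr k n, (∀ v, c v ∈ ch i) ∧ (∀ v, ix v ≠ i → c v = 0) ∧
      ∑ v, c v * C.s v = 1 := by
    intro i
    obtain ⟨c, hc, hc0, hc1⟩ := hC.cover i.1 i.2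
    refine ⟨c, hc, fun v hv => hc0 v (fun h => hv ?_), hc1⟩
    exact Prod.ext h.1 h.2
  have hmem := EMB_.mem_A hH h1 h2 hC.s_ne hA hN'
  have hT := fun v => EMB_.h_mem_T hN' v
  have hne : ∀ v, C.s v * EMB_.HH D (ix v) ^ (N' + 1) ≠ 0 :=
    fun v => mul_ne_zero (hC.s_ne v) (pow_ne_zero _ (hH _))
  refine ⟨N' + 1, fun v => C.s v * EMB_.HH D (ix v) ^ (N' + 1), ?_⟩
  refine ⟨hne, ?_, ?_, ?_, ?_, ?_, ?_, ?_, ?_⟩
  · intro v w
    refine (hmem v _).mpr ⟨1, ?_⟩
    rw [pow_one, div_mul_cancel₀ _ (hne v), mul_one]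
    exact hT w
  · intro v w y hy
    obtain ⟨e, he⟩ := (hmem w y).mp hy
    have h3 : y * (C.s w * EMB_.HH D (ix w) ^ (N' + 1)) ^ e /
        (C.s v * EMB_.HH D (ix v) ^ (N' + 1)) ^ e ∈ C.A v := by
      refine (hmem v _).mpr ⟨e, ?_⟩
      rwa [div_mul_cancel₀ _ (pow_ne_zero _ (hne v))]
    have h4 : (C.s v * EMB_.HH D (ix v) ^ (N' + 1)) / (C.s w * EMB_.HH D (ix w) ^ (N' + 1)) ∈
        Algebra.adjoin k ((C.A v : Set (Fr k n)) ∪
          {(C.s v * EMB_.HH D (ix v) ^ (N' + 1)) / (C.s w * EMB_.HH D (ix w) ^ (N' + 1))}) :=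
      Algebra.subset_adjoin (Or.inr rfl)
    have h3' := Algebra.subset_adjoin (R := k) (s := (C.A v : Set (Fr k n)) ∪
      {(C.s v * EMB_.HH D (ix v) ^ (N' + 1)) / (C.s w * EMB_.HH D (ix w) ^ (N' + 1))}) (Or.inl h3)
    have h5 := Subalgebra.mul_mem _ h3' (Subalgebra.pow_mem _ h4 e)
    convert h5 using 1
    have h6 := pow_ne_zero e (hne v)
    have h7 := pow_ne_zero e (hne w)
    rw [div_pow, div_mul_div_comm, mul_comm ((C.s v * EMB_.HH D (ix v) ^ (N' + 1)) ^ e),
      mul_div_mul_right _ _ h6, mul_div_cancel_right₀ _ h7]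
  · intro v
    rw [Subalgebra.fg_def]
    refine ⟨({z | ∃ i, z = inc k n (X i) / inc k n (D.g (C.a v))} ∪
      {z | ∃ j, z = inc k n (D.f j) / inc k n (D.f (C.b v))}) ∪ {(C.s v)⁻¹}, ?_, ?_⟩
    · refine Set.Finite.union (Set.Finite.union ?_ ?_) (Set.finite_singleton _)
      · exact (Set.finite_range (fun i => inc k n (X i) / inc k n (D.g (C.a v)))).subset
          (by rintro z ⟨i, rfl⟩; exact ⟨i, rfl⟩)
      · exact (Set.finite_range (fun j => inc k n (D.f j) / inc k n (D.f (C.b v)))).subset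
          (by rintro z ⟨i, rfl⟩; exact ⟨i, rfl⟩)
    · apply le_antisymm
      · refine Algebra.adjoin_le ?_
        rintro z (hz | hz)
        · exact Algebra.subset_adjoin (Or.inl (Algebra.subset_adjoin hz))
        · exact Algebra.subset_adjoin (Or.inr hz)
      · refine Algebra.adjoin_le ?_
        rintro z (hz | hz)
        · exact Algebra.adjoin_mono Set.subset_union_left hz
        · exact Algebra.subset_adjoin (Or.inr hz)
  · intro v
    exact EMB_.fin_gen hH h1 h2 hC.s_ne hA hN' cov v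
  · intro a b v
    exact h1 (a, b) _ _ (hT v)
  · intro a b v
    refine (hmem v _).mpr ⟨1, ?_⟩
    unfold Cov.th
    rw [pow_one, inv_div, div_mul_cancel₀ _ (hne v), mul_one]
    exact EMB_.H_pow_mem (EMB_.HH D) (a, b) _
  · intro a b
    obtain ⟨c, hc, hc0, hc1⟩ := cov (a, b)
    refine ⟨c, hc, ?_⟩
    rw [← hc1]
    refine Finset.sum_congr rfl (fun v _ => ?_)
    by_cases hv : ix v = (a, b)
    · congr 1
      change C.s v * EMB_.HH D (ix v) ^ (N' + 1) / EMB_.HH D (a, b) ^ (N' + 1) = _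
      rw [hv, mul_div_cancel_right₀ _ (pow_ne_zero _ (hH _))]
    · rw [hc0 v hv, zero_mul, zero_mul]
  · intro a b v z hz
    obtain ⟨e, he⟩ := (hmem v z).mp hz
    refine ⟨e, ?_⟩
    have h3 := h1 (a, b) _ _ he
    convert h3 using 1
    unfold Cov.th
    rw [div_pow, ← pow_mul]
    change (C.s v * EMB_.HH D (ix v) ^ (N' + 1)) ^ e / EMB_.HH D (a, b) ^ ((N' + 1) * e) * z = _
    rw [div_mul_eq_mul_div, mul_comm z]

end

end Pool.Agent.DBX.SUR
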