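import Pool.Agent.DBX.SUR.Stmts

set_option autoImplicit false

namespace Pool.Agent.DBX.SUR

open MvPolynomial

noncomputable section

universe u

namespace ETL_

/-- The shift automorphism of the polynomial ring. -/
def shift (K : Type u) [Field K] (N : ℕ) (sh : Fin N → K) :
    MvPolynomial (Fin N) K →ₐ[K] MvPolynomial (Fin N) K :=
  MvPolynomial.aeval (fun i => X i + C (sh i))

theorem shift_comp (K : Type u) [Field K] (N : ℕ) (sh : Fin N → K) :
    (shift K N (fun i => - sh i)).comp (shift K N sh) = AlgHom.id K _ := by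
  apply MvPolynomial.algHom_ext
  intro i
  simp [shift]

theorem shift_comp' (K : Type u) [Field K] (N : ℕ) (sh : Fin N → K) :
    (shift K N sh).comp (shift K N (fun i => - sh i)) = AlgHom.id K _ := by
  apply MvPolynomial.algHom_ext
  intro i
  simp [shift]

theorem shift_bij (K : Type u) [Field K] (N : ℕ) (sh : Fin N → K) :
    Function.Bijective (shift K N sh) := by
  constructor
  · intro a b h
    have h1 := congrArg (shift K N (fun i => - sh i)) h
    have h2 := DFunLike.congr_fun (shift_comp K N sh) a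
    have h3 := DFunLike.congr_fun (shift_comp K N sh) b
    simp only [AlgHom.comp_apply, AlgHom.id_apply] at h2 h3
    rw [h2, h3] at h1
    exact h1
  · intro b
    exact ⟨_, DFunLike.congr_fun (shift_comp' K N sh) b⟩

theorem exists_pow {K L : Type u} [Field K] [Field L] [Algebra K L] (A : Subalgebra K L) (u : L)
    (hu : u ∈ A) (hu0 : u ≠ 0) (z : L) (hz : z ∈ Algebra.adjoin K ((A : Set L) ∪ {u⁻¹})) :
    ∃ e : ℕ, z * u ^ e ∈ A := by
  refine Algebra.adjoin_induction (p := fun z _ => ∃ e : ℕ, z * u ^ e ∈ A) ?_ ?_ ?_ ?_ hz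
  · rintro x (hx | hx)
    · exact ⟨0, by simpa using hx⟩
    · refine ⟨1, ?_⟩
      rw [Set.mem_singleton_iff.1 hx, pow_one, inv_mul_cancel₀ hu0]
      exact A.one_mem
  · intro r
    exact ⟨0, by simp⟩
  · rintro x y - - ⟨e, he⟩ ⟨e', he'⟩
    refine ⟨e + e', ?_⟩
    have : (x + y) * u ^ (e + e') = (x * u ^ e) * u ^ e' + (y * u ^ e') * u ^ e := by ring
    rw [this]
    exact A.add_mem (A.mul_mem he (A.pow_mem hu _)) (A.mul_mem he' (A.pow_mem hu _))
  · rintro x y - - ⟨e, he⟩ ⟨e', he'⟩
    refine ⟨e + e', ?_⟩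
    have : (x * y) * u ^ (e + e') = (x * u ^ e) * (y * u ^ e') := by ring
    rw [this]
    exact A.mul_mem he he'

theorem incl_etale {K L : Type u} [Field K] [Field L] [Algebra K L] (A A' : Subalgebra K L) (u : L)
    (hu : u ∈ A) (hu0 : u ≠ 0) (hA' : A' = Algebra.adjoin K ((A : Set L) ∪ {u⁻¹}))
    (hAA' : A ≤ A') : (Subalgebra.inclusion hAA').toRingHom.Etale := by
  let g : A →+* A' := (Subalgebra.inclusion hAA').toRingHom
  have huA' : u⁻¹ ∈ A' := by rw [hA']; exact Algebra.subset_adjoin (Or.inr rfl)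
  let _ : Algebra A A' := g.toAlgebra
  have hg : ∀ x : A, algebraMap A A' x = g x := fun _ => rfl
  have hloc : IsLocalization.Away (⟨u, hu⟩ : A) A' := by
    refine ⟨?_, ?_, ?_⟩
    · rintro ⟨_, n, rfl⟩
      rw [hg, map_pow]
      apply IsUnit.pow
      refine IsUnit.of_mul_eq_one ⟨u⁻¹, huA'⟩ ?_
      apply Subtype.ext
      exact mul_inv_cancel₀ hu0
    · rintro ⟨z, hz⟩
      obtain ⟨e, he⟩ := exists_pow A u hu hu0 z (hA' ▸ hz)
      refine ⟨(⟨z * u ^ e, he⟩, ⟨(⟨u, hu⟩ : A) ^ e, ⟨e, rfl⟩⟩), ?_⟩
      apply Subtype.ext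
      rfl
    · intro x y h
      refine ⟨1, ?_⟩
      have h1 : (g x : L) = g y := congrArg Subtype.val h
      have h2 : x = y := Subtype.ext h1
      rw [h2]
  have := Algebra.Etale.of_isLocalizationAway (A := A') (⟨u, hu⟩ : A)
  exact this

end ETL_

theorem etl_proof : Stmt_ETL.{u} := by
  intro K L _ _ _ N A A' t ht sh u hu hu0 hA' hE
  have hAA' : A ≤ A' := by rw [hA']; exact fun x hx => Algebra.subset_adjoin (Or.inl hx)
  constructor
  · intro i hi
    have hflat := (RingHom.Etale.iff_flat_and_formallyUnramified.1 hE).1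
    let f : MvPolynomial (Fin N) K →+* A :=
      (MvPolynomial.aeval (R := K) (fun i => (⟨t i, ht i⟩ : A))).toRingHom
    let _ : Algebra (MvPolynomial (Fin N) K) A := f.toAlgebra
    have h1 : Module.Flat (MvPolynomial (Fin N) K) A := hflat
    have h2 : Module.IsTorsionFree (MvPolynomial (Fin N) K) A := inferInstance
    have h3 : (X i : MvPolynomial (Fin N) K) • (1 : A) = 0 := by
      change f (X i) * 1 = 0
      rw [mul_one]
      apply Subtype.ext
      change ((MvPolynomial.aeval (R := K) (fun i => (⟨t i, ht i⟩ : A)) (X i) : A) : L) = 0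
      rw [MvPolynomial.aeval_X]
      exact hi
    rcases smul_eq_zero.1 h3 with h | h
    · exact MvPolynomial.X_ne_zero i h
    · exact one_ne_zero h
  · intro ht'
    have h1 := ETL_.incl_etale A A' u hu hu0 hA' hAA'
    have h2 : (ETL_.shift K N sh).toRingHom.Etale :=
      RingHom.Etale.of_bijective (ETL_.shift_bij K N sh)
    have h3 : (MvPolynomial.aeval (R := K)
        (fun i => (⟨t i + algebraMap K L (sh i), ht' i⟩ : A'))).toRingHom =
        ((Subalgebra.inclusion hAA').toRingHom.comp
          (MvPolynomial.aeval (R := K) (fun i => (⟨t i, ht i⟩ : A))).toRingHom).comp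
          (ETL_.shift K N sh).toRingHom := by
      have h4 : MvPolynomial.aeval (R := K)
          (fun i => (⟨t i + algebraMap K L (sh i), ht' i⟩ : A')) =
          ((Subalgebra.inclusion hAA').comp
            (MvPolynomial.aeval (R := K) (fun i => (⟨t i, ht i⟩ : A)))).comp
            (ETL_.shift K N sh) := by
        apply MvPolynomial.algHom_ext
        intro i
        simp only [ETL_.shift, AlgHom.comp_apply, MvPolynomial.aeval_X, map_add,
          MvPolynomial.algHom_C]
        apply Subtype.ext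
        rfl
      rw [h4]; rfl
    rw [h3]
    exact RingHom.Etale.stableUnderComposition _ _ h2
      (RingHom.Etale.stableUnderComposition _ _ hE h1)

end

end Pool.Agent.DBX.SUR
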