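import Pool.Agent.DBX.SUR.Stmts
import Pool.Agent.DBX.Lib.Tot

set_option autoImplicit false

/-! # MP_2c751f_ag, squad DBX, area SUR: SUR0 and SUR1 from SURE (helper93) -/

namespace Pool.Agent.DBX.SUR

open MvPolynomial

noncomputable section

universe u

theorem sur1_of (hS : Stmt_SURE.{u}) : Stmt_SUR1.{u} := by
  intro k _ _ n D l hD hl hl0 hLS t ht z hz hdz
  have hLSE : LSE D l 1 := by
    intro a b q hq
    obtain ⟨s, hs, t, e, h1, h2⟩ := hLS a b q hq
    refine ⟨s, hs, t, e, h1, ?_⟩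
    simpa only [pow_one] using h2
  have h := hS k n D l 1 hD hl hl0 hLSE t ht z (by simpa using hz) hdz
  simpa using h

theorem sur0_of (hS : Stmt_SURE.{u}) : Stmt_SUR0.{u} := by
  intro k _ _ n D hD hLS z hz hdz
  have hLSE : LSE D 1 0 := by
    intro a b q hq
    obtain ⟨s, hs, t, e, h1⟩ := hLS a b q hq
    refine ⟨s, hs, t, e, h1, Or.inl ?_⟩
    rw [Ideal.eq_top_iff_one]
    apply Ideal.subset_span
    rw [Set.mem_setOf_eq]
    simp
  obtain ⟨y, w, hy, hw, -, h⟩ := hS k n D 1 0 hD (isHomogeneous_one _ _) one_ne_zero hLSE 1 le_rfl z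
    (by simpa using hz) hdz
  simp only [CharP.cast_eq_zero, neg_zero, mul_zero] at hy hw
  refine ⟨y + w, ⟨fun τ => ?_, fun σ τ => ?_⟩, ?_⟩
  · rw [Pi.add_apply, Pi.add_apply, hy.1.1 τ, hw.1 τ, add_zero]
  · exact add_mem (hy.1.2 σ τ) (hw.2 σ τ)
  · funext σ τ
    rw [dd_add]
    have h1 := h σ τ
    simp only [Nat.sub_self, pow_zero, one_mul] at h1
    exact h1.symm

end

end Pool.Agent.DBX.SUR
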