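import Pool.Agent.DBX.SUR.Stmts

set_option autoImplicit false

namespace Pool.Agent.DBX.SUR

open MvPolynomial

universe u

namespace GE_

variable {k F : Type u} [Field k] [Field F] [Algebra k F]

theorem mem_toF {A : Subalgebra k F} {J : Ideal A} {z : F} :
    z ∈ toF A J ↔ ∃ y : A, y ∈ J ∧ (y : F) = z := by
  constructor
  · rintro ⟨y, hy, rfl⟩
    exact ⟨y, hy, rfl⟩
  · rintro ⟨y, hy, rfl⟩
    exact ⟨y, hy, rfl⟩

theorem genIn_incl {A B : Subalgebra k F} (hAB : A ≤ B) (J : Set F) (y : A)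
    (hy : y ∈ genIn A J) : (Subalgebra.inclusion hAB y) ∈ genIn B J := by
  have h1 : (genIn A J).map (Subalgebra.inclusion hAB).toRingHom ≤ genIn B J := by
    unfold genIn
    rw [Ideal.map_span, Ideal.span_le]
    rintro _ ⟨w, hw, rfl⟩
    exact Ideal.subset_span hw
  exact h1 (Ideal.mem_map_of_mem _ hy)

theorem rad_mono {A B : Subalgebra k F} (hAB : A ≤ B) (J : Set F) {z : F}
    (hz : z ∈ toF A (genIn A J).radical) : z ∈ toF B (genIn B J).radical := by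
  obtain ⟨y, ⟨K, hy⟩, rfl⟩ := mem_toF.1 hz
  refine mem_toF.2 ⟨Subalgebra.inclusion hAB y, ⟨K, ?_⟩, rfl⟩
  rw [← map_pow]
  exact genIn_incl hAB J _ hy

theorem toF_mul {A : Subalgebra k F} {J : Ideal A} {r z : F} (hr : r ∈ A) (hz : z ∈ toF A J) :
    r * z ∈ toF A J := by
  obtain ⟨y, hy, rfl⟩ := mem_toF.1 hz
  exact mem_toF.2 ⟨⟨r, hr⟩ * y, J.mul_mem_left _ hy, rfl⟩

end GE_

open GE_

theorem ge_proof (hRL : Stmt_RL.{u}) (hIJ : Stmt_IJ.{u}) (hLT : Stmt_LT.{u}) (hPU : Stmt_PU.{u})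
    (hLE : Stmt_LE.{u}) : Stmt_GE.{u} := by
  intro k _ n D l ε m C N h hD hC hE σ τ a ha hτ z
  obtain ⟨b, hb⟩ := hτ
  have hRg : ∀ v, C.Rg σ τ (insert v ∅) = P0 D σ τ ⊔ C.A v := by
    intro v
    unfold Cov.Rg
    congr 1
    simp
  have hxa : ∀ i, inc k n (X i) / inc k n (D.g a) ∈ P0 D σ τ := fun i =>
    Algebra.subset_adjoin (Or.inl ⟨a, ha, i, rfl⟩)
  have hch : D.ch a b ≤ P0 D σ τ := by
    refine Algebra.adjoin_le ?_
    rintro w (⟨i, rfl⟩ | ⟨j, rfl⟩)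
    · exact hxa i
    · exact Algebra.subset_adjoin (Or.inr ⟨b, hb, j, rfl⟩)
  have hxv : ∀ v i, inc k n (X i) / inc k n (D.g (C.a v)) ∈ C.A v := fun v i =>
    Algebra.subset_adjoin (Or.inl (Algebra.subset_adjoin (Or.inl ⟨i, rfl⟩)))
  have hB0 : ∀ v, P0 D σ τ ≤ P0 D σ τ ⊔ C.A v := fun v => le_sup_left
  have hAv : ∀ v, C.A v ≤ P0 D σ τ ⊔ C.A v := fun v => le_sup_right
  have hgen : ∀ v, genIn (P0 D σ τ ⊔ C.A v) (D.I0 a) =
      genIn (P0 D σ τ ⊔ C.A v) (D.I0 (C.a v)) := by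
    intro v
    refine (hIJ k n D hD a (P0 D σ τ ⊔ C.A v)).2.2 (C.a v) ?_ ?_
    · have := (hIJ k n D hD (C.a v) (P0 D σ τ ⊔ C.A v)).2.1 (fun i => hAv v (hxv v i))
        (D.g a) 1 (hD.g_hom a)
      rwa [pow_one] at this
    · have := (hIJ k n D hD a (P0 D σ τ ⊔ C.A v)).2.1 (fun i => hB0 v (hxa i))
        (D.g (C.a v)) 1 (hD.g_hom _)
      rwa [pow_one] at this
  have hmon : ∀ v, C.mon C.ce v ≠ 0 := fun v =>
    Finset.prod_ne_zero_iff.2 (fun i _ => pow_ne_zero _ (hC.t_ne v i))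
  constructor
  · intro hz
    have h1 : ∀ v, z ∈ toF (P0 D σ τ ⊔ C.A v) (genIn (P0 D σ τ ⊔ C.A v) (D.I0 a)).radical := by
      intro v
      have h2 : z / C.mon C.ce v ∈ P0 D σ τ ⊔ C.A v := by
        rw [← hRg v]; exact hz v
      have h3 : C.mon C.ce v ∈ toF (C.A v) (genIn (C.A v) (D.I0 (C.a v))).radical := by
        rw [hC.radE, div_self (hmon v)]
        exact one_mem _
      have h4 := toF_mul h2 (rad_mono (hAv v) _ h3)
      rw [div_mul_cancel₀ _ (hmon v)] at h4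
      rw [hgen v]
      exact h4
    refine hPU k n D m C N h hD hE a b (P0 D σ τ) hch
      (toF (P0 D σ τ) (genIn (P0 D σ τ) (D.I0 a)).radical).toAddSubgroup
      (fun r hr x hx => toF_mul hr hx) z ?_
    intro v
    have h5 := (hRL k (Fr k n) (P0 D σ τ) (P0 D σ τ ⊔ C.A v) (Cov.th D N h a b v) (D.I0 a)
      (hB0 v) (hch (hE.th_mem a b v)) (hAv v (hE.th_inv a b v)) ?_
      (hLT k n D m C N h hD hE a b v (P0 D σ τ) hch)
      ((hIJ k n D hD a (P0 D σ τ)).1 hxa) z).2.1 (h1 v)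
    · exact h5
    · unfold Cov.th
      exact div_ne_zero (hE.h_ne v) (pow_ne_zero _ (mul_ne_zero (inc_ne (hD.g_ne a))
        (inc_ne (hD.f_ne b))))
  · intro hz v
    rw [hRg v]
    obtain ⟨η, hη, hη0, hηi, hηl⟩ := hLE k n D m C hD σ τ v
    have h1 := rad_mono (hB0 v) _ hz
    rw [hgen v] at h1
    obtain ⟨e, he⟩ := (hRL k (Fr k n) (C.A v) (P0 D σ τ ⊔ C.A v) η (D.I0 (C.a v)) (hAv v) hη hηi
      hη0 hηl ((hIJ k n D hD (C.a v) (C.A v)).1 (hxv v)) z).2.1 h1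
    rw [hC.radE] at he
    have h2 : z / C.mon C.ce v = (η⁻¹) ^ e * (η ^ e * z / C.mon C.ce v) := by
      rw [inv_pow, mul_div_assoc, inv_mul_cancel_left₀ (pow_ne_zero _ hη0)]
    rw [h2]
    exact mul_mem (pow_mem hηi e) (hAv v he)

end Pool.Agent.DBX.SUR
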