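import Pool.Agent.DBX.SUR.Stmts

set_option autoImplicit false

/-! # MP_2c751f_ag, squad DBX, area SUR: module GS, global sections of the twists of `I·O` -/

namespace Pool.Agent.DBX.SUR

open MvPolynomial

noncomputable section

universe u

namespace GS_

variable {k : Type u} [Field k] {n : ℕ}

/-- membership in `toF` -/
theorem mem_toF {K L : Type u} [Field K] [Field L] [Algebra K L] {A : Subalgebra K L}
    {J : Ideal A} {z : L} : z ∈ toF A J ↔ ∃ y : A, y ∈ J ∧ (y : L) = z := by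
  unfold toF
  rw [Submodule.mem_map]
  rfl

/-- induction for elements of an ideal generated by elements of the field -/
theorem gen_induction {K L : Type u} [Field K] [Field L] [Algebra K L] {A : Subalgebra K L}
    {J : Set L} (P : L → Prop) (h0 : P 0) (hadd : ∀ x y, P x → P y → P (x + y))
    (hmul : ∀ a ∈ A, ∀ x, x ∈ A → P x → P (a * x)) (hJ : ∀ x ∈ A, x ∈ J → P x) {z : L}
    (hz : z ∈ toF A (genIn A J)) : P z := by
  obtain ⟨y, hy, rfl⟩ := mem_toF.mp hz
  unfold genIn at hy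
  induction hy using Submodule.span_induction with
  | mem x hx => exact hJ x x.2 hx
  | zero => simpa using h0
  | add x y hx hy h1 h2 =>
    simpa using hadd _ _ (h1 (mem_toF.mpr ⟨x, hx, rfl⟩)) (h2 (mem_toF.mpr ⟨y, hy, rfl⟩))
  | smul a x hx h1 =>
    simpa using hmul _ a.2 _ x.2 (h1 (mem_toF.mpr ⟨x, hx, rfl⟩))

theorem toF_mono {K L : Type u} [Field K] [Field L] [Algebra K L] {A B : Subalgebra K L}
    (hAB : A ≤ B) (J : Set L) {z : L} (hz : z ∈ toF A (genIn A J)) : z ∈ toF B (genIn B J) := by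
  refine gen_induction (fun z => z ∈ toF B (genIn B J)) (zero_mem _)
    (fun x y hx hy => add_mem hx hy) ?_ ?_ hz
  · intro a ha x _ hx
    obtain ⟨y, hy, rfl⟩ := mem_toF.mp hx
    exact mem_toF.mpr ⟨⟨a, hAB ha⟩ * y, Ideal.mul_mem_left _ _ hy, rfl⟩
  · intro x hx hxJ
    exact mem_toF.mpr ⟨⟨x, hAB hx⟩, Ideal.subset_span hxJ, rfl⟩

theorem P0_mono (D : Dat k n) (σ : Finset (Fin D.p)) (τ : Finset (Fin D.M)) :
    P0 D σ ∅ ≤ P0 D σ τ := by
  apply Algebra.adjoin_mono
  apply Set.union_subset_union_right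
  rintro z ⟨b, hb, -⟩
  exact absurd hb (Finset.notMem_empty b)

theorem X_mem (D : Dat k n) {σ : Finset (Fin D.p)} {a : Fin D.p} (ha : a ∈ σ)
    (τ : Finset (Fin D.M)) (i : Fin n) : inc k n (X i) / inc k n (D.g a) ∈ P0 D σ τ :=
  Algebra.subset_adjoin (Or.inl ⟨a, ha, i, rfl⟩)

/-- the graded module -/
def NN {Λ L : Type u} [CommRing Λ] [Field L] [Algebra Λ L] {m : ℕ} (h : Fin m → Lˣ)
    (N0 : Submodule Λ L) : ℕ → Submodule Λ L
  | 0 => N0
  | e + 1 =>
    { carrier := {x | ∃ y : Fin m → L, (∀ v, y v ∈ NN h N0 e) ∧ x = ∑ v, ((h v : Lˣ) : L) • y v}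
      zero_mem' := ⟨0, fun _ => zero_mem _, by simp⟩
      add_mem' := by
        rintro x x' ⟨y, hy, rfl⟩ ⟨y', hy', rfl⟩
        refine ⟨y + y', fun v => add_mem (hy v) (hy' v), ?_⟩
        rw [← Finset.sum_add_distrib]
        exact Finset.sum_congr rfl (fun v _ => by rw [Pi.add_apply, smul_add])
      smul_mem' := by
        rintro c x ⟨y, hy, rfl⟩
        refine ⟨c • y, fun v => Submodule.smul_mem _ _ (hy v), ?_⟩
        rw [Finset.smul_sum]
        exact Finset.sum_congr rfl (fun v _ => by rw [Pi.smul_apply, smul_comm]) }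

end GS_

open GS_

theorem gs_proof (hSER3 : Stmt_SER3.{u, u}) (hCJ : Stmt_CJ.{u}) (hPP : Stmt_PP.{u})
    (hIJ : Stmt_IJ.{u}) : Stmt_GS.{u} := by
  intro k _ n D hD hM σ a ha
  have hCoh := hCJ k n D hD σ a ha
  have : IsNoetherianRing (P0 D σ ∅) := (hPP k n D hD σ a ha).2 ∅
  set h := hu D hD a with hh
  have hN := hSER3 (P0 D σ ∅) (Fr k n) (Fr k n) D.M h (JM D a σ) (NN h (JM D a σ ∅)) hM hCoh
  have hB : ∀ τ (i : Fin n), inc k n (X i) / inc k n (D.g a) ∈ P0 D σ τ := X_mem D ha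
  have hmem : ∀ τ (x : Fr k n), x ∈ JM D a σ τ ↔ x ∈ toF (P0 D σ τ) (genIn (P0 D σ τ) (D.I0 a)) :=
    fun τ x => Iff.rfl
  have hI0 : ∀ τ, D.I0 a ⊆ (P0 D σ τ : Set (Fr k n)) := fun τ => (hIJ k n D hD a _).1 (hB τ)
  -- N 0 is finitely generated
  have h1 : (NN h (JM D a σ ∅) 0).FG := by
    change (JM D a σ ∅).FG
    have h2 : JM D a σ ∅ = Submodule.map (Algebra.linearMap (P0 D σ ∅) (Fr k n))
        (genIn (P0 D σ ∅) (D.I0 a)) := by
      ext x
      rw [hmem, mem_toF, Submodule.mem_map]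
      rfl
    rw [h2]
    exact Submodule.FG.map _ (IsNoetherian.noetherian _)
  -- the relation between M {v} and N
  have hmono : ∀ e (v : Fin D.M) (x : Fr k n), x ∈ NN h (JM D a σ ∅) e →
      ((h v : (Fr k n)ˣ) : Fr k n) * x ∈ NN h (JM D a σ ∅) (e + 1) := by
    intro e v x hx
    refine ⟨Pi.single v x, ?_, ?_⟩
    · intro w
      by_cases hw : w = v
      · subst hw; rwa [Pi.single_eq_same]
      · rw [Pi.single_eq_of_ne hw]; exact zero_mem _
    · rw [Finset.sum_eq_single v]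
      · rw [Pi.single_eq_same, smul_eq_mul]
      · intro w _ hw
        rw [Pi.single_eq_of_ne hw, smul_zero]
      · intro h'; exact absurd (Finset.mem_univ v) h'
  have hmono2 : ∀ d e (v : Fin D.M) (x : Fr k n), x ∈ NN h (JM D a σ ∅) e →
      ((h v : (Fr k n)ˣ) : Fr k n) ^ d * x ∈ NN h (JM D a σ ∅) (e + d) := by
    intro d
    induction d with
    | zero => intro e v x hx; simpa using hx
    | succ d ih =>
      intro e v x hx
      have := hmono _ v _ (ih e v x hx)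
      rw [← mul_assoc, ← pow_succ'] at this
      exact this
  have hPrg : ∀ v, ∀ p ∈ Prg (P0 D σ ∅) h {v}, ∀ y : Fr k n,
      (∃ e : ℕ, ((h v : (Fr k n)ˣ) : Fr k n) ^ e * y ∈ NN h (JM D a σ ∅) e) →
      ∃ e : ℕ, ((h v : (Fr k n)ˣ) : Fr k n) ^ e * (p * y) ∈ NN h (JM D a σ ∅) e := by
    intro v p hp
    unfold Prg at hp
    induction hp using Algebra.adjoin_induction with
    | mem z hz =>
      obtain ⟨u, hu1, w, rfl⟩ := hz
      rw [Finset.mem_singleton] at hu1
      subst hu1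
      rintro y ⟨e, he⟩
      refine ⟨e + 1, ?_⟩
      have h3 := hmono e w _ he
      have h4 : ((h u : (Fr k n)ˣ) : Fr k n) ≠ 0 := Units.ne_zero _
      have h5 : ((h u : (Fr k n)ˣ) : Fr k n) ^ (e + 1) *
          (((h w : (Fr k n)ˣ) : Fr k n) * (((h u)⁻¹ : (Fr k n)ˣ) : Fr k n) * y) =
          ((h w : (Fr k n)ˣ) : Fr k n) * (((h u : (Fr k n)ˣ) : Fr k n) ^ e * y) := by
        rw [Units.val_inv_eq_inv_val, pow_succ]
        field_simp
      rw [h5]; exact h3
    | algebraMap c =>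
      rintro y ⟨e, he⟩
      refine ⟨e, ?_⟩
      have h3 := Submodule.smul_mem _ c he
      have h4 : c • (((h v : (Fr k n)ˣ) : Fr k n) ^ e * y) =
          ((h v : (Fr k n)ˣ) : Fr k n) ^ e * (algebraMap (P0 D σ ∅) (Fr k n) c * y) := by
        rw [Algebra.smul_def]; ring
      rwa [← h4]
    | add p q _ _ hp hq =>
      rintro y hy
      obtain ⟨e1, h1⟩ := hp y hy
      obtain ⟨e2, h2⟩ := hq y hy
      refine ⟨e1 + e2, ?_⟩
      have h3 := hmono2 e2 e1 v _ h1
      have h4 := hmono2 e1 e2 v _ h2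
      rw [add_comm e2 e1] at h4
      have h5 := add_mem h3 h4
      have h6 : ((h v : (Fr k n)ˣ) : Fr k n) ^ (e1 + e2) * ((p + q) * y) =
        ((h v : (Fr k n)ˣ) : Fr k n) ^ e2 * (((h v : (Fr k n)ˣ) : Fr k n) ^ e1 * (p * y)) +
        ((h v : (Fr k n)ˣ) : Fr k n) ^ e1 * (((h v : (Fr k n)ˣ) : Fr k n) ^ e2 * (q * y)) := by
        rw [pow_add]; ring
      rwa [h6]
    | mul p q _ _ hp hq =>
      rintro y hy
      rw [mul_assoc]
      exact hp _ (hq _ hy)
  have h2 : ∀ v, ∀ x, x ∈ JM D a σ {v} ↔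
      ∃ e : ℕ, (((h v) ^ e : (Fr k n)ˣ) : Fr k n) • x ∈ NN h (JM D a σ ∅) e := by
    intro v x
    constructor
    · intro hx
      rw [hmem] at hx
      have h3 : ∃ e : ℕ, ((h v : (Fr k n)ˣ) : Fr k n) ^ e * x ∈ NN h (JM D a σ ∅) e := by
        refine gen_induction (fun x => ∃ e : ℕ, ((h v : (Fr k n)ˣ) : Fr k n) ^ e * x ∈
          NN h (JM D a σ ∅) e) ?_ ?_ ?_ ?_ hx
        · exact ⟨0, by rw [mul_zero]; exact zero_mem _⟩
        · rintro x y ⟨e1, h1⟩ ⟨e2, h2⟩
          refine ⟨e1 + e2, ?_⟩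
          have h3 := hmono2 e2 e1 v _ h1
          have h4 := hmono2 e1 e2 v _ h2
          rw [add_comm e2 e1] at h4
          have h5 := add_mem h3 h4
          have h6 : ((h v : (Fr k n)ˣ) : Fr k n) ^ (e1 + e2) * (x + y) =
            ((h v : (Fr k n)ˣ) : Fr k n) ^ e2 * (((h v : (Fr k n)ˣ) : Fr k n) ^ e1 * x) +
            ((h v : (Fr k n)ˣ) : Fr k n) ^ e1 * (((h v : (Fr k n)ˣ) : Fr k n) ^ e2 * y) := by
            rw [pow_add]; ring
          rwa [h6]
        · intro p hp y _ hy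
          refine hPrg v p ?_ y hy
          rw [((hPP k n D hD σ a ha).1 {v} (Finset.singleton_nonempty v) p)]
          exact hp
        · intro y _ hyJ
          refine ⟨0, ?_⟩
          rw [pow_zero, one_mul]
          change y ∈ JM D a σ ∅
          rw [hmem]
          exact mem_toF.mpr ⟨⟨y, hI0 ∅ hyJ⟩, Ideal.subset_span hyJ, rfl⟩
      obtain ⟨e, he⟩ := h3
      refine ⟨e, ?_⟩
      rw [Units.val_pow_eq_pow_val, smul_eq_mul]
      exact he
    · rintro ⟨e, he⟩
      have h3 : ∀ e, ∀ y ∈ NN h (JM D a σ ∅) e,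
          (((h v : (Fr k n)ˣ) : Fr k n) ^ e)⁻¹ * y ∈ JM D a σ {v} := by
        intro e
        induction e with
        | zero =>
          intro y hy
          rw [pow_zero, inv_one, one_mul]
          exact toF_mono (P0_mono D σ {v}) _ hy
        | succ e ih =>
          rintro y ⟨z, hz, rfl⟩
          rw [Finset.mul_sum]
          refine Submodule.sum_mem _ (fun w _ => ?_)
          have h4 := ih _ (hz w)
          have h5 : ((h w : (Fr k n)ˣ) : Fr k n) * (((h v)⁻¹ : (Fr k n)ˣ) : Fr k n) ∈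
              Prg (P0 D σ ∅) h {v} :=
            Algebra.subset_adjoin ⟨v, Finset.mem_singleton_self v, w, rfl⟩
          have h6 := hCoh.smul {v} (Finset.singleton_nonempty v) _ h5 _ h4
          have h7 : (((h v : (Fr k n)ˣ) : Fr k n) ^ (e + 1))⁻¹ *
              (((h w : (Fr k n)ˣ) : Fr k n) • z w) =
              (((h w : (Fr k n)ˣ) : Fr k n) * (((h v)⁻¹ : (Fr k n)ˣ) : Fr k n)) •
              ((((h v : (Fr k n)ˣ) : Fr k n) ^ e)⁻¹ * z w) := by
            rw [Units.val_inv_eq_inv_val, smul_eq_mul, smul_eq_mul, pow_succ, mul_inv]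
            ring
          rw [h7]; exact h6
      have h4 := h3 e _ he
      have h5 : (((h v : (Fr k n)ˣ) : Fr k n) ^ e)⁻¹ * ((((h v) ^ e : (Fr k n)ˣ) : Fr k n) • x) =
          x := by
        rw [Units.val_pow_eq_pow_val, smul_eq_mul, ← mul_assoc, inv_mul_cancel₀, one_mul]
        exact pow_ne_zero _ (Units.ne_zero _)
      rwa [h5] at h4
  obtain ⟨e0, he0⟩ := hN h1 (fun e x => Iff.rfl) h2
  refine ⟨e0, fun e he x hx => ?_⟩
  have h3 : x ∈ NN h (JM D a σ ∅) e := by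
    refine he0 e he x (fun b => ?_)
    have h4 := hx b
    have h5 : ((((h b) ^ e)⁻¹ : (Fr k n)ˣ) : Fr k n) • x =
        x / ((h b : (Fr k n)ˣ) : Fr k n) ^ e := by
      rw [Units.val_inv_eq_inv_val, Units.val_pow_eq_pow_val, smul_eq_mul, div_eq_inv_mul]
    rw [h5]
    exact h4
  -- N e ≤ N 0
  have h4 : ∀ e, ∀ y ∈ NN h (JM D a σ ∅) e, y ∈ JM D a σ ∅ := by
    intro e
    induction e with
    | zero => intro y hy; exact hy
    | succ e ih =>
      rintro y ⟨z, hz, rfl⟩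
      refine Submodule.sum_mem _ (fun w _ => ?_)
      have h5 : ((h w : (Fr k n)ˣ) : Fr k n) ∈ P0 D σ ∅ := by
        have h6 := (hIJ k n D hD a (P0 D σ ∅)).2.1 (hB ∅) (D.f w) D.δ (hD.f_hom w)
        exact h6
      exact Submodule.smul_mem (JM D a σ ∅) (⟨_, h5⟩ : P0 D σ ∅) (ih _ (hz w))
  exact h4 e x h3

end

end Pool.Agent.DBX.SUR
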