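import Pool.Agent.DBX.SUR.Stmts

set_option autoImplicit false

/-! # MP_2c751f_ag, squad DBX, area SUR: module IJ (helper93) -/

namespace Pool.Agent.DBX.SUR

open MvPolynomial

noncomputable section

universe u

namespace IJ_

variable {k : Type u} [Field k] {n : ℕ}

theorem hom_div (g : Pol k n) (B : Subalgebra k (Fr k n))
    (hB : ∀ i, inc k n (X i) / inc k n g ∈ B) (w : Pol k n) (d : ℕ) (hw : w.IsHomogeneous d) :
    inc k n w / inc k n g ^ d ∈ B := by
  rw [w.as_sum, map_sum, Finset.sum_div]
  refine sum_mem (fun s hs => ?_)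
  have hd : ∑ i, s i = d := by
    have h1 := hw (mem_support_iff.mp hs)
    rw [← h1, Finsupp.weight_apply, Finsupp.sum_fintype]
    · simp
    · intro i; simp
  rw [monomial_eq, map_mul, Finsupp.prod_fintype _ _ (fun i => pow_zero _), map_prod, mul_div_assoc,
    ← hd, ← Finset.prod_pow_eq_pow_sum, ← Finset.prod_div_distrib]
  refine mul_mem ?_ (prod_mem (fun i _ => ?_))
  · exact Subalgebra.algebraMap_mem B (coeff s w)
  · rw [map_pow, ← div_pow]
    exact pow_mem (hB i) _

end IJ_

open IJ_ in
theorem ij_proof : Stmt_IJ.{u} := by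
  intro k _ n D hD a B
  refine ⟨fun hB => ?_, fun hB w d hw => hom_div _ B hB w d hw, fun a' h1 h2 => ?_⟩
  · rintro z ⟨d, w, -, hw, rfl⟩
    exact hom_div _ B hB w d hw
  · have key : ∀ a a' : Fin D.p, inc k n (D.g a) / inc k n (D.g a') ∈ B →
        inc k n (D.g a') / inc k n (D.g a) ∈ B → genIn B (D.I0 a) ≤ genIn B (D.I0 a') := by
      intro a a' h1 h2
      have hg := inc_ne (hD.g_ne a)
      have hg' := inc_ne (hD.g_ne a')
      unfold genIn
      rw [Ideal.span_le]
      rintro ⟨z, hz⟩ ⟨d, w, hw, hwd, hz'⟩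
      have hz'' : z = inc k n w / inc k n (D.g a) ^ d := hz'
      have e1 : inc k n w / inc k n (D.g a') ^ d =
          z * (inc k n (D.g a) / inc k n (D.g a')) ^ d := by
        rw [hz'', div_pow]
        field_simp
      have m1 : inc k n w / inc k n (D.g a') ^ d ∈ B := by
        rw [e1]
        exact mul_mem hz (pow_mem h1 d)
      have e2 : (⟨z, hz⟩ : B) = ⟨(inc k n (D.g a') / inc k n (D.g a)) ^ d, pow_mem h2 d⟩ *
          ⟨inc k n w / inc k n (D.g a') ^ d, m1⟩ := by
        apply Subtype.ext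
        change z = (inc k n (D.g a') / inc k n (D.g a)) ^ d *
          (inc k n w / inc k n (D.g a') ^ d)
        rw [hz'', div_pow]
        field_simp
      rw [e2]
      exact Ideal.mul_mem_left _ _ (Ideal.subset_span ⟨d, w, hw, hwd, rfl⟩)
    exact le_antisymm (key a a' h1 h2) (key a' a h2 h1)

end

end Pool.Agent.DBX.SUR
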