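import Pool.Agent.DBX.SUR.Stmts

set_option autoImplicit false

/-! # MP_2c751f_ag, squad DBX, area SUR, module LE -/

namespace Pool.Agent.DBX.SUR

open MvPolynomial

noncomputable section

universe u

namespace LE_

variable {K L : Type u} [Field K] [Field L] [Algebra K L]

/-- elements which land in `A` after multiplication by a power of `P ∈ A` -/
def U (A : Subalgebra K L) (P : L) (hP : P ∈ A) : Subalgebra K L where
  carrier := {x | ∃ e : ℕ, P ^ e * x ∈ A}
  mul_mem' := by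
    rintro a b ⟨e, ha⟩ ⟨e', hb⟩
    refine ⟨e + e', ?_⟩
    have h : P ^ (e + e') * (a * b) = (P ^ e * a) * (P ^ e' * b) := by rw [pow_add]; ring
    rw [h]
    exact A.mul_mem ha hb
  add_mem' := by
    rintro a b ⟨e, ha⟩ ⟨e', hb⟩
    refine ⟨e + e', ?_⟩
    have h : P ^ (e + e') * (a + b) = P ^ e' * (P ^ e * a) + P ^ e * (P ^ e' * b) := by
      rw [pow_add]; ring
    rw [h]
    exact A.add_mem (A.mul_mem (A.pow_mem hP _) ha) (A.mul_mem (A.pow_mem hP _) hb)
  algebraMap_mem' := by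
    intro r
    refine ⟨0, ?_⟩
    rw [pow_zero, one_mul]
    exact A.algebraMap_mem r

end LE_

open LE_ in
theorem le_proof (hIJ : Stmt_IJ.{u}) : Stmt_LE.{u} := by
  intro k _ n D m C hD σ τ v
  set A := C.A v with hA
  have hch : D.ch (C.a v) (C.b v) ≤ A := by
    intro z hz
    exact Algebra.subset_adjoin (Or.inl hz)
  have hxA : ∀ i, inc k n (X i) / inc k n (D.g (C.a v)) ∈ A := fun i =>
    hch (Algebra.subset_adjoin (Or.inl ⟨i, rfl⟩))
  have hfA : ∀ j, inc k n (D.f j) / inc k n (D.f (C.b v)) ∈ A := fun j =>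
    hch (Algebra.subset_adjoin (Or.inr ⟨j, rfl⟩))
  have hgA : ∀ a', inc k n (D.g a') / inc k n (D.g (C.a v)) ∈ A := by
    intro a'
    have h1 := (hIJ k n D hD (C.a v) A).2.1 hxA (D.g a') 1 (hD.g_hom a')
    rwa [pow_one] at h1
  have hg0 : ∀ a', inc k n (D.g a') ≠ 0 := fun a' => inc_ne (hD.g_ne a')
  have hf0 : ∀ b', inc k n (D.f b') ≠ 0 := fun b' => inc_ne (hD.f_ne b')
  set P1 : Fr k n := ∏ a' ∈ σ, inc k n (D.g a') / inc k n (D.g (C.a v)) with hP1
  set P2 : Fr k n := ∏ b' ∈ τ, inc k n (D.f b') / inc k n (D.f (C.b v)) with hP2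
  have hP1A : P1 ∈ A := Subalgebra.prod_mem _ (fun a' _ => hgA a')
  have hP2A : P2 ∈ A := Subalgebra.prod_mem _ (fun b' _ => hfA b')
  have hηA : P1 * P2 ∈ A := A.mul_mem hP1A hP2A
  have hP10 : P1 ≠ 0 := Finset.prod_ne_zero_iff.2 (fun a' _ => div_ne_zero (hg0 _) (hg0 _))
  have hP20 : P2 ≠ 0 := Finset.prod_ne_zero_iff.2 (fun b' _ => div_ne_zero (hf0 _) (hf0 _))
  refine ⟨P1 * P2, hηA, mul_ne_zero hP10 hP20, ?_, ?_⟩
  · rw [mul_inv]
    refine (P0 D σ τ ⊔ A).mul_mem ?_ ?_
    · rw [hP1, ← Finset.prod_inv_distrib]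
      refine Subalgebra.prod_mem _ (fun a' ha' => ?_)
      rw [inv_div]
      refine (le_sup_left : P0 D σ τ ≤ P0 D σ τ ⊔ A) ?_
      have h1 := (hIJ k n D hD a' (P0 D σ τ)).2.1
        (fun i => Algebra.subset_adjoin (Or.inl ⟨a', ha', i, rfl⟩)) (D.g (C.a v)) 1
        (hD.g_hom _)
      rwa [pow_one] at h1
    · rw [hP2, ← Finset.prod_inv_distrib]
      refine Subalgebra.prod_mem _ (fun b' hb' => ?_)
      rw [inv_div]
      exact (le_sup_left : P0 D σ τ ≤ P0 D σ τ ⊔ A)
        (Algebra.subset_adjoin (Or.inr ⟨b', hb', C.b v, rfl⟩))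
  · have hle : P0 D σ τ ⊔ A ≤ U A (P1 * P2) hηA := by
      refine sup_le ?_ ?_
      · refine Algebra.adjoin_le ?_
        rintro z (⟨a', ha', i, rfl⟩ | ⟨b', hb', j, rfl⟩)
        · refine ⟨1, ?_⟩
          rw [pow_one, hP1, ← Finset.mul_prod_erase σ _ ha']
          have h2 : inc k n (D.g a') / inc k n (D.g (C.a v)) *
              (∏ x ∈ σ.erase a', inc k n (D.g x) / inc k n (D.g (C.a v))) * P2 *
              (inc k n (X i) / inc k n (D.g a')) =
              (∏ x ∈ σ.erase a', inc k n (D.g x) / inc k n (D.g (C.a v))) * P2 *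
              (inc k n (X i) / inc k n (D.g (C.a v))) := by
            field_simp [hg0 a', hg0 (C.a v)]
          rw [h2]
          exact A.mul_mem (A.mul_mem (Subalgebra.prod_mem _ (fun x _ => hgA x)) hP2A) (hxA i)
        · refine ⟨1, ?_⟩
          rw [pow_one, hP2, ← Finset.mul_prod_erase τ _ hb']
          have h2 : P1 * (inc k n (D.f b') / inc k n (D.f (C.b v)) *
              ∏ x ∈ τ.erase b', inc k n (D.f x) / inc k n (D.f (C.b v))) *
              (inc k n (D.f j) / inc k n (D.f b')) =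
              P1 * (∏ x ∈ τ.erase b', inc k n (D.f x) / inc k n (D.f (C.b v))) *
              (inc k n (D.f j) / inc k n (D.f (C.b v))) := by
            field_simp [hf0 b', hf0 (C.b v)]
          rw [h2]
          exact A.mul_mem (A.mul_mem hP1A (Subalgebra.prod_mem _ (fun x _ => hfA x))) (hfA j)
      · intro z hz
        refine ⟨0, ?_⟩
        rw [pow_zero, one_mul]
        exact hz
    intro z hz
    exact hle hz

end

end Pool.Agent.DBX.SUR
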