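import Pool.Agent.DBX.SUR.Stmts

set_option autoImplicit false

/-! # MP_2c751f_ag, squad DBX, area SUR: module NZ -/

namespace Pool.Agent.DBX.SUR

open MvPolynomial

noncomputable section

universe u

namespace NZ_

variable {k : Type u} [Field k] {n : ℕ}

theorem ch_le_P0 {D : Dat k n} {σ : Finset (Fin D.p)} {τ : Finset (Fin D.M)} {a : Fin D.p}
    {b : Fin D.M} (ha : a ∈ σ) (hb : b ∈ τ) : D.ch a b ≤ P0 D σ τ := by
  refine Algebra.adjoin_mono ?_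
  rintro z (⟨i, rfl⟩ | ⟨j, rfl⟩)
  · exact Or.inl ⟨a, ha, i, rfl⟩
  · exact Or.inr ⟨b, hb, j, rfl⟩

theorem toF_mul {A : Subalgebra k (Fr k n)} {J : Ideal A} {r x : Fr k n} (hr : r ∈ A)
    (hx : x ∈ toF A J) : r * x ∈ toF A J := by
  obtain ⟨y, hy, rfl⟩ := hx
  exact ⟨⟨r, hr⟩ * y, Ideal.mul_mem_left _ _ hy, rfl⟩

theorem toF_genIn_mono {A B : Subalgebra k (Fr k n)} (hAB : A ≤ B) (J : Set (Fr k n)) {x : Fr k n}
    (hx : x ∈ toF A (genIn A J)) : x ∈ toF B (genIn B J) := by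
  obtain ⟨z, hz, rfl⟩ := hx
  change (z : Fr k n) ∈ _
  have hz' : z ∈ genIn A J := hz
  unfold genIn at hz'
  clear hz
  induction hz' using Submodule.span_induction with
  | mem z hz => exact ⟨⟨(z : Fr k n), hAB z.2⟩, Ideal.subset_span hz, rfl⟩
  | zero => exact zero_mem _
  | add x y _ _ hx hy => exact add_mem hx hy
  | smul r x _ hx => exact toF_mul (hAB r.2) hx

theorem Rg_single {D : Dat k n} {m : ℕ} (C : Cov D m) (σ : Finset (Fin D.p))
    (τ : Finset (Fin D.M)) (v : Fin m) : C.Rg σ τ (insert v ∅) = P0 D σ τ ⊔ C.A v := by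
  unfold Cov.Rg
  rw [insert_empty_eq]
  simp

theorem mon_smul {D : Dat k n} {m : ℕ} (C : Cov D m) (c : Fin m → Fin (n - 1) → ℕ) (N : ℕ)
    (v : Fin m) : C.mon (N • c) v = C.mon c v ^ N := by
  unfold Cov.mon
  rw [← Finset.prod_pow]
  refine Finset.prod_congr rfl (fun i _ => ?_)
  rw [← pow_mul, Pi.smul_apply, Pi.smul_apply, smul_eq_mul, mul_comm]

end NZ_

open NZ_ in
theorem nz_proof (hRL : Stmt_RL.{u}) (hIJ : Stmt_IJ.{u}) (hLT : Stmt_LT.{u}) (hPU : Stmt_PU.{u}) :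
    Stmt_NZ.{u} := by
  intro k _ n D l ε m C N h hD hC hE
  have hmon : ∀ v, C.mon C.ce v ≠ 0 := fun v =>
    Finset.prod_ne_zero_iff.mpr (fun i _ => pow_ne_zero _ (hC.t_ne v i))
  have h1 : ∀ v, ∃ K : ℕ, C.mon C.ce v ^ K ∈ toF (C.A v) (genIn (C.A v) (D.I0 (C.a v))) := by
    intro v
    have h2 := (hC.radE v (C.mon C.ce v)).mpr (by rw [div_self (hmon v)]; exact one_mem _)
    obtain ⟨y, hy, hy1⟩ := h2
    obtain ⟨K, hK⟩ := (hy : y ∈ (genIn (C.A v) (D.I0 (C.a v))).radical)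
    refine ⟨K, y ^ K, hK, ?_⟩
    have h3 : (y : Fr k n) = C.mon C.ce v := hy1
    change ((y ^ K : C.A v) : Fr k n) = _
    rw [SubmonoidClass.coe_pow, h3]
  choose K hK using h1
  refine ⟨1 + ∑ v, K v, by omega, ?_⟩
  intro σ τ a ha hτ z hz
  obtain ⟨b, hb⟩ := hτ
  have hch := ch_le_P0 (D := D) ha hb
  refine hPU k n D m C N h hD hE a b (P0 D σ τ) hch
    (toF (P0 D σ τ) (genIn (P0 D σ τ) (D.I0 a))).toAddSubgroup
    (fun r hr x hx => toF_mul hr hx) z ?_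
  intro v
  have hz1 := hz v
  rw [Rg_single, mon_smul] at hz1
  set B := P0 D σ τ ⊔ C.A v with hB
  have hAB : C.A v ≤ B := le_sup_right
  have hPB : P0 D σ τ ≤ B := le_sup_left
  -- the ideal of `B`
  have hz2 : z ∈ toF B (genIn B (D.I0 (C.a v))) := by
    have h3 : C.mon C.ce v ^ (1 + ∑ v, K v) ∈ toF (C.A v) (genIn (C.A v) (D.I0 (C.a v))) := by
      have h4 : K v ≤ ∑ v, K v :=
        Finset.single_le_sum (f := K) (fun _ _ => Nat.zero_le _) (Finset.mem_univ v)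
      have h5 : 1 + ∑ v, K v = (1 + ∑ v, K v - K v) + K v := by omega
      rw [h5, pow_add]
      refine toF_mul ?_ (hK v)
      refine pow_mem ?_ _
      exact prod_mem (fun i _ => pow_mem (hC.t_mem v i) _)
    have h4 := toF_genIn_mono hAB _ h3
    have h5 := toF_mul hz1 h4
    rwa [div_mul_cancel₀ _ (pow_ne_zero _ (hmon v))] at h5
  have hxa : ∀ i, inc k n (X i) / inc k n (D.g a) ∈ P0 D σ τ := fun i =>
    Algebra.subset_adjoin (Or.inl ⟨a, ha, i, rfl⟩)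
  have hxv : ∀ i, inc k n (X i) / inc k n (D.g (C.a v)) ∈ B := by
    intro i
    refine hAB (Algebra.subset_adjoin (Or.inl ?_))
    exact Algebra.subset_adjoin (Or.inl ⟨i, rfl⟩)
  have hg1 : inc k n (D.g a) / inc k n (D.g (C.a v)) ∈ B := by
    have := (hIJ k n D hD (C.a v) B).2.1 hxv (D.g a) 1 (hD.g_hom a)
    rwa [pow_one] at this
  have hg2 : inc k n (D.g (C.a v)) / inc k n (D.g a) ∈ B := by
    have := (hIJ k n D hD a B).2.1 (fun i => hPB (hxa i)) (D.g (C.a v)) 1 (hD.g_hom _)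
    rwa [pow_one] at this
  rw [← (hIJ k n D hD a B).2.2 (C.a v) hg1 hg2] at hz2
  have hth : Cov.th D N h a b v ≠ 0 :=
    div_ne_zero (hE.h_ne v) (pow_ne_zero _ (mul_ne_zero (inc_ne (hD.g_ne a)) (inc_ne (hD.f_ne b))))
  exact ((hRL k (Fr k n) (P0 D σ τ) B (Cov.th D N h a b v) (D.I0 a) hPB
    (hch (hE.th_mem a b v)) (hAB (hE.th_inv a b v)) hth
    (hLT k n D m C N h hD hE a b v (P0 D σ τ) hch)
    ((hIJ k n D hD a (P0 D σ τ)).1 hxa) z).1).mp hz2

end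

end Pool.Agent.DBX.SUR
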