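import Pool.Agent.DBX.SUR.Stmts

set_option autoImplicit false

/-! # MP_2c751f_ag, squad DBX, area SUR: module PMG (helper93) -/

namespace Pool.Agent.DBX.SUR

open MvPolynomial

noncomputable section

universe u

namespace PMG_

variable {k : Type u} [Field k] {n : ℕ}

theorem mon_add {D : Dat k n} {m : ℕ} (C : Cov D m) (c c' : Fin m → Fin (n - 1) → ℕ) (v : Fin m) :
    C.mon (c + c') v = C.mon c v * C.mon c' v := by
  unfold Cov.mon
  rw [← Finset.prod_mul_distrib]
  exact Finset.prod_congr rfl (fun i _ => by rw [Pi.add_apply, Pi.add_apply, pow_add])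

theorem mon_smul {D : Dat k n} {m : ℕ} (C : Cov D m) (e : ℕ) (c : Fin m → Fin (n - 1) → ℕ)
    (v : Fin m) : C.mon (e • c) v = C.mon c v ^ e := by
  unfold Cov.mon
  rw [← Finset.prod_pow]
  exact Finset.prod_congr rfl
    (fun i _ => by rw [Pi.smul_apply, Pi.smul_apply, smul_eq_mul, mul_comm, pow_mul])

end PMG_

open PMG_ in
theorem pmg_proof (hUC : Stmt_UC.{u}) : Stmt_PMG.{u} := by
  intro k _ n D l ε m C N h hD hC hE N0 m0 t hN0 ht
  have hAs : ∀ v w : Fin m, (⨆ u ∈ ({v, w} : Finset (Fin m)), C.A u) = C.A v ⊔ C.A w := by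
    intro v w
    rw [Finset.iSup_insert, Finset.iSup_singleton]
  refine
    { h_ne := hE.h_ne
      t_ne := hC.t_ne
      t_mem := hC.t_mem
      fg := hE.fg
      h_mem := hE.h_mem
      glue := hE.glue
      fin := hE.fin
      etale := hC.etale
      c_le := hC.ce_le
      c_supp := ?_
      t_inv := hC.t_inv
      c_glue := ?_
      c'_glue := ?_ }
  · intro v i
    have h1 := hC.cf_supp v i
    simp only [Pi.add_apply, Pi.smul_apply, smul_eq_mul]
    constructor
    · intro h0
      have h2 : C.ce v i = 0 := by omega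
      have h3 : C.cl v i = 0 := by omega
      rw [h2, h3, h1 h2]
      simp
    · intro h0
      have h2 : N0 * C.ce v i = 0 := by omega
      have h3 : t * C.cl v i = 0 := by omega
      rcases Nat.mul_eq_zero.mp h2 with h4 | h4
      · omega
      rcases Nat.mul_eq_zero.mp h3 with h5 | h5
      · omega
      omega
  · intro v w
    change C.mon (C.ce + C.cl) v / C.mon (C.ce + C.cl) w ∈
      ⨆ u ∈ ({v, w} : Finset (Fin m)), C.A u
    rw [hAs, mon_add, mon_add, mul_div_mul_comm]
    exact mul_mem (hUC k n D l ε m C N h hD hC hE v w).1 (hUC k n D l ε m C N h hD hC hE v w).2.2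
  · intro v w
    change C.mon (N0 • C.ce + m0 • C.cf + t • C.cl) v / C.mon (N0 • C.ce + m0 • C.cf + t • C.cl) w ∈
      ⨆ u ∈ ({v, w} : Finset (Fin m)), C.A u
    rw [hAs, mon_add, mon_add, mon_add, mon_add, mon_smul, mon_smul, mon_smul, mon_smul, mon_smul,
      mon_smul, mul_div_mul_comm, mul_div_mul_comm, ← div_pow, ← div_pow, ← div_pow]
    exact mul_mem (mul_mem (pow_mem (hUC k n D l ε m C N h hD hC hE v w).1 _)
      (pow_mem (hUC k n D l ε m C N h hD hC hE v w).2.1 _))
      (pow_mem (hUC k n D l ε m C N h hD hC hE v w).2.2 _)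

end

end Pool.Agent.DBX.SUR
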