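import Pool.Agent.DBX.SUR.Stmts

set_option autoImplicit false

/-! # MP_2c751f_ag, squad DBX, area SUR: `P0` as a ring of fractions -/

namespace Pool.Agent.DBX.SUR

open MvPolynomial

noncomputable section

universe u

namespace PP_

variable {k : Type u} [Field k] {n : ℕ}

theorem hu_mul_inv (D : Dat k n) (hD : D.Good) (a : Fin D.p) (w v : Fin D.M) :
    ((hu D hD a w : (Fr k n)ˣ) : Fr k n) * (((hu D hD a v)⁻¹ : (Fr k n)ˣ) : Fr k n) =
      inc k n (D.f w) / inc k n (D.f v) := by
  have hg : inc k n (D.g a) ^ D.δ ≠ 0 := pow_ne_zero _ (inc_ne (hD.g_ne a))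
  have hf : inc k n (D.f v) ≠ 0 := inc_ne (hD.f_ne v)
  rw [Units.val_inv_eq_inv_val]
  change (inc k n (D.f w) / inc k n (D.g a) ^ D.δ) * (inc k n (D.f v) / inc k n (D.g a) ^ D.δ)⁻¹ = _
  rw [inv_div, div_mul_div_comm, mul_comm (inc k n (D.g a) ^ D.δ)]
  exact mul_div_mul_right _ _ hg

theorem P0_mono (D : Dat k n) (σ : Finset (Fin D.p)) (τ : Finset (Fin D.M)) :
    P0 D σ ∅ ≤ P0 D σ τ := by
  refine Algebra.adjoin_mono ?_
  rintro z (hz | ⟨b, hb, -⟩)
  · exact Or.inl hz
  · exact absurd hb (Finset.notMem_empty b)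

theorem fin_gen (D : Dat k n) (σ : Finset (Fin D.p)) (τ : Finset (Fin D.M)) :
    ({z : Fr k n | ∃ a ∈ σ, ∃ i, z = inc k n (X i) / inc k n (D.g a)} ∪
      {z : Fr k n | ∃ b ∈ τ, ∃ j, z = inc k n (D.f j) / inc k n (D.f b)}).Finite := by
  apply Set.Finite.union
  · have h1 : (Set.range (fun q : Fin D.p × Fin n =>
        inc k n (X q.2) / inc k n (D.g q.1))).Finite := Set.finite_range _
    refine h1.subset ?_
    rintro z ⟨a, _, i, rfl⟩
    exact ⟨(a, i), rfl⟩
  · have h1 : (Set.range (fun q : Fin D.M × Fin D.M =>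
        inc k n (D.f q.2) / inc k n (D.f q.1))).Finite := Set.finite_range _
    refine h1.subset ?_
    rintro z ⟨b, _, j, rfl⟩
    exact ⟨(b, j), rfl⟩

end PP_

theorem pp_proof : Stmt_PP.{u} := by
  intro k _ n D hD σ a ha
  constructor
  · intro τ hτ z
    constructor
    · intro hz
      unfold Prg at hz
      induction hz using Algebra.adjoin_induction with
      | mem z hz =>
        obtain ⟨v, hv, w, rfl⟩ := hz
        rw [PP_.hu_mul_inv]
        exact Algebra.subset_adjoin (Or.inr ⟨v, hv, w, rfl⟩)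
      | algebraMap c => exact PP_.P0_mono D σ τ c.2
      | add x y _ _ hx hy => exact add_mem hx hy
      | mul x y _ _ hx hy => exact mul_mem hx hy
    · intro hz
      unfold P0 at hz
      induction hz using Algebra.adjoin_induction with
      | mem z hz =>
        rcases hz with ⟨a', ha', i, rfl⟩ | ⟨b, hb, j, rfl⟩
        · have h1 : inc k n (X i) / inc k n (D.g a') ∈ P0 D σ ∅ :=
            Algebra.subset_adjoin (Or.inl ⟨a', ha', i, rfl⟩)
          exact (Prg (P0 D σ ∅) (hu D hD a) τ).algebraMap_mem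
            (⟨inc k n (X i) / inc k n (D.g a'), h1⟩ : P0 D σ ∅)
        · refine Algebra.subset_adjoin ⟨b, hb, j, ?_⟩
          rw [PP_.hu_mul_inv]
      | algebraMap c =>
        exact (Prg (P0 D σ ∅) (hu D hD a) τ).algebraMap_mem (algebraMap k (P0 D σ ∅) c)
      | add x y _ _ hx hy => exact add_mem hx hy
      | mul x y _ _ hx hy => exact mul_mem hx hy
  · intro τ
    have h1 : (P0 D σ τ).FG := Subalgebra.fg_def.2 ⟨_, PP_.fin_gen D σ τ, rfl⟩
    have h2 : Algebra.FiniteType k (P0 D σ τ) := (P0 D σ τ).fg_iff_finiteType.1 h1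
    exact Algebra.FiniteType.isNoetherianRing k _

end

end Pool.Agent.DBX.SUR
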