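import Pool.Agent.DBX.SUR.Stmts
import Pool.Agent.DBX.Cd

set_option autoImplicit false

/-! # MP_2c751f_ag, squad DBX, area SUR: module PSH -/

namespace Pool.Agent.DBX.SUR

open MvPolynomial

noncomputable section

universe u

namespace PSH_

variable {k : Type u} [Field k] {n : ℕ}

theorem P0_mono (D : Dat k n) (σ : Finset (Fin D.p)) {τ τ' : Finset (Fin D.M)} (h : τ ⊆ τ') :
    P0 D σ τ ≤ P0 D σ τ' := by
  apply Algebra.adjoin_mono
  apply Set.union_subset_union_right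
  rintro z ⟨b, hb, j, hz⟩
  exact ⟨b, h hb, j, hz⟩

theorem Rg_mono {D : Dat k n} {m : ℕ} (C : Cov D m) (σ : Finset (Fin D.p))
    {τ τ' : Finset (Fin D.M)} (h : τ ⊆ τ') (ω : Finset (Fin m)) : C.Rg σ τ ω ≤ C.Rg σ τ' ω :=
  sup_le_sup_right (P0_mono D σ h) _

theorem G_mono {D : Dat k n} {m : ℕ} (C : Cov D m) (c : Fin m → Fin (n - 1) → ℕ)
    (σ : Finset (Fin D.p)) {τ τ' : Finset (Fin D.M)} (h : τ ⊆ τ') (ω : Finset (Fin m))
    {z : Fr k n} (hz : z ∈ C.G c σ τ ω) : z ∈ C.G c σ τ' ω :=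
  fun v => Rg_mono C σ h _ (hz v)

theorem G_mul {D : Dat k n} {m : ℕ} (C : Cov D m) (c : Fin m → Fin (n - 1) → ℕ)
    (σ : Finset (Fin D.p)) (τ : Finset (Fin D.M)) (ω : Finset (Fin m))
    {r z : Fr k n} (hr : r ∈ P0 D σ τ) (hz : z ∈ C.G c σ τ ω) : r * z ∈ C.G c σ τ ω := by
  intro v
  rw [mul_div_assoc]
  exact mul_mem ((le_sup_left : P0 D σ τ ≤ C.Rg σ τ (insert v ω)) hr) (hz v)

theorem g_ratio (hIJ : Stmt_IJ.{u}) (D : Dat k n) (hD : D.Good) (σ : Finset (Fin D.p))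
    (τ : Finset (Fin D.M)) (a a' : Fin D.p) (ha' : a' ∈ σ) :
    inc k n (D.g a) / inc k n (D.g a') ∈ P0 D σ τ := by
  have h1 := (hIJ k n D hD a' (P0 D σ τ)).2.1 (fun i =>
    Algebra.subset_adjoin (Or.inl ⟨a', ha', i, rfl⟩)) (D.g a) 1 (hD.g_hom a)
  rwa [pow_one] at h1

theorem f_ratio (D : Dat k n) (σ : Finset (Fin D.p))
    (τ : Finset (Fin D.M)) (b b' : Fin D.M) (hb' : b' ∈ τ) :
    inc k n (D.f b) / inc k n (D.f b') ∈ P0 D σ τ :=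
  Algebra.subset_adjoin (Or.inr ⟨b', hb', b, rfl⟩)

theorem g_zpow (hIJ : Stmt_IJ.{u}) (D : Dat k n) (hD : D.Good) (σ : Finset (Fin D.p))
    (τ : Finset (Fin D.M)) (a a' : Fin D.p) (ha : a ∈ σ) (ha' : a' ∈ σ) (μ : ℤ) :
    (inc k n (D.g a) / inc k n (D.g a')) ^ μ ∈ P0 D σ τ := by
  rcases le_total 0 μ with h | h
  · lift μ to ℕ using h
    rw [zpow_natCast]
    exact pow_mem (g_ratio hIJ D hD σ τ a a' ha') _
  · obtain ⟨e, he⟩ : ∃ e : ℕ, μ = -(e : ℤ) := ⟨(-μ).toNat, by omega⟩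
    rw [he, zpow_neg, ← inv_zpow, inv_div, zpow_natCast]
    exact pow_mem (g_ratio hIJ D hD σ τ a' a ha) _

theorem hu_val (D : Dat k n) (hD : D.Good) (a : Fin D.p) (b : Fin D.M) :
    (hu D hD a b : Fr k n) = inc k n (D.f b) / inc k n (D.g a) ^ D.δ := rfl

theorem hu_ratio (hIJ : Stmt_IJ.{u}) (D : Dat k n) (hD : D.Good) (σ : Finset (Fin D.p))
    (τ : Finset (Fin D.M)) (a a' : Fin D.p) (ha : a ∈ σ) (b b' : Fin D.M)
    (hb' : b' ∈ τ) :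
    (hu D hD a b : Fr k n) / (hu D hD a' b' : Fr k n) ∈ P0 D σ τ := by
  have h1 : (hu D hD a b : Fr k n) / (hu D hD a' b' : Fr k n) =
      (inc k n (D.f b) / inc k n (D.f b')) * (inc k n (D.g a') / inc k n (D.g a)) ^ D.δ := by
    rw [hu_val, hu_val]
    have e1 := inc_ne (hD.g_ne a)
    have e2 := inc_ne (hD.g_ne a')
    have e3 := inc_ne (hD.f_ne b')
    rw [div_pow]
    field_simp
  rw [h1]
  exact mul_mem (f_ratio D σ τ b b' hb') (pow_mem (g_ratio hIJ D hD σ τ a' a ha) _)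

/-- membership in `Sy` for nonempty `τ` -/
theorem sy_of (hIJ : Stmt_IJ.{u}) {D : Dat k n} {m : ℕ} (C : Cov D m) (hD : D.Good) (N0 m0 : ℕ)
    (μ : ℤ) (σ : Finset (Fin D.p)) (τ : Finset (Fin D.M)) (a0 : Fin D.p) (ha0 : a0 ∈ σ)
    (b0 : Fin D.M) (hb0 : b0 ∈ τ) (z : Fr k n)
    (hz : z / (inc k n (D.g a0) ^ μ * (hu D hD a0 b0 : Fr k n) ^ m0) ∈
      C.G (N0 • C.ce) σ τ ∅) : z ∈ Sy C hD N0 m0 μ σ τ := by
  constructor
  · intro a ha b
    have e1 := inc_ne (hD.g_ne a)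
    have e2 := inc_ne (hD.g_ne a0)
    have e3 : (hu D hD a b : Fr k n) ≠ 0 := Units.ne_zero _
    have e4 : (hu D hD a0 b0 : Fr k n) ≠ 0 := Units.ne_zero _
    have h1 : z / (inc k n (D.g a) ^ μ * (hu D hD a b : Fr k n) ^ m0) =
        ((inc k n (D.g a0) / inc k n (D.g a)) ^ μ *
          ((hu D hD a0 b0 : Fr k n) / (hu D hD a b : Fr k n)) ^ m0) *
          (z / (inc k n (D.g a0) ^ μ * (hu D hD a0 b0 : Fr k n) ^ m0)) := by
      rw [div_zpow, div_pow]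
      have e5 := zpow_ne_zero μ e1
      have e6 := zpow_ne_zero μ e2
      field_simp
    rw [h1]
    refine G_mul C _ σ _ _ (mul_mem (g_zpow hIJ D hD σ _ a0 a ha0 ha μ)
      (pow_mem (hu_ratio hIJ D hD σ _ a0 a ha0 b0 b (Finset.mem_insert_self b τ)) _))
      (G_mono C _ σ (Finset.subset_insert b τ) _ hz)
  · intro h
    rw [h] at hb0
    exact absurd hb0 (Finset.notMem_empty _)

theorem main (hSER2 : Stmt_SER2.{u, u}) (hCM : Stmt_CM.{u}) (hGS : Stmt_GS.{u})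
    (hEG0 : Stmt_EG0.{u}) (hIJ : Stmt_IJ.{u}) (hPP : Stmt_PP.{u})
    (D : Dat k n) (l : Pol k n) (ε m : ℕ) (C : Cov D m) (N : ℕ)
    (h : Fin m → Fr k n) (hD : D.Good) (hC : C.Good l ε) (hE : C.Emb N h) (hM : 0 < D.M)
    (N0 : ℕ)
    (hNZ : ∀ (σ : Finset (Fin D.p)) (τ : Finset (Fin D.M)) (a : Fin D.p), a ∈ σ → τ.Nonempty →
      ∀ z ∈ C.G (N0 • C.ce) σ τ ∅, z ∈ toF (P0 D σ τ) (genIn (P0 D σ τ) (D.I0 a)))
    (σ : Finset (Fin D.p)) (hσ : σ.Nonempty) :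
    ∃ m1 : ℕ, ∀ m0 : ℕ, m1 ≤ m0 → ∀ μ : ℤ, AugEx (fun τ => Sy C hD N0 m0 μ σ τ) := by
  obtain ⟨a0, ha0⟩ := hσ
  haveI : IsNoetherianRing (P0 D σ ∅) := (hPP k n D hD σ a0 ha0).2 ∅
  obtain ⟨e1, he1⟩ := hSER2 (P0 D σ ∅) (Fr k n) (Fr k n) D.M (hu D hD a0)
    (GM C (N0 • C.ce) σ) (hCM k n D l ε m C N h hD hC hE N0 σ a0 ha0)
  obtain ⟨e2, he2⟩ := hGS k n D hD hM σ a0 ha0
  refine ⟨max e1.toNat e2, fun m0 hm0 μ x hx hcx => ?_⟩
  have hm1 : e1 ≤ (m0 : ℤ) := by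
    have := (le_max_left e1.toNat e2).trans hm0
    omega
  have hm2 : e2 ≤ m0 := (le_max_right e1.toNat e2).trans hm0
  have hcx' : cd x = 0 := funext hcx
  have g0ne := inc_ne (hD.g_ne a0)
  have g0z := zpow_ne_zero μ g0ne
  set b0 : Fin D.M := ⟨0, hM⟩ with hb0
  set z0 := x {b0} with hz0
  -- x at singletons
  have hkk := cd_kk_of_cocycle b0 hcx'
  have hx0 : x ∅ = 0 := by
    rw [← hkk]; exact cd_empty _
  have hx1 : ∀ b, x {b} = z0 := by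
    intro b
    have h1 : x {b} = kk b0 x ∅ := by
      conv_lhs => rw [← hkk]
      exact cd_singleton _ _
    rw [h1, kk_not _ (Finset.notMem_empty b0)]
    simp [sg, hz0]
  -- z0 in Sy
  have hz0a : ∀ a ∈ σ, ∀ b, z0 / (inc k n (D.g a) ^ μ * (hu D hD a b : Fr k n) ^ m0) ∈
      C.G (N0 • C.ce) σ {b} ∅ := by
    intro a ha b
    have h1 := (hx {b}).1 a ha b
    rw [hx1 b] at h1
    simpa using h1
  have hz0S : z0 ∈ Sy C hD N0 m0 μ σ ∅ := by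
    refine ⟨fun a ha b => ?_, fun _ => ?_⟩
    · simpa using hz0a a ha b
    · rw [hEG0 k n D hD σ a0 ha0]
      refine he2 m0 hm2 _ (fun b => ?_)
      rw [div_div]
      exact hNZ σ {b} a0 ha0 (Finset.singleton_nonempty b) _ (hz0a a0 ha0 b)
  -- y0
  set y0 : Finset (Fin D.M) → Fr k n := fun τ => if τ = ∅ then z0 else 0 with hy0
  have hy0S : ∀ τ, y0 τ ∈ Sy C hD N0 m0 μ σ τ := by
    intro τ
    by_cases ht : τ = ∅
    · subst ht
      rw [hy0]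
      simpa using hz0S
    · have : y0 τ = 0 := if_neg ht
      rw [this]
      exact zero_mem _
  have hcy0 : ∀ τ, (τ.card = 1 ∧ cd y0 τ = z0) ∨ (τ.card ≠ 1 ∧ cd y0 τ = 0) := by
    intro τ
    by_cases ht : τ.card = 1
    · obtain ⟨b, rfl⟩ := Finset.card_eq_one.1 ht
      left
      refine ⟨ht, ?_⟩
      rw [cd_singleton]
      exact if_pos rfl
    · right
      refine ⟨ht, ?_⟩
      rw [cd_sg]
      refine Finset.sum_eq_zero (fun v hv => ?_)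
      have h1 : τ.erase v ≠ ∅ := by
        intro h2
        have h3 := Finset.card_erase_add_one hv
        rw [h2, Finset.card_empty] at h3
        exact ht h3.symm
      have h2 : y0 (τ.erase v) = 0 := if_neg h1
      rw [h2]
      exact zsmul_zero _
  have hcy0S : ∀ τ, τ.Nonempty → cd y0 τ ∈ Sy C hD N0 m0 μ σ τ := by
    intro τ hτ
    rcases hcy0 τ with ⟨h1, h2⟩ | ⟨h1, h2⟩
    · rw [h2]
      obtain ⟨b, rfl⟩ := Finset.card_eq_one.1 h1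
      rw [← hx1 b]
      exact hx {b}
    · rw [h2]; exact zero_mem _
  -- x1
  set x1 : Finset (Fin D.M) → Fr k n := x - cd y0 with hx1d
  have hcx1 : cd x1 = 0 := by
    rw [hx1d, cd_sub, hcx', cd_cd, sub_zero]
  have hx1S : ∀ τ, τ.Nonempty → x1 τ ∈ Sy C hD N0 m0 μ σ τ := fun τ hτ =>
    sub_mem (hx τ) (hcy0S τ hτ)
  have hx1e : x1 ∅ = 0 := by
    rw [hx1d, Pi.sub_apply, hx0, cd_empty, sub_zero]
  have hx1s : ∀ b, x1 {b} = 0 := by
    intro b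
    rw [hx1d, Pi.sub_apply, hx1 b, cd_singleton]
    have : y0 ∅ = z0 := if_pos rfl
    rw [this, sub_self]
  set G0 := (inc k n (D.g a0)) ^ μ with hG0
  obtain ⟨y1, hy1, hy1c⟩ := he1 m0 hm1 (fun τ => G0⁻¹ * x1 τ) ⟨by simp [hx1e], by
      intro τ hτ v hv
      have h1 := (hx1S τ hτ).1 a0 ha0 v
      rw [Finset.insert_eq_of_mem hv] at h1
      change ((((hu D hD a0 v) ^ (-(m0 : ℤ)) : (Fr k n)ˣ) : Fr k n) • (G0⁻¹ * x1 τ)) ∈
        C.G (N0 • C.ce) σ τ ∅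
      have h2 : ((((hu D hD a0 v) ^ (-(m0 : ℤ)) : (Fr k n)ˣ) : Fr k n) • (G0⁻¹ * x1 τ)) =
          x1 τ / (G0 * (hu D hD a0 v : Fr k n) ^ m0) := by
        rw [smul_eq_mul, zpow_neg, zpow_natCast, Units.val_inv_eq_inv_val, Units.val_pow_eq_pow_val]
        have e3 : (hu D hD a0 v : Fr k n) ≠ 0 := Units.ne_zero _
        field_simp
      rw [h2]
      exact h1⟩
    (by
      have h1 := cd_map (AddMonoidHom.mulLeft G0⁻¹) x1
      change cd (fun τ => G0⁻¹ * x1 τ) = _ at h1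
      rw [h1, hcx1]
      funext τ
      simp)
    (by intro v; simp [hx1s v])
  refine ⟨fun τ => y0 τ + G0 * y1 τ, fun τ => ?_, fun τ => ?_⟩
  · refine add_mem (hy0S τ) ?_
    rcases τ.eq_empty_or_nonempty with ht | ht
    · rw [ht, hy1.1, mul_zero]
      exact zero_mem _
    · obtain ⟨b, hb⟩ := ht
      refine sy_of hIJ C hD N0 m0 μ σ τ a0 ha0 b hb _ ?_
      have h1 := hy1.2 τ ⟨b, hb⟩ b hb
      change ((((hu D hD a0 b) ^ (-(m0 : ℤ)) : (Fr k n)ˣ) : Fr k n) • (y1 τ)) ∈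
        C.G (N0 • C.ce) σ τ ∅ at h1
      have h2 : ((((hu D hD a0 b) ^ (-(m0 : ℤ)) : (Fr k n)ˣ) : Fr k n) • (y1 τ)) =
          (G0 * y1 τ) / (G0 * (hu D hD a0 b : Fr k n) ^ m0) := by
        rw [smul_eq_mul, zpow_neg, zpow_natCast, Units.val_inv_eq_inv_val, Units.val_pow_eq_pow_val]
        have e3 : (hu D hD a0 b : Fr k n) ≠ 0 := Units.ne_zero _
        field_simp
      rw [h2] at h1
      exact h1
  · have h1 := cd_map (AddMonoidHom.mulLeft G0) y1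
    change cd (fun τ => G0 * y1 τ) = _ at h1
    have h2 : cd (fun τ => y0 τ + G0 * y1 τ) τ = cd y0 τ + G0 * cd y1 τ := by
      have h3 : (fun τ => y0 τ + G0 * y1 τ) = y0 + (fun τ => G0 * y1 τ) := rfl
      rw [h3, cd_add, Pi.add_apply, h1]
      rfl
    rw [h2, hy1c]
    change cd y0 τ + G0 * (G0⁻¹ * x1 τ) = x τ
    rw [mul_inv_cancel_left₀ g0z, hx1d, Pi.sub_apply]
    ring

end PSH_

theorem psh_proof (hSER2 : Stmt_SER2.{u, u}) (hCM : Stmt_CM.{u}) (hGS : Stmt_GS.{u})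
    (hEG0 : Stmt_EG0.{u}) (hIJ : Stmt_IJ.{u}) (hPP : Stmt_PP.{u}) : Stmt_PSH.{u} := by
  intro k _ n D l ε m C N h hD hC hE hM N0 hNZ
  have h1 : ∀ σ : Finset (Fin D.p), ∃ m1 : ℕ, σ.Nonempty → ∀ m0 : ℕ, m1 ≤ m0 → ∀ μ : ℤ,
      AugEx (fun τ => Sy C hD N0 m0 μ σ τ) := by
    intro σ
    by_cases hσ : σ.Nonempty
    · obtain ⟨m1, hm1⟩ := PSH_.main hSER2 hCM hGS hEG0 hIJ hPP D l ε m C N h hD hC hE hM N0 hNZ σ hσ
      exact ⟨m1, fun _ => hm1⟩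
    · exact ⟨0, fun h => absurd h hσ⟩
  choose m1 hm1 using h1
  refine ⟨Finset.univ.sup m1, fun μ σ hσ => hm1 σ hσ _ (Finset.le_sup (Finset.mem_univ σ)) μ⟩

end

end Pool.Agent.DBX.SUR
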