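import Pool.Agent.DBX.SUR.Stmts

set_option autoImplicit false

namespace Pool.Agent.DBX.SUR

open MvPolynomial

noncomputable section

universe u

theorem pu_proof : Stmt_PU.{u} := by
  intro k _ n D m C N h _ hE a b B hB M hM z hz
  obtain ⟨c, hc, hsum⟩ := hE.th_one a b
  let J : Ideal B :=
    { carrier := {r : B | (r : Fr k n) * z ∈ M}
      zero_mem' := by
        change (0 : Fr k n) * z ∈ M
        rw [zero_mul]; exact M.zero_mem
      add_mem' := by
        intro r s hr hs
        change ((r : Fr k n) + (s : Fr k n)) * z ∈ M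
        rw [add_mul]
        exact M.add_mem hr hs
      smul_mem' := by
        intro r s hs
        change ((r : Fr k n) * (s : Fr k n)) * z ∈ M
        rw [mul_assoc]
        exact hM r r.2 _ hs }
  have hth : ∀ v, Cov.th D N h a b v ∈ B := fun v => hB (hE.th_mem a b v)
  have h1 : ∀ v, (⟨Cov.th D N h a b v, hth v⟩ : B) ∈ J.radical := by
    intro v
    obtain ⟨e, he⟩ := hz v
    exact ⟨e, he⟩
  have h2 : (1 : B) ∈ J.radical := by
    have h3 : (1 : B) = ∑ v, (⟨c v, hB (hc v)⟩ : B) * ⟨Cov.th D N h a b v, hth v⟩ := by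
      apply Subtype.ext
      push_cast
      exact hsum.symm
    rw [h3]
    exact J.radical.sum_mem fun v _ => J.radical.mul_mem_left _ (h1 v)
  obtain ⟨e, he⟩ := h2
  rw [one_pow] at he
  have h4 : ((1 : B) : Fr k n) * z ∈ M := he
  simpa using h4

end

end Pool.Agent.DBX.SUR
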