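import Pool.Agent.DBX.SUR.Stmts

set_option autoImplicit false

/-! # MP_2c751f_ag, squad DBX, area SUR: localisation of ideals and radicals inside a field -/

namespace Pool.Agent.DBX.SUR

universe u

namespace RL_

variable {K L : Type u} [Field K] [Field L] [Algebra K L]

theorem mem_toF (A : Subalgebra K L) (J : Ideal A) (z : L) :
    z ∈ toF A J ↔ ∃ a : A, a ∈ J ∧ (a : L) = z := by
  unfold toF
  rw [Submodule.mem_map]
  exact Iff.rfl

theorem toF_mul (A : Subalgebra K L) (J : Ideal A) {c z : L} (hc : c ∈ A) (hz : z ∈ toF A J) :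
    c * z ∈ toF A J := by
  obtain ⟨a, ha, rfl⟩ := (mem_toF A J z).1 hz
  exact (mem_toF A J _).2 ⟨⟨c, hc⟩ * a, J.mul_mem_left _ ha, rfl⟩

theorem fwd (A B : Subalgebra K L) (η : L) (J : Set L) (hη : η ∈ A)
    (hloc : ∀ z ∈ B, ∃ e : ℕ, η ^ e * z ∈ A) (hJ : J ⊆ A) (z : B) (hz : z ∈ genIn B J) :
    ∃ e : ℕ, η ^ e * (z : L) ∈ toF A (genIn A J) := by
  unfold genIn at hz
  induction hz using Submodule.span_induction with
  | mem x hx =>
    refine ⟨0, ?_⟩
    rw [pow_zero, one_mul]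
    exact (mem_toF _ _ _).2 ⟨⟨x, hJ hx⟩, Ideal.subset_span hx, rfl⟩
  | zero =>
    refine ⟨0, ?_⟩
    rw [ZeroMemClass.coe_zero, mul_zero]
    exact zero_mem _
  | add x y _ _ hx hy =>
    obtain ⟨e1, h1⟩ := hx
    obtain ⟨e2, h2⟩ := hy
    refine ⟨e1 + e2, ?_⟩
    have h3 : η ^ (e1 + e2) * ((x + y : B) : L) =
        η ^ e2 * (η ^ e1 * x) + η ^ e1 * (η ^ e2 * y) := by
      rw [AddMemClass.coe_add]
      ring
    rw [h3]
    exact add_mem (toF_mul _ _ (pow_mem hη _) h1) (toF_mul _ _ (pow_mem hη _) h2)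
  | smul b x _ hx =>
    obtain ⟨e1, h1⟩ := hx
    obtain ⟨e2, h2⟩ := hloc b b.2
    refine ⟨e2 + e1, ?_⟩
    have h3 : η ^ (e2 + e1) * ((b • x : B) : L) = (η ^ e2 * b) * (η ^ e1 * x) := by
      rw [smul_eq_mul, MulMemClass.coe_mul]
      ring
    rw [h3]
    exact toF_mul _ _ h2 h1

theorem mono (A B : Subalgebra K L) (J : Set L) (hAB : A ≤ B) (a : A) (ha : a ∈ genIn A J) :
    (⟨(a : L), hAB a.2⟩ : B) ∈ genIn B J := by
  unfold genIn at ha
  induction ha using Submodule.span_induction with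
  | mem x hx => exact Ideal.subset_span hx
  | zero => exact zero_mem (genIn B J)
  | add x y _ _ hx hy => exact add_mem hx hy
  | smul b x _ hx => exact (genIn B J).mul_mem_left ⟨(b : L), hAB b.2⟩ hx

end RL_

open RL_ in
theorem rl_proof : Stmt_RL.{u} := by
  intro K L _ _ _ A B η J hAB hη hηi hη0 hloc hJ z
  constructor
  · constructor
    · intro hz
      obtain ⟨b, hb, rfl⟩ := (mem_toF _ _ _).1 hz
      exact fwd A B η J hη hloc hJ b hb
    · rintro ⟨e, he⟩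
      obtain ⟨a, ha, h1⟩ := (mem_toF _ _ _).1 he
      have h2 : z = (η⁻¹) ^ e * (a : L) := by
        rw [h1, ← mul_assoc, ← mul_pow, inv_mul_cancel₀ hη0, one_pow, one_mul]
      rw [h2]
      exact toF_mul _ _ (pow_mem hηi _) ((mem_toF _ _ _).2 ⟨_, mono A B J hAB a ha, rfl⟩)
  · constructor
    · intro hz
      obtain ⟨b, hb, rfl⟩ := (mem_toF _ _ _).1 hz
      obtain ⟨N, hN⟩ := hb
      have hN1 : b ^ (N + 1) ∈ genIn B J := by
        rw [pow_succ]
        exact (genIn B J).mul_mem_right _ hN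
      obtain ⟨e1, h1⟩ := fwd A B η J hη hloc hJ _ hN1
      obtain ⟨e2, h2⟩ := hloc b b.2
      have h3 : η ^ (e1 + e2) * (b : L) ∈ A := by
        rw [pow_add, mul_assoc]
        exact mul_mem (pow_mem hη _) h2
      refine ⟨e1 + e2, (mem_toF _ _ _).2 ⟨⟨_, h3⟩, ⟨N + 1, ?_⟩, rfl⟩⟩
      have h4 : (η ^ (e1 + e2) * (b : L)) ^ (N + 1) =
          η ^ ((e1 + e2) * N + e2) * (η ^ e1 * ((b ^ (N + 1) : B) : L)) := by
        rw [SubmonoidClass.coe_pow, mul_pow, ← pow_mul, ← mul_assoc, ← pow_add]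
        congr 2
        ring
      have h5 : (η ^ (e1 + e2) * (b : L)) ^ (N + 1) ∈ toF A (genIn A J) := by
        rw [h4]
        exact toF_mul _ _ (pow_mem hη _) h1
      obtain ⟨a, ha, h6⟩ := (mem_toF _ _ _).1 h5
      have h7 : (⟨_, h3⟩ : A) ^ (N + 1) = a := by
        apply Subtype.ext
        rw [SubmonoidClass.coe_pow]
        exact h6.symm
      rw [h7]
      exact ha
    · rintro ⟨e, he⟩
      obtain ⟨a, ⟨N, hN⟩, h1⟩ := (mem_toF _ _ _).1 he
      have h2 : z = (η⁻¹) ^ e * (a : L) := by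
        rw [h1, ← mul_assoc, ← mul_pow, inv_mul_cancel₀ hη0, one_pow, one_mul]
      rw [h2]
      refine toF_mul _ _ (pow_mem hηi _) ((mem_toF _ _ _).2 ⟨⟨(a : L), hAB a.2⟩, ⟨N, ?_⟩, rfl⟩)
      have h3 := mono A B J hAB _ hN
      have h4 : (⟨((a ^ N : A) : L), hAB (a ^ N).2⟩ : B) = (⟨(a : L), hAB a.2⟩ : B) ^ N := by
        apply Subtype.ext
        rw [SubmonoidClass.coe_pow, SubmonoidClass.coe_pow]
      rw [← h4]
      exact h3

end Pool.Agent.DBX.SUR
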