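import Pool.Agent.DBX.SUR.Stmts
import Pool.Agent.DBX.SUR.PMG
import Pool.Agent.DBX.Lib.Tot

set_option autoImplicit false

/-! # MP_2c751f_ag, squad DBX, area SUR: module SURE (helper93) -/

namespace Pool.Agent.DBX.SUR

open MvPolynomial

noncomputable section

universe u

namespace SURE_

open PMG_

variable {k : Type u} [Field k] {n : ℕ} {D : Dat k n} {m : ℕ}

theorem P0_mono {σ σ' : Finset (Fin D.p)} {τ τ' : Finset (Fin D.M)} (hσ : σ ⊆ σ') (hτ : τ ⊆ τ') :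
    P0 D σ τ ≤ P0 D σ' τ' := by
  apply Algebra.adjoin_mono
  apply Set.union_subset_union
  · rintro z ⟨a, ha, h⟩
    exact ⟨a, hσ ha, h⟩
  · rintro z ⟨b, hb, h⟩
    exact ⟨b, hτ hb, h⟩

theorem Rg_mono (C : Cov D m) {σ σ' : Finset (Fin D.p)} {τ τ' : Finset (Fin D.M)}
    {ω ω' : Finset (Fin m)} (hσ : σ ⊆ σ') (hτ : τ ⊆ τ') (hω : ω ⊆ ω') :
    C.Rg σ τ ω ≤ C.Rg σ' τ' ω' := by
  apply sup_le_sup (P0_mono hσ hτ)
  exact biSup_mono (fun v hv => hω hv)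

theorem A_le_Rg (C : Cov D m) (σ : Finset (Fin D.p)) (τ : Finset (Fin D.M))
    {ω : Finset (Fin m)} {v : Fin m} (hv : v ∈ ω) : C.A v ≤ C.Rg σ τ ω :=
  (le_biSup C.A hv).trans le_sup_right

theorem P0_le_Rg (C : Cov D m) (σ : Finset (Fin D.p)) (τ : Finset (Fin D.M))
    (ω : Finset (Fin m)) : P0 D σ τ ≤ C.Rg σ τ ω := le_sup_left

theorem mem_G {C : Cov D m} {c : Fin m → Fin (n - 1) → ℕ} {σ : Finset (Fin D.p)}
    {τ : Finset (Fin D.M)} {ω : Finset (Fin m)} {z : Fr k n} :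
    z ∈ C.G c σ τ ω ↔ ∀ v, z / C.mon c v ∈ C.Rg σ τ (insert v ω) := Iff.rfl

theorem G_mono (C : Cov D m) (c : Fin m → Fin (n - 1) → ℕ) {σ σ' : Finset (Fin D.p)}
    {τ τ' : Finset (Fin D.M)} {ω ω' : Finset (Fin m)} (hσ : σ ⊆ σ') (hτ : τ ⊆ τ') (hω : ω ⊆ ω') :
    C.G c σ τ ω ≤ C.G c σ' τ' ω' := fun _ hz v =>
  Rg_mono C hσ hτ (Finset.insert_subset_insert v hω) (hz v)

theorem ch_le_A (C : Cov D m) (v : Fin m) : D.ch (C.a v) (C.b v) ≤ C.A v := fun _ hz =>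
  Algebra.subset_adjoin (Or.inl hz)

theorem xg_mem_ch (a : Fin D.p) (b : Fin D.M) (i : Fin n) :
    inc k n (X i) / inc k n (D.g a) ∈ D.ch a b :=
  Algebra.subset_adjoin (Or.inl ⟨i, rfl⟩)

theorem ff_mem_ch (a : Fin D.p) (b j : Fin D.M) :
    inc k n (D.f j) / inc k n (D.f b) ∈ D.ch a b :=
  Algebra.subset_adjoin (Or.inr ⟨j, rfl⟩)

theorem xg_mem_P0 {σ : Finset (Fin D.p)} (τ : Finset (Fin D.M)) {a : Fin D.p} (ha : a ∈ σ)
    (i : Fin n) : inc k n (X i) / inc k n (D.g a) ∈ P0 D σ τ :=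
  Algebra.subset_adjoin (Or.inl ⟨a, ha, i, rfl⟩)

theorem ff_mem_P0 (σ : Finset (Fin D.p)) {τ : Finset (Fin D.M)} {b : Fin D.M} (hb : b ∈ τ)
    (j : Fin D.M) : inc k n (D.f j) / inc k n (D.f b) ∈ P0 D σ τ :=
  Algebra.subset_adjoin (Or.inr ⟨b, hb, j, rfl⟩)

theorem P0_empty : P0 D ∅ ∅ = ⊥ := by
  unfold P0
  have h : ({z | ∃ a ∈ (∅ : Finset (Fin D.p)), ∃ i, z = inc k n (X i) / inc k n (D.g a)} ∪
    {z | ∃ b ∈ (∅ : Finset (Fin D.M)), ∃ j, z = inc k n (D.f j) / inc k n (D.f b)}) =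
    (∅ : Set (Fr k n)) := by
    ext z
    simp
  rw [h, Algebra.adjoin_empty]

theorem Rg_redT (C : Cov D m) (σ : Finset (Fin D.p)) (τ : Finset (Fin D.M)) {ω : Finset (Fin m)}
    {v : Fin m} (hv : v ∈ ω) : C.Rg σ (insert (C.b v) τ) ω ≤ C.Rg σ τ ω := by
  apply sup_le _ le_sup_right
  apply Algebra.adjoin_le
  rintro z (⟨a, ha, i, rfl⟩ | ⟨b, hb, j, rfl⟩)
  · exact P0_le_Rg C σ τ ω (xg_mem_P0 τ ha i)
  · rcases Finset.mem_insert.mp hb with rfl | hb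
    · exact A_le_Rg C σ τ hv (ch_le_A C v (ff_mem_ch _ _ j))
    · exact P0_le_Rg C σ τ ω (ff_mem_P0 σ hb j)

theorem Rg_redP (C : Cov D m) (σ : Finset (Fin D.p)) (τ : Finset (Fin D.M)) {ω : Finset (Fin m)}
    {v : Fin m} (hv : v ∈ ω) : C.Rg (insert (C.a v) σ) τ ω ≤ C.Rg σ τ ω := by
  apply sup_le _ le_sup_right
  apply Algebra.adjoin_le
  rintro z (⟨a, ha, i, rfl⟩ | ⟨b, hb, j, rfl⟩)
  · rcases Finset.mem_insert.mp ha with rfl | ha
    · exact A_le_Rg C σ τ hv (ch_le_A C v (xg_mem_ch _ _ i))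
    · exact P0_le_Rg C σ τ ω (xg_mem_P0 τ ha i)
  · exact P0_le_Rg C σ τ ω (ff_mem_P0 σ hb j)

theorem G_redT (C : Cov D m) (c : Fin m → Fin (n - 1) → ℕ) (σ : Finset (Fin D.p))
    (τ : Finset (Fin D.M)) {ω : Finset (Fin m)} {v : Fin m} (hv : v ∈ ω) :
    C.G c σ (insert (C.b v) τ) ω ≤ C.G c σ τ ω := fun _ hz w =>
  Rg_redT C σ τ (Finset.mem_insert_of_mem hv) (hz w)

theorem G_redP (C : Cov D m) (c : Fin m → Fin (n - 1) → ℕ) (σ : Finset (Fin D.p))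
    (τ : Finset (Fin D.M)) {ω : Finset (Fin m)} {v : Fin m} (hv : v ∈ ω) :
    C.G c (insert (C.a v) σ) τ ω ≤ C.G c σ τ ω := fun _ hz w =>
  Rg_redP C σ τ (Finset.mem_insert_of_mem hv) (hz w)

theorem augEx_of_red {V : Type} [LinearOrder V] {𝔸 : Type u} [AddCommGroup 𝔸]
    {G : Finset V → AddSubgroup 𝔸} (v : V) (h : ∀ σ, G (insert v σ) ≤ G σ) : AugEx G := by
  intro x hx hc
  obtain ⟨y, hy, hy'⟩ := exact_of_contract (A := G) (v := v) (fun σ _ => h σ) hx (funext hc)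
  exact ⟨y, hy, fun ω => congrFun hy' ω⟩

theorem mon_ne {C : Cov D m} {l : Pol k n} {ε : ℕ} (hC : C.Good l ε)
    (c : Fin m → Fin (n - 1) → ℕ) (v : Fin m) : C.mon c v ≠ 0 :=
  Finset.prod_ne_zero_iff.mpr (fun i _ => pow_ne_zero _ (hC.t_ne v i))

theorem mon_mem {C : Cov D m} {l : Pol k n} {ε : ℕ} (hC : C.Good l ε)
    (c : Fin m → Fin (n - 1) → ℕ) (v : Fin m) : C.mon c v ∈ C.A v :=
  prod_mem (fun i _ => pow_mem (hC.t_mem v i) _)

theorem toF_mono {A B : Subalgebra k (Fr k n)} (hAB : A ≤ B) (J : Set (Fr k n)) :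
    toF A (genIn A J) ≤ toF B (genIn B J) := by
  rintro x ⟨y, hy, rfl⟩
  refine ⟨Subalgebra.inclusion hAB y, ?_, rfl⟩
  have h1 : genIn A J ≤ (genIn B J).comap (Subalgebra.inclusion hAB) := by
    unfold genIn
    rw [Ideal.span_le]
    intro w hw
    exact Ideal.subset_span hw
  exact h1 hy

variable (hIJ : Stmt_IJ.{u}) (hD : D.Good)

include hIJ hD

theorem gg_mem_P0 {σ : Finset (Fin D.p)} (τ : Finset (Fin D.M)) {a : Fin D.p} (ha : a ∈ σ)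
    (a' : Fin D.p) : inc k n (D.g a') / inc k n (D.g a) ∈ P0 D σ τ := by
  have h := (hIJ k n D hD a (P0 D σ τ)).2.1 (fun i => xg_mem_P0 τ ha i) (D.g a') 1 (hD.g_hom a')
  rwa [pow_one] at h

theorem gg_mem_A (C : Cov D m) (v : Fin m) (a' : Fin D.p) :
    inc k n (D.g a') / inc k n (D.g (C.a v)) ∈ C.A v := by
  have h := (hIJ k n D hD (C.a v) (C.A v)).2.1 (fun i => ch_le_A C v (xg_mem_ch _ _ i))
    (D.g a') 1 (hD.g_hom a')
  rwa [pow_one] at h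

theorem fg_mem_P0 {σ : Finset (Fin D.p)} (τ : Finset (Fin D.M)) {a : Fin D.p} (ha : a ∈ σ)
    (b : Fin D.M) : inc k n (D.f b) / inc k n (D.g a) ^ D.δ ∈ P0 D σ τ :=
  (hIJ k n D hD a (P0 D σ τ)).2.1 (fun i => xg_mem_P0 τ ha i) (D.f b) D.δ (hD.f_hom b)

/-- Identification of `O(-E)(-ε)` with `l⁻¹ O(-E-H)`. -/
theorem conv1 (hEG1 : Stmt_EG1.{u}) (hGE : Stmt_GE.{u}) {l : Pol k n} {ε : ℕ} (hl0 : l ≠ 0)
    {C : Cov D m} (hC : C.Good l ε) {N : ℕ} {h : Fin m → Fr k n} (hE : C.Emb N h)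
    {σ : Finset (Fin D.p)} {τ : Finset (Fin D.M)} (hσ : σ.Nonempty) (hτ : τ.Nonempty)
    (x : Fr k n) :
    x ∈ D.Eg (-(ε : ℤ)) σ τ ↔ inc k n l * x ∈ C.G (C.ce + C.cl) σ τ ∅ := by
  obtain ⟨a, ha⟩ := hσ
  have hg := inc_ne (hD.g_ne a)
  have hl := inc_ne hl0
  rw [hEG1 k n D hD σ τ a ha hτ (-(ε : ℤ)) x,
    ← hGE k n D l ε m C N h hD hC hE σ τ a ha hτ, mem_G, mem_G]
  apply forall_congr'
  intro v
  have hgv := inc_ne (hD.g_ne (C.a v))
  have hme := mon_ne hC C.ce v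
  have hml := mon_ne hC C.cl v
  have hz : inc k n (D.g a) ^ (-(ε : ℤ)) = (inc k n (D.g a) ^ ε)⁻¹ := by
    rw [zpow_neg, zpow_natCast]
  rw [mon_add, hz]
  have u1 := A_le_Rg C σ τ (Finset.mem_insert_self v ∅) (hC.idL v).1
  have u2 := A_le_Rg C σ τ (Finset.mem_insert_self v ∅) (hC.idL v).2
  have u3 := P0_le_Rg C σ τ (insert v ∅) (gg_mem_P0 hIJ hD τ ha (C.a v))
  have u4 := A_le_Rg C σ τ (Finset.mem_insert_self v ∅) (gg_mem_A hIJ hD C v a)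
  constructor
  · intro h1
    have h2 := mul_mem (mul_mem h1 u1) (pow_mem u3 ε)
    have e : inc k n l * x / (C.mon C.ce v * C.mon C.cl v) =
        x / (inc k n (D.g a) ^ ε)⁻¹ / C.mon C.ce v *
          (inc k n l / inc k n (D.g (C.a v)) ^ ε / C.mon C.cl v) *
          (inc k n (D.g (C.a v)) / inc k n (D.g a)) ^ ε := by
      rw [div_pow]
      field_simp
    rw [e]
    exact h2
  · intro h1
    have h2 := mul_mem (mul_mem h1 u2) (pow_mem u4 ε)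
    have e : x / (inc k n (D.g a) ^ ε)⁻¹ / C.mon C.ce v =
        inc k n l * x / (C.mon C.ce v * C.mon C.cl v) *
          (C.mon C.cl v / (inc k n l / inc k n (D.g (C.a v)) ^ ε)) *
          (inc k n (D.g a) / inc k n (D.g (C.a v))) ^ ε := by
      rw [div_pow]
      field_simp
    rw [e]
    exact h2

/-- `l^{-t} O(-N₀E - m₀F - tH)` lies in the system `Sy` in degree `-tε`. -/
theorem conv2 {l : Pol k n} {ε : ℕ} (hl0 : l ≠ 0)
    {C : Cov D m} (hC : C.Good l ε) (N0 m0 t : ℕ)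
    {σ : Finset (Fin D.p)} {τ : Finset (Fin D.M)} (hτ : τ.Nonempty)
    (x : Fr k n) (hx : x ∈ C.G (N0 • C.ce + m0 • C.cf + t • C.cl) σ τ ∅) :
    x / inc k n l ^ t ∈ Sy C hD N0 m0 (-((t * ε : ℕ) : ℤ)) σ τ := by
  refine ⟨fun a ha b => ?_, fun h0 => absurd h0 hτ.ne_empty⟩
  have hg := inc_ne (hD.g_ne a)
  have hl := inc_ne hl0
  rw [mem_G]
  intro v
  have hgv := inc_ne (hD.g_ne (C.a v))
  have hfv := inc_ne (hD.f_ne (C.b v))
  have hfb := inc_ne (hD.f_ne b)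
  have hme := mon_ne hC C.ce v
  have hml := mon_ne hC C.cl v
  have hmf := mon_ne hC C.cf v
  have hz : inc k n (D.g a) ^ (-((t * ε : ℕ) : ℤ)) = ((inc k n (D.g a) ^ ε) ^ t)⁻¹ := by
    rw [zpow_neg, zpow_natCast, mul_comm, pow_mul]
  have hhu : (hu D hD a b : Fr k n) = inc k n (D.f b) / inc k n (D.g a) ^ D.δ := rfl
  have h1 := Rg_mono C (Finset.Subset.refl σ) (Finset.subset_insert b τ)
    (Finset.Subset.refl (insert v ∅)) (hx v)
  rw [mon_add, mon_add, mon_smul, mon_smul, mon_smul] at h1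
  have u2 := A_le_Rg C σ (insert b τ) (Finset.mem_insert_self v ∅) (hC.idL v).2
  have u3 := A_le_Rg C σ (insert b τ) (Finset.mem_insert_self v ∅) (hC.idF v).2
  have u4 := A_le_Rg C σ (insert b τ) (Finset.mem_insert_self v ∅) (gg_mem_A hIJ hD C v a)
  have u5 := P0_le_Rg C σ (insert b τ) (insert v ∅)
    (ff_mem_P0 σ (Finset.mem_insert_self b τ) (C.b v))
  have h2 := mul_mem (mul_mem h1 (pow_mem (mul_mem u2 (pow_mem u4 ε)) t))
    (pow_mem (mul_mem (mul_mem u3 (pow_mem u4 D.δ)) u5) m0)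
  have e : x / inc k n l ^ t / (inc k n (D.g a) ^ (-((t * ε : ℕ) : ℤ)) *
      (hu D hD a b : Fr k n) ^ m0) / C.mon (N0 • C.ce) v =
      x / (C.mon C.ce v ^ N0 * C.mon C.cf v ^ m0 * C.mon C.cl v ^ t) *
      (C.mon C.cl v / (inc k n l / inc k n (D.g (C.a v)) ^ ε) *
        (inc k n (D.g a) / inc k n (D.g (C.a v))) ^ ε) ^ t *
      (C.mon C.cf v / (inc k n (D.f (C.b v)) / inc k n (D.g (C.a v)) ^ D.δ) *
        (inc k n (D.g a) / inc k n (D.g (C.a v))) ^ D.δ *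
        (inc k n (D.f (C.b v)) / inc k n (D.f b))) ^ m0 := by
    rw [hz, hhu, mon_smul]
    have e1 : C.mon C.cl v / (inc k n l / inc k n (D.g (C.a v)) ^ ε) *
        (inc k n (D.g a) / inc k n (D.g (C.a v))) ^ ε =
        C.mon C.cl v * inc k n (D.g a) ^ ε / inc k n l := by
      rw [div_pow]
      field_simp
    have e2 : C.mon C.cf v / (inc k n (D.f (C.b v)) / inc k n (D.g (C.a v)) ^ D.δ) *
        (inc k n (D.g a) / inc k n (D.g (C.a v))) ^ D.δ *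
        (inc k n (D.f (C.b v)) / inc k n (D.f b)) =
        C.mon C.cf v / (inc k n (D.f b) / inc k n (D.g a) ^ D.δ) := by
      rw [div_pow]
      field_simp
    rw [e1, e2]
    have hne : inc k n (D.f b) / inc k n (D.g a) ^ D.δ ≠ 0 :=
      div_ne_zero hfb (pow_ne_zero _ hg)
    generalize inc k n (D.f b) / inc k n (D.g a) ^ D.δ = w at hne ⊢
    rw [div_pow, div_pow, mul_pow]
    field_simp
  rw [e]
  exact h2

/-- `Sy` is contained in the degree `μ` part of `O(-E)`. -/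
theorem conv3 (hEG1 : Stmt_EG1.{u}) (hGE : Stmt_GE.{u}) {l : Pol k n} {ε : ℕ}
    {C : Cov D m} (hC : C.Good l ε) {N : ℕ} {h : Fin m → Fr k n} (hE : C.Emb N h)
    {N0 m0 : ℕ} (hN0 : 1 ≤ N0) (μ : ℤ)
    {σ : Finset (Fin D.p)} (τ : Finset (Fin D.M)) (hσ : σ.Nonempty)
    (x : Fr k n) (hx : x ∈ Sy C hD N0 m0 μ σ τ) : x ∈ D.Eg μ σ τ := by
  rcases τ.eq_empty_or_nonempty with rfl | hτ
  · exact hx.2 rfl
  obtain ⟨a, ha⟩ := hσ
  obtain ⟨b, hb⟩ := hτ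
  have hg := inc_ne (hD.g_ne a)
  have hfb := inc_ne (hD.f_ne b)
  have h1 := hx.1 a ha b
  rw [Finset.insert_eq_self.mpr hb] at h1
  rw [hEG1 k n D hD σ τ a ha ⟨b, hb⟩ μ x, ← hGE k n D l ε m C N h hD hC hE σ τ a ha ⟨b, hb⟩,
    mem_G]
  intro v
  have hme := mon_ne hC C.ce v
  have h2 := h1 v
  rw [mon_smul] at h2
  have u1 := pow_mem (P0_le_Rg C σ τ (insert v ∅) (fg_mem_P0 hIJ hD τ ha b)) m0
  have u2 := pow_mem (A_le_Rg C σ τ (Finset.mem_insert_self v ∅) (mon_mem hC C.ce v)) (N0 - 1)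
  have h3 := mul_mem (mul_mem h2 u1) u2
  have e : x / inc k n (D.g a) ^ μ / C.mon C.ce v =
      x / (inc k n (D.g a) ^ μ * (hu D hD a b : Fr k n) ^ m0) / C.mon C.ce v ^ N0 *
        (inc k n (D.f b) / inc k n (D.g a) ^ D.δ) ^ m0 * C.mon C.ce v ^ (N0 - 1) := by
    have hhu : (hu D hD a b : Fr k n) = inc k n (D.f b) / inc k n (D.g a) ^ D.δ := rfl
    have hne : inc k n (D.f b) / inc k n (D.g a) ^ D.δ ≠ 0 :=
      div_ne_zero hfb (pow_ne_zero _ hg)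
    obtain ⟨N1, rfl⟩ : ∃ N1, N0 = N1 + 1 := ⟨N0 - 1, by omega⟩
    rw [hhu]
    have hgz : inc k n (D.g a) ^ μ ≠ 0 := zpow_ne_zero _ hg
    generalize inc k n (D.f b) / inc k n (D.g a) ^ D.δ = w at hne ⊢
    generalize inc k n (D.g a) ^ μ = y at hgz ⊢
    simp only [Nat.add_sub_cancel]
    field_simp
    ring
  rw [e]
  exact h3

/-- `Sy` is monotone. -/
theorem Sy_mono {C : Cov D m} (N0 m0 : ℕ) (μ : ℤ)
    (hEg : ∀ (σ σ' : Finset (Fin D.p)) (x : Fr k n), σ.Nonempty → σ ⊆ σ' → x ∈ D.Eg μ σ ∅ →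
      x ∈ D.Eg μ σ' ∅)
    {σ σ' : Finset (Fin D.p)} {τ τ' : Finset (Fin D.M)} (hσ : σ.Nonempty) (hs : σ ⊆ σ')
    (ht : τ ⊆ τ') : Sy C hD N0 m0 μ σ τ ≤ Sy C hD N0 m0 μ σ' τ' := by
  rintro x ⟨hx, hx'⟩
  refine ⟨fun a' ha' b => ?_, fun h0 => hEg σ σ' x hσ hs (hx' (Finset.subset_empty.mp (h0 ▸ ht)))⟩
  obtain ⟨a, ha⟩ := hσ
  have hg := inc_ne (hD.g_ne a)
  have hg' := inc_ne (hD.g_ne a')
  have hfb := inc_ne (hD.f_ne b)
  have h1 := G_mono C (N0 • C.ce) hs (Finset.insert_subset_insert b ht)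
    (Finset.Subset.refl ∅) (hx a ha b)
  rw [mem_G] at h1 ⊢
  intro v
  have h2 := h1 v
  have u1 := P0_le_Rg C σ' (insert b τ') (insert v ∅) (gg_mem_P0 hIJ hD (insert b τ') ha' a)
  have u2 := P0_le_Rg C σ' (insert b τ') (insert v ∅) (gg_mem_P0 hIJ hD (insert b τ') (hs ha) a')
  have u1z : (inc k n (D.g a) / inc k n (D.g a')) ^ μ ∈ C.Rg σ' (insert b τ') (insert v ∅) := by
    rcases Int.eq_nat_or_neg μ with ⟨e, rfl | rfl⟩
    · rw [zpow_natCast]; exact pow_mem u1 e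
    · rw [zpow_neg, zpow_natCast, ← inv_pow, inv_div]; exact pow_mem u2 e
  have h3 := mul_mem (mul_mem h2 u1z) (pow_mem (pow_mem u2 D.δ) m0)
  have e : x / (inc k n (D.g a') ^ μ * (hu D hD a' b : Fr k n) ^ m0) / C.mon (N0 • C.ce) v =
      x / (inc k n (D.g a) ^ μ * (hu D hD a b : Fr k n) ^ m0) / C.mon (N0 • C.ce) v *
        (inc k n (D.g a) / inc k n (D.g a')) ^ μ *
        ((inc k n (D.g a') / inc k n (D.g a)) ^ D.δ) ^ m0 := by
    have e1 : (hu D hD a b : Fr k n) = inc k n (D.f b) / inc k n (D.g a) ^ D.δ := rfl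
    have e2 : (hu D hD a' b : Fr k n) = inc k n (D.f b) / inc k n (D.g a') ^ D.δ := rfl
    rw [e1, e2, div_zpow, div_pow, div_pow, div_pow, div_pow]
    have y1 : inc k n (D.g a) ^ μ ≠ 0 := zpow_ne_zero _ hg
    have y2 : inc k n (D.g a') ^ μ ≠ 0 := zpow_ne_zero _ hg'
    generalize inc k n (D.g a) ^ μ = z1 at y1 ⊢
    generalize inc k n (D.g a') ^ μ = z2 at y2 ⊢
    field_simp
  rw [e]
  exact h3

end SURE_

open SURE_ PMG_ in
theorem sure_proof (hINJ : Stmt_INJ.{u}) (hCOV : Stmt_COV.{u}) (hEMB : Stmt_EMB.{u})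
    (hPMG : Stmt_PMG.{u}) (hCMP : Stmt_CMP.{u}) (hCOL : Stmt_COL.{u}) (hW1 : Stmt_W1.{u})
    (hEG0 : Stmt_EG0.{u}) (hEG1 : Stmt_EG1.{u}) (hGE : Stmt_GE.{u}) (hNZ : Stmt_NZ.{u})
    (hPSH : Stmt_PSH.{u}) (hIJ : Stmt_IJ.{u}) : Stmt_SURE.{u} := by
  intro k _ _ n D l ε hD hl hl0 hLS t ht z hz hdz
  have hil := inc_ne hl0
  -- the case without forms to blow up
  rcases Nat.eq_zero_or_pos D.M with hM | hM
  · have hz0 : z = 0 := by
      funext σ τ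
      have h1 : τ = ∅ := by
        rw [Finset.eq_empty_iff_forall_notMem]
        intro b _
        have := b.2
        omega
      rw [h1]
      exact hz.2 σ
    have hdd0 : dd (0 : Finset (Fin D.p) → Finset (Fin D.M) → Fr k n) = 0 := dd_zero
    refine ⟨0, 0, ⟨⟨fun _ => rfl, fun σ τ => zero_mem _⟩, fun _ => rfl⟩,
      ⟨fun _ => rfl, fun σ τ => zero_mem _⟩, fun σ => by rw [hdd0]; rfl, fun σ τ => ?_⟩
    rw [hdd0, hz0]
    simp
  obtain ⟨m, C, hC⟩ := hCOV k n D l ε hD hl hl0 hLS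
  obtain ⟨N, h, hE⟩ := hEMB k n D l ε m C hD hC
  obtain ⟨N0, hN0, hNZ'⟩ := hNZ k n D l ε m C N h hD hC hE
  obtain ⟨m0, hps⟩ := hPSH k n D l ε m C N h hD hC hE hM N0 hNZ'
  have hPM := hPMG k n D l ε m C N h hD hC hE N0 m0 t hN0 ht
  -- the two systems
  set c : Fin m → Fin (n - 1) → ℕ := C.ce + C.cl with hc
  set c' : Fin m → Fin (n - 1) → ℕ := N0 • C.ce + m0 • C.cf + t • C.cl with hc'
  let G : Finset (Fin D.p) → Finset (Fin D.M) → Finset (Fin m) → AddSubgroup (Fr k n) :=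
    fun σ τ ω => (C.G c σ τ ω).toAddSubgroup
  let G' : Finset (Fin D.p) → Finset (Fin D.M) → Finset (Fin m) → AddSubgroup (Fr k n) :=
    fun σ τ ω => (C.G c' σ τ ω).toAddSubgroup
  have hcc : ∀ v i, c v i ≤ c' v i := by
    intro v i
    simp only [hc, hc', Pi.add_apply, Pi.smul_apply, smul_eq_mul]
    have h1 : C.ce v i ≤ N0 * C.ce v i := Nat.le_mul_of_pos_left _ hN0
    have h2 : C.cl v i ≤ t * C.cl v i := Nat.le_mul_of_pos_left _ ht
    omega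
  have hGG : ∀ σ τ ω, G' σ τ ω ≤ G σ τ ω := by
    intro σ τ ω x hx v
    have h1 : x / C.mon c' v ∈ C.Rg σ τ (insert v ω) := hx v
    have h2 : C.mon c' v = C.mon c v * C.mon (c' - c) v := by
      rw [← mon_add]
      congr 1
      funext w i
      simp only [Pi.add_apply, Pi.sub_apply]
      have := hcc w i
      omega
    have h3 := mul_mem h1 (A_le_Rg C σ τ (Finset.mem_insert_self v ω) (mon_mem hC (c' - c) v))
    have h4 : x / C.mon c v = x / C.mon c' v * C.mon (c' - c) v := by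
      rw [h2]
      have y1 := mon_ne hC c v
      have y2 := mon_ne hC (c' - c) v
      field_simp
    change x / C.mon c v ∈ C.Rg σ τ (insert v ω)
    rw [h4]
    exact h3
  have hmon : ∀ (c : Fin m → Fin (n - 1) → ℕ) σ σ' τ τ' ω ω', σ ⊆ σ' → τ ⊆ τ' → ω ⊆ ω' →
      (C.G c σ τ ω).toAddSubgroup ≤ (C.G c σ' τ' ω').toAddSubgroup :=
    fun c σ σ' τ τ' ω ω' h1 h2 h3 => G_mono C c h1 h2 h3
  -- the comparison of `InC (O c)` with `InS`
  have hRg0 : ∀ ω : Finset (Fin m), C.Rg ∅ ∅ ω = ⨆ v ∈ ω, C.A v := by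
    intro ω
    unfold Cov.Rg
    rw [P0_empty, bot_sup_eq]
  have hG0 : ∀ (c : Fin m → Fin (n - 1) → ℕ),
      (∀ v w, C.mon c v / C.mon c w ∈ ⨆ u ∈ ({v, w} : Finset (Fin m)), C.A u) →
      ∀ ω : Finset (Fin m), ω.Nonempty → ∀ x : Fr k n,
      (x ∈ C.G c ∅ ∅ ω ↔ ∀ v ∈ ω, x / C.mon c v ∈ ⨆ u ∈ ω, C.A u) := by
    intro c hglue ω hω x
    constructor
    · intro hx v hv
      have h1 := hx v
      rw [Finset.insert_eq_self.mpr hv, hRg0] at h1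
      exact h1
    · intro hx v
      obtain ⟨w, hw⟩ := hω
      rw [hRg0]
      have h1 := hx w hw
      have h2 := hglue w v
      have h3 : (⨆ u ∈ ω, C.A u) ≤ ⨆ u ∈ insert v ω, C.A u :=
        biSup_mono (fun u hu => Finset.mem_insert_of_mem hu)
      have h4 : (⨆ u ∈ ({w, v} : Finset (Fin m)), C.A u) ≤ ⨆ u ∈ insert v ω, C.A u := by
        apply biSup_mono
        intro u hu
        rcases Finset.mem_insert.mp hu with rfl | hu
        · exact Finset.mem_insert_of_mem hw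
        · rw [Finset.mem_singleton.mp hu]
          exact Finset.mem_insert_self _ _
      have h5 := mul_mem (h3 h1) (h4 h2)
      have h6 : x / C.mon c v = x / C.mon c w * (C.mon c w / C.mon c v) := by
        have y1 := mon_ne hC c v
        have y2 := mon_ne hC c w
        field_simp
      rw [h6]
      exact h5
  -- the injectivity theorem for the covering
  have hinj : ∀ z : Finset (Fin m) → Fr k n, InS (fun ω => G ∅ ∅ ω) z → (∀ ω, cd z ω = 0) →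
      ∃ z' y : Finset (Fin m) → Fr k n, InS (fun ω => G' ∅ ∅ ω) z' ∧ (∀ ω, cd z' ω = 0) ∧
        InS (fun ω => G ∅ ∅ ω) y ∧ ∀ ω, z ω = z' ω + cd y ω := by
    intro z hz hcz
    obtain ⟨z', y, hz', hcz', hy, hzz⟩ := hINJ k (Fr k n) m (n - 1) _ hPM z
      ⟨hz.1, fun ω hω => (hG0 c hPM.c_glue ω hω (z ω)).mp (hz.2 ω hω)⟩ (funext hcz)
    refine ⟨z', y, ⟨hz'.1, fun ω hω => (hG0 c' hPM.c'_glue ω hω (z' ω)).mpr (hz'.2 ω hω)⟩,
      fun ω => congrFun hcz' ω, ⟨hy.1, fun ω hω => (hG0 c hPM.c_glue ω hω (y ω)).mpr (hy.2 ω hω)⟩,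
      fun ω => congrFun hzz ω⟩
  -- the change of the covering
  obtain ⟨z', y', hz', hdz', hy', hzz⟩ := hCMP (Fin D.p) (Fin D.M) (Fin m) (Fr k n) G G' hGG
    (hmon c) (hmon c')
    (fun σ τ hσ hτ => hW1 k n D l ε m C N h hD hC hE c σ τ hσ hτ)
    (fun σ τ hσ hτ => hW1 k n D l ε m C N h hD hC hE c' σ τ hσ hτ)
    (fun σ ω _ hω => by
      obtain ⟨v, hv⟩ := hω
      exact augEx_of_red (C.b v) (fun τ => G_redT C c σ τ hv))
    (fun ω hω => by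
      obtain ⟨v, hv⟩ := hω
      exact augEx_of_red (C.a v) (fun σ => G_redP C c σ ∅ hv))
    hinj (fun σ τ => inc k n l * z σ τ)
    ⟨fun τ => by simp only [hz.1.1 τ, mul_zero], fun σ => by simp only [hz.2 σ, mul_zero],
      fun σ τ hσ hτ => (conv1 hIJ hD hEG1 hGE hl0 hC hE hσ hτ (z σ τ)).mp (hz.1.2 σ τ)⟩
    (fun σ τ => by
      have h1 := congrFun (congrFun (dd_map (AddMonoidHom.mulLeft (inc k n l)) z) σ) τ
      have h2 : dd z σ τ = 0 := by rw [hdz]; rfl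
      change dd (fun σ τ => AddMonoidHom.mulLeft (inc k n l) (z σ τ)) σ τ = 0
      rw [h1]
      simp only [h2, map_zero])
  -- the push-forward
  have hlt : inc k n l ^ t ≠ 0 := pow_ne_zero _ hil
  have hEg : ∀ (σ σ' : Finset (Fin D.p)) (x : Fr k n), σ.Nonempty → σ ⊆ σ' →
      x ∈ D.Eg (-((t * ε : ℕ) : ℤ)) σ ∅ → x ∈ D.Eg (-((t * ε : ℕ) : ℤ)) σ' ∅ := by
    rintro σ σ' x ⟨a, ha⟩ hs hx
    rw [hEG0 k n D hD σ' a (hs ha)]
    rw [hEG0 k n D hD σ a ha] at hx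
    exact toF_mono (P0_mono hs (Finset.Subset.refl _)) _ hx
  obtain ⟨w, hw0, hw, hdw⟩ := hCOL (Fin D.p) (Fin D.M) (Fr k n)
    (fun σ τ => Sy C hD N0 m0 (-((t * ε : ℕ) : ℤ)) σ τ)
    (fun σ σ' τ τ' hσ hs ht => Sy_mono hIJ hD N0 m0 _ hEg hσ hs ht)
    (fun σ hσ => hps (-((t * ε : ℕ) : ℤ)) σ hσ)
    (fun σ τ => z' σ τ / inc k n l ^ t)
    (fun τ => by simp only [hz'.1 τ, zero_div])
    (fun σ τ hσ => by
      rcases τ.eq_empty_or_nonempty with rfl | hτ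
      · simp only [hz'.2.1 σ, zero_div]
        exact zero_mem _
      · exact conv2 hIJ hD hl0 hC N0 m0 t hτ _ (hz'.2.2 σ τ hσ hτ))
    (fun σ τ => by
      have h1 := congrFun (congrFun (dd_map (AddMonoidHom.mulRight (inc k n l ^ t)⁻¹) z') σ) τ
      have h2 : dd z' σ τ = 0 := hdz' σ τ
      simp only [div_eq_mul_inv]
      change dd (fun σ τ => AddMonoidHom.mulRight (inc k n l ^ t)⁻¹ (z' σ τ)) σ τ = 0
      rw [h1]
      simp only [h2, map_zero])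
  refine ⟨fun σ τ => (inc k n l)⁻¹ * y' σ τ, w, ⟨⟨fun τ => ?_, fun σ τ => ?_⟩, fun σ => ?_⟩,
    ⟨hw0, fun σ τ => ?_⟩, fun σ => ?_, fun σ τ => ?_⟩
  · simp only [hy'.1 τ, mul_zero]
  · rcases σ.eq_empty_or_nonempty with rfl | hσ
    · simp only [hy'.1 τ, mul_zero]
      exact zero_mem _
    rcases τ.eq_empty_or_nonempty with rfl | hτ
    · simp only [hy'.2.1 σ, mul_zero]
      exact zero_mem _
    rw [conv1 hIJ hD hEG1 hGE hl0 hC hE hσ hτ, mul_inv_cancel_left₀ hil]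
    exact hy'.2.2 σ τ hσ hτ
  · simp only [hy'.2.1 σ, mul_zero]
  · rcases σ.eq_empty_or_nonempty with rfl | hσ
    · rw [hw0]
      exact zero_mem _
    exact conv3 hIJ hD hEG1 hGE hC hE hN0 _ τ hσ _ (hw σ τ hσ)
  · rw [hdw]
    simp only [hz'.2.1 σ, zero_div]
  · have h1 := congrFun (congrFun (dd_map (AddMonoidHom.mulLeft (inc k n l)⁻¹) y') σ) τ
    have h2 : dd (fun σ τ => (inc k n l)⁻¹ * y' σ τ) σ τ = (inc k n l)⁻¹ * dd y' σ τ := h1
    rw [h2, hdw]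
    have h3 := hzz σ τ
    have h4 : inc k n l * z σ τ = z' σ τ + dd y' σ τ := h3
    have h5 : z σ τ = (inc k n l)⁻¹ * (z' σ τ + dd y' σ τ) := by
      rw [← h4, inv_mul_cancel_left₀ hil]
    rw [h5]
    obtain ⟨t', rfl⟩ : ∃ t', t = t' + 1 := ⟨t - 1, by omega⟩
    simp only [Nat.add_sub_cancel]
    field_simp
    ring

end

end Pool.Agent.DBX.SUR
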