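import Pool.Agent.DBX.SUR.Stmts

set_option autoImplicit false

/-! # MP_2c751f_ag, squad DBX, area SUR: module UC (helper20) -/

namespace Pool.Agent.DBX.SUR

open MvPolynomial

noncomputable section

universe u

namespace UC_

variable {k : Type u} [Field k] {n : ℕ} {D : Dat k n} {m : ℕ}

theorem ch_le (C : Cov D m) (v : Fin m) : D.ch (C.a v) (C.b v) ≤ C.A v :=
  fun _ hz => Algebra.subset_adjoin (Or.inl hz)

theorem x_mem (C : Cov D m) (v : Fin m) (i : Fin n) :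
    inc k n (X i) / inc k n (D.g (C.a v)) ∈ C.A v :=
  ch_le C v (Algebra.subset_adjoin (Or.inl ⟨i, rfl⟩))

theorem f_mem (C : Cov D m) (v : Fin m) (j : Fin D.M) :
    inc k n (D.f j) / inc k n (D.f (C.b v)) ∈ C.A v :=
  ch_le C v (Algebra.subset_adjoin (Or.inr ⟨j, rfl⟩))

/-- `{z | η^e z ∈ A}` -/
def U {L : Type*} [Field L] [Algebra k L] (A : Subalgebra k L) (η : L) (hη : η ∈ A) :
    Subalgebra k L where
  carrier := {z | ∃ e : ℕ, η ^ e * z ∈ A}
  mul_mem' := by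
    rintro x y ⟨e, he⟩ ⟨e', he'⟩
    refine ⟨e + e', ?_⟩
    have h := mul_mem he he'
    have h1 : η ^ e * x * (η ^ e' * y) = η ^ (e + e') * (x * y) := by ring
    rwa [h1] at h
  add_mem' := by
    rintro x y ⟨e, he⟩ ⟨e', he'⟩
    refine ⟨e + e', ?_⟩
    have h1 : η ^ (e + e') * (x + y) = η ^ e' * (η ^ e * x) + η ^ e * (η ^ e' * y) := by ring
    rw [h1]
    exact add_mem (mul_mem (pow_mem hη _) he) (mul_mem (pow_mem hη _) he')
  algebraMap_mem' := fun r => ⟨0, by rw [pow_zero, one_mul]; exact A.algebraMap_mem r⟩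

theorem loc (C : Cov D m) {N : ℕ} {h : Fin m → Fr k n} (hE : C.Emb N h) (v w : Fin m) :
    ∀ z ∈ C.A v ⊔ C.A w, ∃ e : ℕ, (h w / h v) ^ e * z ∈ C.A v := by
  have h1 : C.A v ⊔ C.A w ≤ U (C.A v) (h w / h v) (hE.h_mem v w) := by
    have hA : C.A v ≤ U (C.A v) (h w / h v) (hE.h_mem v w) :=
      fun z hz => ⟨0, by rw [pow_zero, one_mul]; exact hz⟩
    refine sup_le hA ((hE.glue v w).trans ?_)
    refine Algebra.adjoin_le (Set.union_subset hA ?_)
    rintro z rfl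
    refine ⟨1, ?_⟩
    have e1 : (h w / h v) ^ 1 * (h v / h w) = 1 := by
      rw [pow_one, div_mul_div_comm, mul_comm (h w)]
      exact div_self (mul_ne_zero (hE.h_ne v) (hE.h_ne w))
    rw [e1]
    exact one_mem _
  exact fun z hz => h1 hz

/-- the ideal of `E` over `A_v ⊔ A_w` -/
theorem rad (hRL : Stmt_RL.{u}) (hIJ : Stmt_IJ.{u}) (hD : D.Good) (C : Cov D m) {l : Pol k n}
    {ε : ℕ} (hC : C.Good l ε) {N : ℕ} {h : Fin m → Fr k n} (hE : C.Emb N h) (v w : Fin m)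
    (z : Fr k n) :
    z ∈ toF (C.A v ⊔ C.A w) (genIn (C.A v ⊔ C.A w) (D.I0 (C.a v))).radical ↔
      z / C.mon C.ce v ∈ C.A v ⊔ C.A w := by
  have hη : h w / h v ≠ 0 := div_ne_zero (hE.h_ne w) (hE.h_ne v)
  have hinv : (h w / h v)⁻¹ ∈ C.A v ⊔ C.A w := by
    rw [inv_div]
    exact (le_sup_right : C.A w ≤ C.A v ⊔ C.A w) (hE.h_mem w v)
  rw [(hRL k (Fr k n) (C.A v) (C.A v ⊔ C.A w) (h w / h v) (D.I0 (C.a v)) le_sup_left
    (hE.h_mem v w) hinv hη (loc C hE v w) ((hIJ k n D hD (C.a v) (C.A v)).1 (x_mem C v)) z).2]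
  constructor
  · rintro ⟨e, he⟩
    rw [hC.radE] at he
    have h1 : z / C.mon C.ce v = (h w / h v)⁻¹ ^ e * ((h w / h v) ^ e * z / C.mon C.ce v) := by
      rw [mul_div_assoc, ← mul_assoc, ← mul_pow, inv_mul_cancel₀ hη, one_pow, one_mul]
    rw [h1]
    exact mul_mem (pow_mem hinv _) ((le_sup_left : C.A v ≤ C.A v ⊔ C.A w) he)
  · intro hz
    obtain ⟨e, he⟩ := loc C hE v w _ hz
    refine ⟨e, ?_⟩
    rw [hC.radE, mul_div_assoc]
    exact he

end UC_

theorem uc_proof (hRL : Stmt_RL.{u}) (hIJ : Stmt_IJ.{u}) : Stmt_UC.{u} := by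
  intro k _ n D l ε m C N h hD hC hE v w
  have hv : C.A v ≤ C.A v ⊔ C.A w := le_sup_left
  have hw : C.A w ≤ C.A v ⊔ C.A w := le_sup_right
  -- ratios of the linear forms
  have hg : ∀ v w : Fin m, inc k n (D.g (C.a w)) / inc k n (D.g (C.a v)) ∈ C.A v := by
    intro v w
    have := (hIJ k n D hD (C.a v) (C.A v)).2.1 (UC_.x_mem C v) (D.g (C.a w)) 1 (hD.g_hom _)
    rwa [pow_one] at this
  have hgvw : inc k n (D.g (C.a v)) / inc k n (D.g (C.a w)) ∈ C.A v ⊔ C.A w := hw (hg w v)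
  have hgwv : inc k n (D.g (C.a w)) / inc k n (D.g (C.a v)) ∈ C.A v ⊔ C.A w := hv (hg v w)
  have hgn : ∀ v : Fin m, inc k n (D.g (C.a v)) ≠ 0 := fun v => inc_ne (hD.g_ne _)
  have hfn : ∀ v : Fin m, inc k n (D.f (C.b v)) ≠ 0 := fun v => inc_ne (hD.f_ne _)
  have hln : inc k n l ≠ 0 := inc_ne hC.l_ne
  -- general pattern
  have key : ∀ (c : Fin m → Fin (n - 1) → ℕ) (F : Fin m → Fr k n), (∀ v, F v ≠ 0) →
      (∀ v, F v / C.mon c v ∈ C.A v ∧ C.mon c v / F v ∈ C.A v) →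
      F v / F w ∈ C.A v ⊔ C.A w → C.mon c v / C.mon c w ∈ C.A v ⊔ C.A w := by
    intro c F hF hc hFF
    have h1 : C.mon c v / C.mon c w =
        (C.mon c v / F v) * (F v / F w) * (F w / C.mon c w) := by
      have := hF v
      have := hF w
      field_simp
    rw [h1]
    exact mul_mem (mul_mem (hv (hc v).2) hFF) (hw (hc w).1)
  refine ⟨?_, ?_, ?_⟩
  · have hmon : C.mon C.ce v ≠ 0 :=
      Finset.prod_ne_zero_iff.mpr (fun i _ => pow_ne_zero _ (hC.t_ne v i))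
    have h1 := UC_.rad hRL hIJ hD C hC hE v w (C.mon C.ce v)
    rw [div_self hmon] at h1
    have h2 := h1.mpr (one_mem _)
    rw [(hIJ k n D hD (C.a v) (C.A v ⊔ C.A w)).2.2 (C.a w) hgvw hgwv, sup_comm] at h2
    have h3 := (UC_.rad hRL hIJ hD C hC hE w v (C.mon C.ce v)).mp h2
    rwa [sup_comm] at h3
  · refine key C.cf (fun v => inc k n (D.f (C.b v)) / inc k n (D.g (C.a v)) ^ D.δ)
      (fun v => div_ne_zero (hfn v) (pow_ne_zero _ (hgn v))) (fun v => hC.idF v) ?_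
    have h1 : inc k n (D.f (C.b v)) / inc k n (D.g (C.a v)) ^ D.δ /
        (inc k n (D.f (C.b w)) / inc k n (D.g (C.a w)) ^ D.δ) =
        (inc k n (D.f (C.b v)) / inc k n (D.f (C.b w))) *
          (inc k n (D.g (C.a w)) / inc k n (D.g (C.a v))) ^ D.δ := by
      have := hfn w
      have := hgn v
      have := hgn w
      rw [div_pow]
      field_simp
    rw [h1]
    exact mul_mem (hw (UC_.f_mem C w _)) (pow_mem hgwv _)
  · refine key C.cl (fun v => inc k n l / inc k n (D.g (C.a v)) ^ ε)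
      (fun v => div_ne_zero hln (pow_ne_zero _ (hgn v))) (fun v => hC.idL v) ?_
    have h1 : inc k n l / inc k n (D.g (C.a v)) ^ ε / (inc k n l / inc k n (D.g (C.a w)) ^ ε) =
          (inc k n (D.g (C.a w)) / inc k n (D.g (C.a v))) ^ ε := by
      have := hgn v
      have := hgn w
      rw [div_pow]
      field_simp
    rw [h1]
    exact pow_mem hgwv _

end

end Pool.Agent.DBX.SUR
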