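import Pool.Agent.DBX.SUR.Stmts
import Pool.Agent.DBX.Lib.Cech

/-!
# DBX, area SUR, module W1: exactness of the augmented complexes in the direction of the covering
-/

set_option autoImplicit false

namespace Pool.Agent.DBX.SUR

open MvPolynomial

noncomputable section

universe u

namespace W1_

variable {k : Type u} [Field k] {n : ℕ} {D : Dat k n} {m : ℕ}

theorem ch_le (D : Dat k n) {σ : Finset (Fin D.p)} {τ : Finset (Fin D.M)} {a : Fin D.p}
    {b : Fin D.M} (ha : a ∈ σ) (hb : b ∈ τ) : D.ch a b ≤ P0 D σ τ := by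
  refine Algebra.adjoin_mono (Set.union_subset_union ?_ ?_)
  · rintro z ⟨i, rfl⟩
    exact ⟨a, ha, i, rfl⟩
  · rintro z ⟨j, rfl⟩
    exact ⟨b, hb, j, rfl⟩

/-- the modules of sections over `P0 σ τ` -/
def GP (C : Cov D m) (c : Fin m → Fin (n - 1) → ℕ) (σ : Finset (Fin D.p))
    (τ : Finset (Fin D.M)) (ω : Finset (Fin m)) : Submodule (P0 D σ τ) (Fr k n) where
  carrier := C.G c σ τ ω
  zero_mem' := zero_mem _
  add_mem' := fun hx hy => add_mem hx hy
  smul_mem' := by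
    intro r x hx v
    have h1 : ((r : Fr k n) * x) / C.mon c v = (r : Fr k n) * (x / C.mon c v) :=
      mul_div_assoc _ _ _
    have h3 : P0 D σ τ ≤ C.Rg σ τ (insert v ω) := le_sup_left
    change ((r : Fr k n) * x) / C.mon c v ∈ C.Rg σ τ (insert v ω)
    rw [h1]
    exact mul_mem (h3 r.2) (hx v)

theorem mem_GP (C : Cov D m) (c : Fin m → Fin (n - 1) → ℕ) (σ : Finset (Fin D.p))
    (τ : Finset (Fin D.M)) (ω : Finset (Fin m)) (z : Fr k n) :
    z ∈ GP C c σ τ ω ↔ ∀ v, z / C.mon c v ∈ C.Rg σ τ (insert v ω) := Iff.rfl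

theorem Rg_insert (C : Cov D m) (σ : Finset (Fin D.p)) (τ : Finset (Fin D.M))
    (ω : Finset (Fin m)) (u v : Fin m) :
    C.Rg σ τ (insert u (insert v ω)) = C.Rg σ τ (insert u ω) ⊔ C.A v := by
  unfold Cov.Rg
  rw [Finset.insert_comm, Finset.iSup_insert (a := v), sup_assoc, sup_comm (C.A v)]

end W1_

open W1_ in
theorem w1_proof (hLT : Stmt_LT.{u}) (_hPU : Stmt_PU.{u}) : Stmt_W1.{u} := by
  intro k _ n D l ε m C N h hD _hC hE c σ τ hσ hτ
  obtain ⟨a, ha⟩ := hσ
  obtain ⟨b, hb⟩ := hτ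
  have hch : D.ch a b ≤ P0 D σ τ := ch_le D ha hb
  let f : Fin m → P0 D σ τ := fun v => ⟨Cov.th D N h a b v, hch (hE.th_mem a b v)⟩
  have hloc : ∀ v ω, v ∉ ω → ∀ z ∈ GP C c σ τ (insert v ω), ∃ e : ℕ,
      f v ^ e • z ∈ GP C c σ τ ω := by
    intro v ω _ z hz
    have h1 : ∀ u : Fin m, ∃ e : ℕ,
        Cov.th D N h a b v ^ e * (z / C.mon c u) ∈ C.Rg σ τ (insert u ω) := by
      intro u
      refine hLT k n D m C N h hD hE a b v (C.Rg σ τ (insert u ω))
        (hch.trans le_sup_left) _ ?_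
      rw [← Rg_insert]
      exact hz u
    choose e he using h1
    refine ⟨Finset.univ.sup e, ?_⟩
    rw [mem_GP]
    intro u
    obtain ⟨r, hr⟩ := Nat.exists_eq_add_of_le (Finset.le_sup (f := e) (Finset.mem_univ u))
    rw [hr]
    change (((f v ^ (e u + r) : P0 D σ τ) : Fr k n) * z) / C.mon c u ∈ _
    rw [SubmonoidClass.coe_pow, mul_div_assoc]
    change Cov.th D N h a b v ^ (e u + r) * (z / C.mon c u) ∈ _
    rw [add_comm, pow_add, mul_assoc]
    refine mul_mem (pow_mem ?_ r) (he u)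
    exact (hch.trans le_sup_left) (hE.th_mem a b v)
  have hf : Ideal.span (Set.range f) = ⊤ := by
    obtain ⟨cc, hcc, h1⟩ := hE.th_one a b
    rw [Ideal.eq_top_iff_one]
    have h2 : (1 : P0 D σ τ) = ∑ v, (⟨cc v, hch (hcc v)⟩ : P0 D σ τ) * f v := by
      apply Subtype.ext
      rw [AddSubmonoidClass.coe_finsetSum]
      exact h1.symm
    rw [h2]
    exact Ideal.sum_mem _ (fun v _ => Ideal.mul_mem_left _ _ (Ideal.subset_span ⟨v, rfl⟩))
  intro x hx hc
  obtain ⟨y, hy, hyx⟩ := exact_of_unity (A := GP C c σ τ) f hloc hf (x := x) hx (funext hc)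
  exact ⟨y, hy, fun ω => congrFun hyx ω⟩

end

end Pool.Agent.DBX.SUR
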