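import Pool.Agent.DBX.SUR.CJ
import Pool.Agent.DBX.SUR.CM
import Pool.Agent.DBX.SUR.CMP
import Pool.Agent.DBX.SUR.COL
import Pool.Agent.DBX.SUR.COV
import Pool.Agent.DBX.SUR.EG0
import Pool.Agent.DBX.SUR.EG1
import Pool.Agent.DBX.SUR.EMB
import Pool.Agent.DBX.SUR.ETL
import Pool.Agent.DBX.SUR.FIN
import Pool.Agent.DBX.SUR.GE
import Pool.Agent.DBX.SUR.GS
import Pool.Agent.DBX.SUR.IJ
import Pool.Agent.DBX.SUR.LE
import Pool.Agent.DBX.SUR.LT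
import Pool.Agent.DBX.SUR.NZ
import Pool.Agent.DBX.SUR.PMG
import Pool.Agent.DBX.SUR.PP
import Pool.Agent.DBX.SUR.PSH
import Pool.Agent.DBX.SUR.PU
import Pool.Agent.DBX.SUR.RL
import Pool.Agent.DBX.SUR.SURE
import Pool.Agent.DBX.SUR.UC
import Pool.Agent.DBX.SUR.W1

set_option autoImplicit false

/-! # MP_2c751f_ag, squad DBX, area SUR: assembly (helper93) -/

namespace Pool.Agent.DBX.SUR

universe u

theorem a_sure (hINJ : Stmt_INJ.{u}) (hSER2 : Stmt_SER2.{u, u}) (hSER3 : Stmt_SER3.{u, u}) :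
    Stmt_SURE.{u} := by
  have hIJ : Stmt_IJ.{u} := ij_proof
  have hRL : Stmt_RL.{u} := rl_proof
  have hLT : Stmt_LT.{u} := lt_proof
  have hPU : Stmt_PU.{u} := pu_proof
  have hPP : Stmt_PP.{u} := pp_proof
  have hLE : Stmt_LE.{u} := le_proof hIJ
  have hETL : Stmt_ETL.{u} := etl_proof
  have hCOV : Stmt_COV.{u} := cov_proof hETL hRL hIJ
  have hEMB : Stmt_EMB.{u} := emb_proof
  have hUC : Stmt_UC.{u} := uc_proof hRL hIJ
  have hPMG : Stmt_PMG.{u} := pmg_proof hUC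
  have hW1 : Stmt_W1.{u} := w1_proof hLT hPU
  have hEG0 : Stmt_EG0.{u} := eg0_proof hIJ
  have hEG1 : Stmt_EG1.{u} := eg1_proof hIJ
  have hGE : Stmt_GE.{u} := ge_proof hRL hIJ hLT hPU hLE
  have hNZ : Stmt_NZ.{u} := nz_proof hRL hIJ hLT hPU
  have hCM : Stmt_CM.{u} := cm_proof hPP hLT hPU
  have hCJ : Stmt_CJ.{u} := cj_proof hPP hIJ
  have hGS : Stmt_GS.{u} := gs_proof hSER3 hCJ hPP hIJ
  have hPSH : Stmt_PSH.{u} := psh_proof hSER2 hCM hGS hEG0 hIJ hPP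
  exact sure_proof hINJ hCOV hEMB hPMG cmp_proof col_proof hW1 hEG0 hEG1 hGE hNZ hPSH hIJ

theorem a_sur0 (hINJ : Stmt_INJ.{u}) (hSER2 : Stmt_SER2.{u, u}) (hSER3 : Stmt_SER3.{u, u}) :
    Stmt_SUR0.{u} := sur0_of (a_sure hINJ hSER2 hSER3)

theorem a_sur1 (hINJ : Stmt_INJ.{u}) (hSER2 : Stmt_SER2.{u, u}) (hSER3 : Stmt_SER3.{u, u}) :
    Stmt_SUR1.{u} := sur1_of (a_sure hINJ hSER2 hSER3)

end Pool.Agent.DBX.SUR
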