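import Pool.Agent.DBX.SUR.Stmts

set_option autoImplicit false

/-! # MP_2c751f_ag, squad DBX, area SUR, module CJ -/

namespace Pool.Agent.DBX.SUR

open MvPolynomial

noncomputable section

universe u

namespace CJ_

/-- The ideal generated by `J` in `B`, as a submodule of the field over `B`. -/
theorem mem_toF {K L : Type*} [Field K] [Field L] [Algebra K L] (B : Subalgebra K L) (J : Set L)
    (hJ : J ⊆ B) (z : L) : z ∈ toF B (genIn B J) ↔ z ∈ Submodule.span B J := by
  constructor
  · rintro ⟨y, hy, rfl⟩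
    have hy' : y ∈ Submodule.span B {z : B | (z : L) ∈ J} := hy
    clear hy
    change (y : L) ∈ Submodule.span B J
    induction hy' using Submodule.span_induction with
    | mem x h => exact Submodule.subset_span h
    | zero => rw [ZeroMemClass.coe_zero]; exact zero_mem _
    | add x y _ _ hx hy => rw [AddMemClass.coe_add]; exact add_mem hx hy
    | smul r x _ hx =>
      have h1 : ((r • x : B) : L) = r • (x : L) := rfl
      rw [h1]
      exact Submodule.smul_mem _ _ hx
  · intro h
    induction h using Submodule.span_induction with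
    | mem x h => exact ⟨⟨x, hJ h⟩, Ideal.subset_span h, rfl⟩
    | zero => exact zero_mem _
    | add x y _ _ hx hy => exact add_mem hx hy
    | smul r x _ hx =>
      obtain ⟨y, hy, rfl⟩ := hx
      exact ⟨r * y, Ideal.mul_mem_left _ _ hy, rfl⟩

variable {k : Type u} [Field k] {n : ℕ}

theorem P0_mono (D : Dat k n) (σ : Finset (Fin D.p)) {τ τ' : Finset (Fin D.M)} (h : τ ⊆ τ') :
    P0 D σ τ ≤ P0 D σ τ' := by
  apply Algebra.adjoin_mono
  apply Set.union_subset_union_right
  rintro z ⟨b, hb, hz⟩
  exact ⟨b, h hb, hz⟩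

theorem I0_sub (hIJ : Stmt_IJ.{u}) (D : Dat k n) (hD : D.Good) (σ : Finset (Fin D.p))
    (a : Fin D.p) (ha : a ∈ σ) (τ : Finset (Fin D.M)) : D.I0 a ⊆ P0 D σ τ := by
  refine (hIJ k n D hD a (P0 D σ τ)).1 fun i => ?_
  exact Algebra.subset_adjoin (Or.inl ⟨a, ha, i, rfl⟩)

end CJ_

open CJ_ in
theorem cj_proof (hPP : Stmt_PP.{u}) (hIJ : Stmt_IJ.{u}) : Stmt_CJ.{u} := by
  intro k _ n D hD σ a ha
  have hsub := I0_sub hIJ D hD σ a ha
  have key : ∀ (τ : Finset (Fin D.M)) (z : Fr k n), z ∈ JM D a σ τ ↔
      z ∈ Submodule.span (P0 D σ τ) (D.I0 a) := fun τ z => mem_toF _ _ (hsub τ) z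
  obtain ⟨hP1, hP2⟩ := hPP k n D hD σ a ha
  refine ⟨?_, ?_, ?_, ?_⟩
  · intro τ hτ b hb x hx
    have hb' : b ∈ P0 D σ τ := (hP1 τ hτ b).1 hb
    rw [key] at hx ⊢
    exact Submodule.smul_mem _ (⟨b, hb'⟩ : P0 D σ τ) hx
  · intro τ τ' _ hss x hx
    rw [key] at hx ⊢
    induction hx using Submodule.span_induction with
    | mem x h => exact Submodule.subset_span h
    | zero => exact zero_mem _
    | add x y _ _ hx hy => exact add_mem hx hy
    | smul r x _ hx =>
      exact Submodule.smul_mem _ (⟨(r : Fr k n), P0_mono D σ hss r.2⟩ : P0 D σ τ') hx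
  · intro τ τ' hτ hss x hx
    rw [key] at hx
    induction hx using Submodule.span_induction with
    | mem x h =>
      refine Submodule.subset_span ?_
      change x ∈ JM D a σ τ
      rw [key]
      exact Submodule.subset_span h
    | zero => exact zero_mem _
    | add x y _ _ hx hy => exact add_mem hx hy
    | smul r x _ hx =>
      exact Submodule.smul_mem _
        (⟨(r : Fr k n), (hP1 τ' (hτ.mono hss) _).2 r.2⟩ : Prg (P0 D σ ∅) (hu D hD a) τ') hx
  · intro v
    obtain ⟨S, hS⟩ := (isNoetherianRing_iff_ideal_fg _).1 (hP2 {v})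
      (genIn (P0 D σ {v}) (D.I0 a))
    classical
    refine ⟨S.image (fun s : P0 D σ {v} => (s : Fr k n)), ?_, ?_⟩
    · intro z hz
      rw [Finset.mem_coe, Finset.mem_image] at hz
      obtain ⟨s, hs, rfl⟩ := hz
      refine ⟨s, ?_, rfl⟩
      change s ∈ genIn (P0 D σ {v}) (D.I0 a)
      rw [← hS]
      exact Submodule.subset_span hs
    · rintro x ⟨y, hy, rfl⟩
      have hy' : y ∈ genIn (P0 D σ {v}) (D.I0 a) := hy
      rw [← hS] at hy'
      clear hy
      change (y : Fr k n) ∈ _
      induction hy' using Submodule.span_induction with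
      | mem x h =>
        refine Submodule.subset_span ?_
        rw [Finset.mem_coe, Finset.mem_image]
        exact ⟨x, h, rfl⟩
      | zero => rw [ZeroMemClass.coe_zero]; exact zero_mem _
      | add x y _ _ hx hy => rw [AddMemClass.coe_add]; exact add_mem hx hy
      | smul r x _ hx =>
        exact Submodule.smul_mem _
          (⟨(r : Fr k n), (hP1 {v} (Finset.singleton_nonempty v) _).2 r.2⟩ :
            Prg (P0 D σ ∅) (hu D hD a) {v}) hx

end

end Pool.Agent.DBX.SUR
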