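import Pool.Agent.DBX.SUR.Stmts

set_option autoImplicit false

namespace Pool.Agent.DBX.SUR

open MvPolynomial

universe u

namespace LT_

/-- the elements which are moved into `B` by a power of `θ` -/
def locSub {k F : Type*} [Field k] [Field F] [Algebra k F] (B : Subalgebra k F) (θ : F)
    (hθ : θ ∈ B) : Subalgebra k F where
  carrier := {z | ∃ e : ℕ, θ ^ e * z ∈ B}
  mul_mem' := by
    rintro x y ⟨e, he⟩ ⟨e', he'⟩
    refine ⟨e + e', ?_⟩
    have : θ ^ (e + e') * (x * y) = (θ ^ e * x) * (θ ^ e' * y) := by ring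
    rw [this]
    exact mul_mem he he'
  add_mem' := by
    rintro x y ⟨e, he⟩ ⟨e', he'⟩
    refine ⟨e + e', ?_⟩
    have : θ ^ (e + e') * (x + y) = θ ^ e' * (θ ^ e * x) + θ ^ e * (θ ^ e' * y) := by ring
    rw [this]
    exact add_mem (mul_mem (pow_mem hθ _) he) (mul_mem (pow_mem hθ _) he')
  algebraMap_mem' := by
    intro r
    exact ⟨0, by simpa using B.algebraMap_mem r⟩

end LT_

open LT_ in
theorem lt_proof : Stmt_LT.{u} := by
  intro k _ n D m C N h _ hE a b v B hB z hz
  have hθ : Cov.th D N h a b v ∈ B := hB (hE.th_mem a b v)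
  have h1 : B ≤ locSub B (Cov.th D N h a b v) hθ := fun x hx => ⟨0, by simpa using hx⟩
  have h2 : C.A v ≤ locSub B (Cov.th D N h a b v) hθ := by
    intro x hx
    obtain ⟨e, he⟩ := hE.th_loc a b v x hx
    exact ⟨e, hB he⟩
  exact (sup_le h1 h2) hz

end Pool.Agent.DBX.SUR
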