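import Pool.Agent.DBX.Interface

set_option autoImplicit false

/-! # MP_2c751f_ag, squad DBX, area SUR (helper93): statements of the modules -/

namespace Pool.Agent.DBX.SUR

open MvPolynomial

noncomputable section

universe u

/-! ## Pure combinatorics of Čech complexes -/

/-- Columns exact implies total complex exact. -/
def Stmt_COL : Prop :=
  ∀ (P T : Type) [LinearOrder P] [Fintype P] [LinearOrder T] [Fintype T] (𝔸 : Type u)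
    [AddCommGroup 𝔸] (G : Finset P → Finset T → AddSubgroup 𝔸),
    (∀ σ σ' τ τ', σ.Nonempty → σ ⊆ σ' → τ ⊆ τ' → G σ τ ≤ G σ' τ') →
    (∀ σ, σ.Nonempty → ∀ x : Finset T → 𝔸, (∀ τ, x τ ∈ G σ τ) → (∀ τ, cd x τ = 0) →
      ∃ y : Finset T → 𝔸, (∀ τ, y τ ∈ G σ τ) ∧ ∀ τ, cd y τ = x τ) →
    ∀ z : Finset P → Finset T → 𝔸, (∀ τ, z ∅ τ = 0) → (∀ σ τ, σ.Nonempty → z σ τ ∈ G σ τ) →
      (∀ σ τ, dd z σ τ = 0) →
      ∃ y : Finset P → Finset T → 𝔸, (∀ τ, y ∅ τ = 0) ∧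
        (∀ σ τ, σ.Nonempty → y σ τ ∈ G σ τ) ∧ ∀ σ τ, dd y σ τ = z σ τ

/-- Non-augmented double cochains with values in `G`. -/
def InD {P T : Type} {𝔸 : Type u} [AddCommGroup 𝔸] (G : Finset P → Finset T → AddSubgroup 𝔸)
    (z : Finset P → Finset T → 𝔸) : Prop :=
  (∀ τ, z ∅ τ = 0) ∧ (∀ σ, z σ ∅ = 0) ∧ ∀ σ τ, σ.Nonempty → τ.Nonempty → z σ τ ∈ G σ τ

/-- Non-augmented cochains with values in `G`. -/
def InS {V : Type} {𝔸 : Type u} [AddCommGroup 𝔸] (G : Finset V → AddSubgroup 𝔸)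
    (z : Finset V → 𝔸) : Prop :=
  z ∅ = 0 ∧ ∀ ω, ω.Nonempty → z ω ∈ G ω

/-- The augmented complex of the system `G` is exact. -/
def AugEx {V : Type} [LinearOrder V] {𝔸 : Type u} [AddCommGroup 𝔸] (G : Finset V → AddSubgroup 𝔸) :
    Prop :=
  ∀ x : Finset V → 𝔸, (∀ ω, x ω ∈ G ω) → (∀ ω, cd x ω = 0) →
    ∃ y : Finset V → 𝔸, (∀ ω, y ω ∈ G ω) ∧ ∀ ω, cd y ω = x ω

/-- Change of the covering: surjectivity of `H(G') → H(G)` for the covering `V` implies the same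
for the covering `(P, T)`. -/
def Stmt_CMP : Prop :=
  ∀ (P T V : Type) [LinearOrder P] [Fintype P] [LinearOrder T] [Fintype T] [LinearOrder V]
    [Fintype V] (𝔸 : Type u) [AddCommGroup 𝔸]
    (G G' : Finset P → Finset T → Finset V → AddSubgroup 𝔸),
    (∀ σ τ ω, G' σ τ ω ≤ G σ τ ω) →
    (∀ σ σ' τ τ' ω ω', σ ⊆ σ' → τ ⊆ τ' → ω ⊆ ω' → G σ τ ω ≤ G σ' τ' ω') →
    (∀ σ σ' τ τ' ω ω', σ ⊆ σ' → τ ⊆ τ' → ω ⊆ ω' → G' σ τ ω ≤ G' σ' τ' ω') →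
    (∀ σ τ, σ.Nonempty → τ.Nonempty → AugEx (fun ω => G σ τ ω)) →
    (∀ σ τ, σ.Nonempty → τ.Nonempty → AugEx (fun ω => G' σ τ ω)) →
    (∀ σ ω, σ.Nonempty → ω.Nonempty → AugEx (fun τ => G σ τ ω)) →
    (∀ ω, ω.Nonempty → AugEx (fun σ => G σ ∅ ω)) →
    (∀ z : Finset V → 𝔸, InS (fun ω => G ∅ ∅ ω) z → (∀ ω, cd z ω = 0) →
      ∃ z' y : Finset V → 𝔸, InS (fun ω => G' ∅ ∅ ω) z' ∧ (∀ ω, cd z' ω = 0) ∧
        InS (fun ω => G ∅ ∅ ω) y ∧ ∀ ω, z ω = z' ω + cd y ω) →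
    ∀ z : Finset P → Finset T → 𝔸, InD (fun σ τ => G σ τ ∅) z → (∀ σ τ, dd z σ τ = 0) →
      ∃ z' y : Finset P → Finset T → 𝔸, InD (fun σ τ => G' σ τ ∅) z' ∧
        (∀ σ τ, dd z' σ τ = 0) ∧ InD (fun σ τ => G σ τ ∅) y ∧
        ∀ σ τ, z σ τ = z' σ τ + dd y σ τ

/-! ## Coverings of the blow-up -/

variable {k : Type u} [Field k] {n : ℕ}

/-- `k[x_i/g_a (a ∈ σ), f_j/f_b (b ∈ τ)]` -/
def P0 (D : Dat k n) (σ : Finset (Fin D.p)) (τ : Finset (Fin D.M)) : Subalgebra k (Fr k n) :=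
  Algebra.adjoin k ({z | ∃ a ∈ σ, ∃ i, z = inc k n (X i) / inc k n (D.g a)} ∪
    {z | ∃ b ∈ τ, ∃ j, z = inc k n (D.f j) / inc k n (D.f b)})

/-- Log smoothness with a form `l` of degree `ε`: the divisor `l = 0` is smooth and transversal
(for `ε = 1` this is `LogSmoothH`, for `ε = 0`, `l = 1` it is `LogSmooth`). -/
def LSE (D : Dat k n) (l : Pol k n) (ε : ℕ) : Prop :=
  ∀ (a : Fin D.p) (b : Fin D.M) (q : Ideal (D.ch a b)), q.IsPrime →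
    ∃ s : D.ch a b, s ∉ q ∧
      ∃ (t : Fin (n - 1) → (Algebra.adjoin k ((D.ch a b : Set (Fr k n)) ∪ {((s : Fr k n))⁻¹})))
        (e : ℕ), D.LogCoord a b _ t e ∧
        (genIn (Algebra.adjoin k ((D.ch a b : Set (Fr k n)) ∪ {((s : Fr k n))⁻¹}))
            {inc k n l / inc k n (D.g a) ^ ε} = ⊤ ∨
          ∃ i : Fin (n - 1), e ≤ (i : ℕ) ∧
            genIn (Algebra.adjoin k ((D.ch a b : Set (Fr k n)) ∪ {((s : Fr k n))⁻¹}))
              {inc k n l / inc k n (D.g a) ^ ε} = Ideal.span {t i})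

/-- A finite covering of the blow-up by affine open sets `U_v`, `v : Fin m`, inside the charts
`(a v, b v)`, with coordinates and multiplicities of `E`, `(f)`, `(l)`. -/
structure Cov (D : Dat k n) (m : ℕ) where
  a : Fin m → Fin D.p
  b : Fin m → Fin D.M
  s : Fin m → Fr k n
  t : Fin m → Fin (n - 1) → Fr k n
  ce : Fin m → Fin (n - 1) → ℕ
  cf : Fin m → Fin (n - 1) → ℕ
  cl : Fin m → Fin (n - 1) → ℕ

namespace Cov

variable {D : Dat k n} {m : ℕ}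

/-- coordinate ring of `U_v` -/
def A (C : Cov D m) (v : Fin m) : Subalgebra k (Fr k n) :=
  Algebra.adjoin k ((D.ch (C.a v) (C.b v) : Set (Fr k n)) ∪ {(C.s v)⁻¹})

/-- coordinate ring of `{g_a ≠ 0 (a ∈ σ)} ∩ U_{f_b} (b ∈ τ) ∩ U_v (v ∈ ω)` -/
def Rg (C : Cov D m) (σ : Finset (Fin D.p)) (τ : Finset (Fin D.M)) (ω : Finset (Fin m)) :
    Subalgebra k (Fr k n) :=
  P0 D σ τ ⊔ ⨆ v ∈ ω, C.A v

/-- the monomial `∏ t_i ^ c_i` on `U_v` -/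
def mon (C : Cov D m) (c : Fin m → Fin (n - 1) → ℕ) (v : Fin m) : Fr k n :=
  ∏ i, C.t v i ^ c v i

/-- sections of `O(-∑ c_i D_i)` -/
def G (C : Cov D m) (c : Fin m → Fin (n - 1) → ℕ) (σ : Finset (Fin D.p)) (τ : Finset (Fin D.M))
    (ω : Finset (Fin m)) : Submodule k (Fr k n) where
  carrier := {z | ∀ v, z / C.mon c v ∈ C.Rg σ τ (insert v ω)}
  zero_mem' := by
    intro v
    rw [zero_div]
    exact zero_mem _
  add_mem' := by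
    intro x y hx hy v
    rw [add_div]
    exact add_mem (hx v) (hy v)
  smul_mem' := by
    intro c x hx v
    rw [smul_div_assoc]
    exact Subalgebra.smul_mem _ (hx v) c

/-- The properties of a good covering. -/
structure Good (C : Cov D m) (l : Pol k n) (ε : ℕ) : Prop where
  l_ne : l ≠ 0
  s_mem : ∀ v, C.s v ∈ D.ch (C.a v) (C.b v)
  s_ne : ∀ v, C.s v ≠ 0
  cover : ∀ a b, ∃ c : Fin m → Fr k n, (∀ v, c v ∈ D.ch a b) ∧
    (∀ v, ¬ (C.a v = a ∧ C.b v = b) → c v = 0) ∧ ∑ v, c v * C.s v = 1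
  t_ne : ∀ v i, C.t v i ≠ 0
  t_mem : ∀ v i, C.t v i ∈ C.A v
  etale : ∀ v, (MvPolynomial.aeval (R := k)
    (fun i => (⟨C.t v i, t_mem v i⟩ : C.A v))).toRingHom.Etale
  ce_le : ∀ v i, C.ce v i + C.cl v i ≤ 1
  cf_supp : ∀ v i, C.ce v i = 0 → C.cf v i = 0
  t_inv : ∀ v i, C.ce v i + C.cl v i = 0 → (C.t v i)⁻¹ ∈ C.A v
  radE : ∀ v z, z ∈ toF (C.A v) (genIn (C.A v) (D.I0 (C.a v))).radical ↔
    z / C.mon C.ce v ∈ C.A v
  idF : ∀ v, (inc k n (D.f (C.b v)) / inc k n (D.g (C.a v)) ^ D.δ) / C.mon C.cf v ∈ C.A v ∧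
    C.mon C.cf v / (inc k n (D.f (C.b v)) / inc k n (D.g (C.a v)) ^ D.δ) ∈ C.A v
  idL : ∀ v, (inc k n l / inc k n (D.g (C.a v)) ^ ε) / C.mon C.cl v ∈ C.A v ∧
    C.mon C.cl v / (inc k n l / inc k n (D.g (C.a v)) ^ ε) ∈ C.A v

/-- The function `h_v / (g_a f_b)^N` on the chart `(a,b)`. -/
def th (D : Dat k n) {m : ℕ} (N : ℕ) (h : Fin m → Fr k n) (a : Fin D.p) (b : Fin D.M) (v : Fin m) :
    Fr k n :=
  h v / (inc k n (D.g a) * inc k n (D.f b)) ^ N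

/-- A projective embedding adapted to the covering. -/
structure Emb (C : Cov D m) (N : ℕ) (h : Fin m → Fr k n) : Prop where
  h_ne : ∀ v, h v ≠ 0
  h_mem : ∀ v w, h w / h v ∈ C.A v
  glue : ∀ v w, C.A w ≤ Algebra.adjoin k ((C.A v : Set (Fr k n)) ∪ {h v / h w})
  fg : ∀ v, (C.A v).FG
  fin : ∀ v, ∃ G : Finset (Fr k n), (G : Set (Fr k n)) ⊆ C.A v ∧
    ∀ x ∈ C.A v, x ∈ Submodule.span (Algebra.adjoin k {z | ∃ w, z = h w / h v})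
      (G : Set (Fr k n))
  th_mem : ∀ a b v, th D N h a b v ∈ D.ch a b
  th_inv : ∀ a b v, (th D N h a b v)⁻¹ ∈ C.A v
  th_one : ∀ a b, ∃ c : Fin m → Fr k n, (∀ v, c v ∈ D.ch a b) ∧
    ∑ v, c v * th D N h a b v = 1
  th_loc : ∀ a b v, ∀ z ∈ C.A v, ∃ e : ℕ, th D N h a b v ^ e * z ∈ D.ch a b

end Cov

/-! ## Localisation lemmas -/

/-- The unit `f_b / g_a^δ` of the function field. -/
def hu (D : Dat k n) (hD : D.Good) (a : Fin D.p) (b : Fin D.M) : (Fr k n)ˣ :=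
  Units.mk0 (inc k n (D.f b) / inc k n (D.g a) ^ D.δ)
    (div_ne_zero (inc_ne (hD.f_ne b)) (pow_ne_zero _ (inc_ne (hD.g_ne a))))

/-- Localisation of ideals and radicals inside a field. -/
def Stmt_RL : Prop :=
  ∀ (K L : Type u) [Field K] [Field L] [Algebra K L] (A B : Subalgebra K L) (η : L) (J : Set L),
    A ≤ B → η ∈ A → η⁻¹ ∈ B → η ≠ 0 → (∀ z ∈ B, ∃ e : ℕ, η ^ e * z ∈ A) → J ⊆ A → ∀ z : L,
      (z ∈ toF B (genIn B J) ↔ ∃ e : ℕ, η ^ e * z ∈ toF A (genIn A J)) ∧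
      (z ∈ toF B (genIn B J).radical ↔ ∃ e : ℕ, η ^ e * z ∈ toF A (genIn A J).radical)

/-- `k[x_i/g_a, …]` contains the generators `I0 a`. -/
def Stmt_IJ : Prop :=
  ∀ (k : Type u) [Field k] (n : ℕ) (D : Dat k n), D.Good → ∀ (a : Fin D.p)
    (B : Subalgebra k (Fr k n)),
    ((∀ i, inc k n (X i) / inc k n (D.g a) ∈ B) → D.I0 a ⊆ B) ∧
    ((∀ i, inc k n (X i) / inc k n (D.g a) ∈ B) → ∀ (w : Pol k n) (d : ℕ), w.IsHomogeneous d →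
      inc k n w / inc k n (D.g a) ^ d ∈ B) ∧
    ∀ a' : Fin D.p, inc k n (D.g a) / inc k n (D.g a') ∈ B →
      inc k n (D.g a') / inc k n (D.g a) ∈ B → genIn B (D.I0 a) = genIn B (D.I0 a')

/-- `B ⊔ A_v` is a localisation of `B` at `θ_v` if `B` contains the chart `(a,b)`. -/
def Stmt_LT : Prop :=
  ∀ (k : Type u) [Field k] (n : ℕ) (D : Dat k n) (m : ℕ) (C : Cov D m) (N : ℕ)
    (h : Fin m → Fr k n), D.Good → C.Emb N h → ∀ (a : Fin D.p) (b : Fin D.M) (v : Fin m)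
    (B : Subalgebra k (Fr k n)), D.ch a b ≤ B → ∀ z ∈ B ⊔ C.A v,
      ∃ e : ℕ, Cov.th D N h a b v ^ e * z ∈ B

/-- Partition of unity. -/
def Stmt_PU : Prop :=
  ∀ (k : Type u) [Field k] (n : ℕ) (D : Dat k n) (m : ℕ) (C : Cov D m) (N : ℕ)
    (h : Fin m → Fr k n), D.Good → C.Emb N h → ∀ (a : Fin D.p) (b : Fin D.M)
    (B : Subalgebra k (Fr k n)), D.ch a b ≤ B → ∀ (M : AddSubgroup (Fr k n)),
      (∀ r ∈ B, ∀ x ∈ M, r * x ∈ M) → ∀ z : Fr k n,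
      (∀ v, ∃ e : ℕ, Cov.th D N h a b v ^ e * z ∈ M) → z ∈ M

/-- `P0 σ τ ⊔ A_v` is a localisation of `A_v`. -/
def Stmt_LE : Prop :=
  ∀ (k : Type u) [Field k] (n : ℕ) (D : Dat k n) (m : ℕ) (C : Cov D m), D.Good →
    ∀ (σ : Finset (Fin D.p)) (τ : Finset (Fin D.M)) (v : Fin m), ∃ η ∈ C.A v, η ≠ 0 ∧
      η⁻¹ ∈ P0 D σ τ ⊔ C.A v ∧ ∀ z ∈ P0 D σ τ ⊔ C.A v, ∃ e : ℕ, η ^ e * z ∈ C.A v

/-- `P0` as a ring of fractions in the sense of area SER; it is noetherian. -/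
def Stmt_PP : Prop :=
  ∀ (k : Type u) [Field k] (n : ℕ) (D : Dat k n) (hD : D.Good) (σ : Finset (Fin D.p))
    (a : Fin D.p), a ∈ σ →
    (∀ (τ : Finset (Fin D.M)), τ.Nonempty → ∀ z : Fr k n,
      (z ∈ Prg (P0 D σ ∅) (hu D hD a) τ ↔ z ∈ P0 D σ τ)) ∧
    ∀ (τ : Finset (Fin D.M)), IsNoetherianRing (P0 D σ τ)

/-! ## Existence of coverings and embeddings -/

/-- Étale localisation inside a field: if `k[T] → A` (`T_i ↦ t_i`) is étale and `u ∈ A`, then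
`k[T] → A[1/u]` with some of the coordinates shifted by `1` is étale, and all `t_i` are nonzero. -/
def Stmt_ETL : Prop :=
  ∀ (K L : Type u) [Field K] [Field L] [Algebra K L] (N : ℕ) (A A' : Subalgebra K L)
    (t : Fin N → L) (ht : ∀ i, t i ∈ A) (sh : Fin N → K) (u : L),
    u ∈ A → u ≠ 0 → A' = Algebra.adjoin K ((A : Set L) ∪ {u⁻¹}) →
    (MvPolynomial.aeval (R := K) (fun i => (⟨t i, ht i⟩ : A))).toRingHom.Etale →
    (∀ i, t i ≠ 0) ∧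
    ∀ ht' : ∀ i, t i + algebraMap K L (sh i) ∈ A',
      (MvPolynomial.aeval (R := K)
        (fun i => (⟨t i + algebraMap K L (sh i), ht' i⟩ : A'))).toRingHom.Etale

def Stmt_COV : Prop :=
  ∀ (k : Type u) [Field k] [CharZero k] (n : ℕ) (D : Dat k n) (l : Pol k n) (ε : ℕ), D.Good →
    l.IsHomogeneous ε → l ≠ 0 → LSE D l ε → ∃ (m : ℕ) (C : Cov D m), C.Good l ε

def Stmt_EMB : Prop :=
  ∀ (k : Type u) [Field k] (n : ℕ) (D : Dat k n) (l : Pol k n) (ε m : ℕ) (C : Cov D m), D.Good →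
    C.Good l ε → ∃ (N : ℕ) (h : Fin m → Fr k n), C.Emb N h

/-- Gluing of the divisors. -/
def Stmt_UC : Prop :=
  ∀ (k : Type u) [Field k] (n : ℕ) (D : Dat k n) (l : Pol k n) (ε m : ℕ) (C : Cov D m) (N : ℕ)
    (h : Fin m → Fr k n), D.Good → C.Good l ε → C.Emb N h → ∀ v w,
    C.mon C.ce v / C.mon C.ce w ∈ C.A v ⊔ C.A w ∧
    C.mon C.cf v / C.mon C.cf w ∈ C.A v ⊔ C.A w ∧
    C.mon C.cl v / C.mon C.cl w ∈ C.A v ⊔ C.A w

/-- The injectivity theorem for the covering. -/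
def Stmt_PMG : Prop :=
  ∀ (k : Type u) [Field k] (n : ℕ) (D : Dat k n) (l : Pol k n) (ε m : ℕ) (C : Cov D m) (N : ℕ)
    (h : Fin m → Fr k n), D.Good → C.Good l ε → C.Emb N h → ∀ N0 m0 t : ℕ, 1 ≤ N0 → 1 ≤ t →
    PMod.Good (K := k) (L := Fr k n) (m := m) (N := n - 1)
      { h := h
        A := C.A
        t := C.t
        c := C.ce + C.cl
        c' := N0 • C.ce + m0 • C.cf + t • C.cl }

/-! ## Exactness in the direction of the covering -/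

def Stmt_W1 : Prop :=
  ∀ (k : Type u) [Field k] (n : ℕ) (D : Dat k n) (l : Pol k n) (ε m : ℕ) (C : Cov D m) (N : ℕ)
    (h : Fin m → Fr k n), D.Good → C.Good l ε → C.Emb N h →
    ∀ (c : Fin m → Fin (n - 1) → ℕ) (σ : Finset (Fin D.p)) (τ : Finset (Fin D.M)), σ.Nonempty →
      τ.Nonempty → AugEx (fun ω => (C.G c σ τ ω).toAddSubgroup)

/-! ## Graded parts -/

def Stmt_EG0 : Prop :=
  ∀ (k : Type u) [Field k] (n : ℕ) (D : Dat k n), D.Good →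
    ∀ (σ : Finset (Fin D.p)) (a : Fin D.p), a ∈ σ → ∀ (m : ℤ) (z : Fr k n),
      z ∈ D.Eg m σ ∅ ↔
        z / inc k n (D.g a) ^ m ∈ toF (P0 D σ ∅) (genIn (P0 D σ ∅) (D.I0 a))

def Stmt_EG1 : Prop :=
  ∀ (k : Type u) [Field k] (n : ℕ) (D : Dat k n), D.Good →
    ∀ (σ : Finset (Fin D.p)) (τ : Finset (Fin D.M)) (a : Fin D.p), a ∈ σ → τ.Nonempty →
      ∀ (m : ℤ) (z : Fr k n),
      z ∈ D.Eg m σ τ ↔
        z / inc k n (D.g a) ^ m ∈ toF (P0 D σ τ) (genIn (P0 D σ τ) (D.I0 a)).radical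

/-! ## Sections of `O(-E)` and of `O(-N₀E)` -/

def Stmt_GE : Prop :=
  ∀ (k : Type u) [Field k] (n : ℕ) (D : Dat k n) (l : Pol k n) (ε m : ℕ) (C : Cov D m) (N : ℕ)
    (h : Fin m → Fr k n), D.Good → C.Good l ε → C.Emb N h →
    ∀ (σ : Finset (Fin D.p)) (τ : Finset (Fin D.M)) (a : Fin D.p), a ∈ σ → τ.Nonempty →
      ∀ z, z ∈ C.G C.ce σ τ ∅ ↔ z ∈ toF (P0 D σ τ) (genIn (P0 D σ τ) (D.I0 a)).radical

def Stmt_NZ : Prop :=
  ∀ (k : Type u) [Field k] (n : ℕ) (D : Dat k n) (l : Pol k n) (ε m : ℕ) (C : Cov D m) (N : ℕ)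
    (h : Fin m → Fr k n), D.Good → C.Good l ε → C.Emb N h → ∃ N0 : ℕ, 1 ≤ N0 ∧
    ∀ (σ : Finset (Fin D.p)) (τ : Finset (Fin D.M)) (a : Fin D.p), a ∈ σ → τ.Nonempty →
      ∀ z ∈ C.G (N0 • C.ce) σ τ ∅, z ∈ toF (P0 D σ τ) (genIn (P0 D σ τ) (D.I0 a))

/-- `G c σ τ ∅` as a module over `k[x_i/g_a (a ∈ σ)]`. -/
def GM {D : Dat k n} {m : ℕ} (C : Cov D m) (c : Fin m → Fin (n - 1) → ℕ) (σ : Finset (Fin D.p))
    (τ : Finset (Fin D.M)) : Submodule (P0 D σ ∅) (Fr k n) where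
  carrier := C.G c σ τ ∅
  zero_mem' := zero_mem _
  add_mem' := fun hx hy => add_mem hx hy
  smul_mem' := by
    intro r x hx v
    have h1 : ((r : Fr k n) * x) / C.mon c v = (r : Fr k n) * (x / C.mon c v) := mul_div_assoc _ _ _
    have h2 : (r : Fr k n) ∈ C.Rg σ τ (insert v ∅) := by
      have h3 : P0 D σ ∅ ≤ P0 D σ τ := by
        apply Algebra.adjoin_mono
        apply Set.union_subset_union_right
        rintro z ⟨b, hb, -⟩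
        exact absurd hb (Finset.notMem_empty b)
      exact (h3.trans le_sup_left) r.2
    change ((r : Fr k n) * x) / C.mon c v ∈ C.Rg σ τ (insert v ∅)
    rw [h1]
    exact mul_mem h2 (hx v)

/-- The ideal generated by `I` in `P0 σ τ`, as a module over `k[x_i/g_a (a ∈ σ)]`. -/
def JM (D : Dat k n) (a : Fin D.p) (σ : Finset (Fin D.p)) (τ : Finset (Fin D.M)) :
    Submodule (P0 D σ ∅) (Fr k n) where
  carrier := toF (P0 D σ τ) (genIn (P0 D σ τ) (D.I0 a))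
  zero_mem' := zero_mem _
  add_mem' := fun hx hy => add_mem hx hy
  smul_mem' := by
    rintro r x ⟨y, hy, rfl⟩
    have h3 : P0 D σ ∅ ≤ P0 D σ τ := by
      apply Algebra.adjoin_mono
      apply Set.union_subset_union_right
      rintro z ⟨b, hb, -⟩
      exact absurd hb (Finset.notMem_empty b)
    exact ⟨⟨(r : Fr k n), h3 r.2⟩ * y, Ideal.mul_mem_left _ _ hy, rfl⟩

def Stmt_CM : Prop :=
  ∀ (k : Type u) [Field k] (n : ℕ) (D : Dat k n) (l : Pol k n) (ε m : ℕ) (C : Cov D m) (N : ℕ)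
    (h : Fin m → Fr k n) (hD : D.Good), C.Good l ε → C.Emb N h →
    ∀ (N0 : ℕ) (σ : Finset (Fin D.p)) (a : Fin D.p), a ∈ σ →
      Coh (Λ := P0 D σ ∅) (Q := Fr k n) (𝕄 := Fr k n) (hu D hD a) (GM C (N0 • C.ce) σ)

def Stmt_CJ : Prop :=
  ∀ (k : Type u) [Field k] (n : ℕ) (D : Dat k n) (hD : D.Good) (σ : Finset (Fin D.p))
    (a : Fin D.p), a ∈ σ →
      Coh (Λ := P0 D σ ∅) (Q := Fr k n) (𝕄 := Fr k n) (hu D hD a) (JM D a σ)

/-- Global sections of the twists of `I·O`. -/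
def Stmt_GS : Prop :=
  ∀ (k : Type u) [Field k] (n : ℕ) (D : Dat k n) (hD : D.Good), 0 < D.M →
    ∀ (σ : Finset (Fin D.p)) (a : Fin D.p), a ∈ σ → ∃ e0 : ℕ, ∀ e : ℕ, e0 ≤ e → ∀ x : Fr k n,
      (∀ b, x / (hu D hD a b : Fr k n) ^ e ∈ toF (P0 D σ {b}) (genIn (P0 D σ {b}) (D.I0 a))) →
      x ∈ toF (P0 D σ ∅) (genIn (P0 D σ ∅) (D.I0 a))

/-! ## Push-forward: the columns -/

/-- The system `f^{m0} O(-N0 E)(m)`, augmented by its global sections in the `τ`-direction. -/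
def Sy {D : Dat k n} {m : ℕ} (C : Cov D m) (hD : D.Good) (N0 m0 : ℕ) (μ : ℤ)
    (σ : Finset (Fin D.p)) (τ : Finset (Fin D.M)) : AddSubgroup (Fr k n) where
  carrier := {z | (∀ a ∈ σ, ∀ b, z / (inc k n (D.g a) ^ μ * (hu D hD a b : Fr k n) ^ m0) ∈
    C.G (N0 • C.ce) σ (insert b τ) ∅) ∧ (τ = ∅ → z ∈ D.Eg μ σ ∅)}
  zero_mem' := by
    refine ⟨fun a _ b => ?_, fun _ => zero_mem _⟩
    rw [zero_div]
    exact zero_mem _
  add_mem' := by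
    rintro x y ⟨hx, hx'⟩ ⟨hy, hy'⟩
    refine ⟨fun a ha b => ?_, fun h => add_mem (hx' h) (hy' h)⟩
    rw [add_div]
    exact add_mem (hx a ha b) (hy a ha b)
  neg_mem' := by
    rintro x ⟨hx, hx'⟩
    refine ⟨fun a ha b => ?_, fun h => neg_mem (hx' h)⟩
    rw [neg_div]
    exact neg_mem (hx a ha b)

def Stmt_PSH : Prop :=
  ∀ (k : Type u) [Field k] (n : ℕ) (D : Dat k n) (l : Pol k n) (ε m : ℕ) (C : Cov D m) (N : ℕ)
    (h : Fin m → Fr k n) (hD : D.Good), C.Good l ε → C.Emb N h → 0 < D.M → ∀ N0 : ℕ,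
    (∀ (σ : Finset (Fin D.p)) (τ : Finset (Fin D.M)) (a : Fin D.p), a ∈ σ → τ.Nonempty →
      ∀ z ∈ C.G (N0 • C.ce) σ τ ∅, z ∈ toF (P0 D σ τ) (genIn (P0 D σ τ) (D.I0 a))) →
    ∃ m0 : ℕ, ∀ (μ : ℤ) (σ : Finset (Fin D.p)), σ.Nonempty → AugEx (fun τ => Sy C hD N0 m0 μ σ τ)

/-- The common generalisation of SUR0 and SUR1. -/
def Stmt_SURE : Prop :=
  ∀ (k : Type u) [Field k] [CharZero k] (n : ℕ) (D : Dat k n) (l : Pol k n) (ε : ℕ), D.Good →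
    l.IsHomogeneous ε → l ≠ 0 → LSE D l ε → ∀ t : ℕ, 1 ≤ t →
    ∀ z, D.InB (-(ε : ℤ)) z → dd z = 0 → ∃ y w, D.InB (-(ε : ℤ)) y ∧ D.InQ (-((t * ε : ℕ) : ℤ)) w ∧
      (∀ σ, dd w σ ∅ = 0) ∧ ∀ σ τ, z σ τ = dd y σ τ + inc k n l ^ (t - 1) * dd w σ τ

end

end Pool.Agent.DBX.SUR
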